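import Pool.Agent.Helper10.FQ.Mau
import Pool.Agent.Helper55.FQ.Cfg
import Pool.Agent.Helper35.TZ.Fin2

/-!
# Project FQ (MP_0f6f3f_an), layer LF: the configuration

`chm_gr`, `mau_gr`: the Mautner property for the data `Gr`. For `C : Cf ..`: `C.lfg`, `C.lfgL`, `C.lfx`, `C.lfy` (all `g`, uniformly), `C.lfr`, `C.lfl` (`LFR`, `LFL`, all families), `C.lfregx`, `C.lfregy`, `C.lfopp` (regions).
-/

set_option autoImplicit false
set_option linter.unusedSectionVars false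

open Filter Topology MeasureTheory Matrix

namespace Pool.Agent.Helper10.FQ

open Pool.Agent.Helper84 Pool.Agent.Helper84.GN Pool.Agent.Helper84.GN.S3 Pool.Agent.Helper84.GN.S3.X
open Pool.Agent.Helper84.NI Pool.Agent.Helper84.GVN Pool.Agent.Helper90.RK
open Pool.Agent.Helper96.RK hiding toReg
open Pool.Agent.Helper66.FR Pool.Agent.Helper84.FR Pool.Agent.Helper55.FR
open Pool.Agent.Helper78.BM
open Pool.Agent.Helper9.FQ (mass)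
open Pool.Agent.Helper84.GDL (GD SI)
open Pool.Agent.Helper35.TZ (autC isAdj_autC autC_sub)
open Pool.Agent.Helper55.FQ (Gr Cf wn)

section G

variable {L : Type} [LieRing L] [LieAlgebra ℝ L] {N : ℕ} {r : ℕ} {θ : L ≃ₗ⁅ℝ⁆ L} {b : Module.Basis (Fin N) ℝ L} {A : Submodule ℝ L}
  {τ : Module.Dual ℝ A ≃ₗ[ℝ] A} {al : Fin r → Module.Dual ℝ A} {W : Fin r → A} {D : GD (autC b) (Fin r)}

theorem chm_gr [LieAlgebra.IsSimple ℝ L] (G : Gr θ b A τ al W D) : ChM D :=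
  ChM_of G.s.h (isAdj_autC b) (autC_sub G.s.h) G.s.hA (fun i => G.s.hS.root i) G.hW (funext G.ea)

/-- The Mautner property if one gap tends to infinity. -/
theorem mau_ea [LieAlgebra.IsSimple ℝ L] (G : Gr θ b A τ al W D) {c : ℕ → Fin r → ℝ} {j : Fin r}
    (hj : Tendsto (fun n => c n j) (hyperfilter ℕ : Filter ℕ) atTop) : MauU (Ctr fun n => D.ea (c n)) := by
  have h := mau_seq G.s.h (isAdj_autC b) (autC_sub G.s.h) G.s.hA (fun i => G.s.hS.root i) G.hW hj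
  have e : (fun n => D.ea (c n)) = fun n => Pool.Agent.Helper77.FQ.eaG (isAdj_autC b) W (c n) := funext fun n => G.ea _
  rw [e]
  exact h

theorem mau_gr [LieAlgebra.IsSimple ℝ L] (G : Gr θ b A τ al W D) (u : Fin r) : MauU (Ctr (wn D u)) := by
  refine mau_ea G (c := fun n => Pi.single u (n : ℝ)) (j := u) ?_
  have h : Tendsto (fun n : ℕ => (n : ℝ)) (hyperfilter ℕ : Filter ℕ) atTop := tendsto_natCast_atTop_atTop.mono_left Nat.hyperfilter_le_atTop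
  simpa using h

end G

section C

variable {L L' : Type} [LieRing L] [LieAlgebra ℝ L] [LieRing L'] [LieAlgebra ℝ L'] {N N' : ℕ} {r : ℕ}
  {b : Module.Basis (Fin N) ℝ L} {b' : Module.Basis (Fin N') ℝ L'} [MeasurableSpace (autC b)] [BorelSpace (autC b)]
  {Γ : Subgroup (autC b)} {Λ : Subgroup (autC b')} [Countable Γ] [Countable Λ]
  {X : Type} [MeasurableSpace X] [MulAction (autC b) X] [MeasurableConstSMul (autC b) X]
  {θ : L ≃ₗ⁅ℝ⁆ L} {θ' : L' ≃ₗ⁅ℝ⁆ L'} {A : Submodule ℝ L} {A' : Submodule ℝ L'} {τ : Module.Dual ℝ A ≃ₗ[ℝ] A} {τ' : Module.Dual ℝ A' ≃ₗ[ℝ] A'}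
  {al : Fin r → Module.Dual ℝ A} {al' : Fin r → Module.Dual ℝ A'} {W : Fin r → A} {W' : Fin r → A'}
  {D : GD (autC b) (Fin r)} {D' : GD (autC b') (Fin r)} {μ : Measure X} [SMulInvariantMeasure (autC b) X μ] [IsProbabilityMeasure μ]
  {a : Cocy (autC b) X Γ} {E : Emb Γ Λ}

theorem _root_.Pool.Agent.Helper55.FQ.Cf.lfg (C : Cf θ θ' A A' τ τ' al al' W W' D D' μ a E) (l : Fin r) {ε : ℝ} (hε : 0 < ε) :
    ∃ δ : ℝ, 0 < δ ∧ ∀ (g : autC b) (v : VE D' l), ‖v‖ = 1 → mass μ a E (AbV (rhG D' Λ l) v δ) g ≤ ε := by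
  have := C.simple
  exact lf_g C.cyc.h3 C.cyc.hK C.cyc.coci C.cyc.full C.si' (chm_gr C.G) l hε

theorem _root_.Pool.Agent.Helper55.FQ.Cf.lfgL (C : Cf θ θ' A A' τ τ' al al' W W' D D' μ a E) (l : Fin r) {ε : ℝ} (hε : 0 < ε) :
    ∃ δ : ℝ, 0 < δ ∧ ∀ (g : autC b) (v : VE D' l), ‖v‖ = 1 → mass μ a E (AbL (rhG D' Λ l) v δ) g ≤ ε := by
  have := C.simple
  exact lf_gL C.cyc.h3 C.cyc.hK C.cyc.coci C.cyc.full C.si' (chm_gr C.G) l hε

theorem _root_.Pool.Agent.Helper55.FQ.Cf.lfx (C : Cf θ θ' A A' τ τ' al al' W W' D D' μ a E) (l : Fin r) {ε : ℝ} (hε : 0 < ε) :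
    ∃ δ : ℝ, 0 < δ ∧ ∃ M : ℝ, ∀ (g : autC b) (e : VE D' l), ‖e‖ = 1 →
      mass μ a E {γ : Λ | M ≤ D'.mu (γ : autC b') l ∧ |inner ℝ (xE' D' l (γ : autC b')) e| < δ} g ≤ ε := by
  have := C.simple
  exact lf_x C.cyc.h3 C.cyc.hK C.cyc.coci C.cyc.full C.si' (chm_gr C.G) l hε

theorem _root_.Pool.Agent.Helper55.FQ.Cf.lfy (C : Cf θ θ' A A' τ τ' al al' W W' D D' μ a E) (l : Fin r) {ε : ℝ} (hε : 0 < ε) :
    ∃ δ : ℝ, 0 < δ ∧ ∃ M : ℝ, ∀ (g : autC b) (e : VE D' l), ‖e‖ = 1 →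
      mass μ a E {γ : Λ | M ≤ D'.mu (γ : autC b') l ∧ |inner ℝ (yE' D' l (γ : autC b')) e| < δ} g ≤ ε := by
  have := C.simple
  exact lf_y C.cyc.h3 C.cyc.hK C.cyc.coci C.cyc.full C.si' (chm_gr C.G) l hε

theorem _root_.Pool.Agent.Helper55.FQ.Cf.lfr (C : Cf θ θ' A A' τ τ' al al' W W' D D' μ a E) (l : Fin r) {I : Type} (f : I → autC b) (fl : Filter I) :
    Pool.Agent.Helper20.FQ.LFR μ a E (fun γ : Λ => D'.rho l (γ : autC b')) f fl := by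
  have := C.simple
  exact LFR_g C.cyc.h3 C.cyc.hK C.cyc.coci C.cyc.full C.si' (chm_gr C.G) l f fl

theorem _root_.Pool.Agent.Helper55.FQ.Cf.lfl (C : Cf θ θ' A A' τ τ' al al' W W' D D' μ a E) (l : Fin r) {I : Type} (f : I → autC b) (fl : Filter I) :
    Pool.Agent.Helper20.FQ.LFL μ a E (fun γ : Λ => D'.rho l (γ : autC b')) f fl := by
  have := C.simple
  exact LFL_g C.cyc.h3 C.cyc.hK C.cyc.coci C.cyc.full C.si' (chm_gr C.G) l f fl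

theorem _root_.Pool.Agent.Helper55.FQ.Cf.lfregx (C : Cf θ θ' A A' τ τ' al al' W W' D D' μ a E) (u : Fin r) {l : Fin r} {R : Reg Λ}
    (hR : ∀ n, Tendsto (fun γ : Λ => D'.mu (γ : autC b') l) (R.F n) atTop) (φ : XL μ (L2 Λ)) {ε : ℝ} (hε : 0 < ε) :
    ∃ δ : ℝ, 0 < δ ∧ ∀ e : VE D' l, ‖e‖ = 1 → ‖iUX R {γ : Λ | |inner ℝ (xE' D' l (γ : autC b')) e| < δ} (Tb μ a E R (wn D u) φ)‖ ≤ ε := by
  have := C.simple
  exact lf_regx C.cyc.h3 C.cyc.hK C.cyc.coci C.cyc.full C.si' (mau_gr C.G u) hR φ hε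

theorem _root_.Pool.Agent.Helper55.FQ.Cf.lfregy (C : Cf θ θ' A A' τ τ' al al' W W' D D' μ a E) (c : ℕ → autC b) {l : Fin r} {R : Reg Λ}
    (hR : ∀ n, Tendsto (fun γ : Λ => D'.mu (γ : autC b') l) (R.F n) atTop) {ε : ℝ} (hε : 0 < ε) :
    ∃ δ : ℝ, 0 < δ ∧ ∀ e : VE D' l, ‖e‖ = 1 → ‖iUX R {γ : Λ | |inner ℝ (yE' D' l (γ : autC b')) e| < δ} (Tb μ a E R c (cst μ (dl 1)))‖ ≤ ε := by
  have := C.simple
  exact lf_regy C.cyc.h3 C.cyc.hK C.cyc.coci C.cyc.full C.si' (chm_gr C.G) c hR hε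

/-- The hypothesis `hLF` of `Helper45/FQ/PVM.lean` (`op γ h = |D'.opp l γ h|`). -/
theorem _root_.Pool.Agent.Helper55.FQ.Cf.lfopp (C : Cf θ θ' A A' τ τ' al al' W W' D D' μ a E) (u : Fin r) {l : Fin r} {R : Reg Λ}
    (hR : ∀ n, Tendsto (fun γ : Λ => D'.mu (γ : autC b') l) (R.F n) atTop) (φ : XL μ (L2 Λ)) {ε : ℝ} (hε : 0 < ε) :
    ∃ δ : ℝ, 0 < δ ∧ ∀ h : autC b', ‖Mf μ R ({γ : Λ | ¬ δ ≤ |D'.opp l (γ : autC b') h|}.indicator fun _ => 1) (Tb μ a E R (wn D u) φ)‖ ≤ ε := by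
  have := C.simple
  exact lf_opp C.cyc.h3 C.cyc.hK C.cyc.coci C.cyc.full C.si' (mau_gr C.G u) hR φ hε

end C

end Pool.Agent.Helper10.FQ
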