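import Pool.Agent.Helper43.LF.LM
import Pool.Agent.Helper78.BM.Erg

/-!
# Project FQ (MP_0f6f3f_an), layer LF: matrix entries, the trace of the commutant of `W(Λ₀)`

`ComX Z`: `Z` commutes with the base. `nn Z k l`: the square of the norm of the entry `(k, l)`. `nn_adj`: the entries of the adjoint. `tsum_nn`: the columns. `tr_adj`: for `Z` commuting with `W_k`, `k ∈ Λ₀`,
the sum of the squares of the norms of the columns, one for each class, is the same for `Z` and `Z*`.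
-/

set_option autoImplicit false
set_option linter.unusedSectionVars false

open MeasureTheory Filter Topology
open scoped ENNReal ComplexConjugate

namespace Pool.Agent.Helper10.FQ

open Pool.Agent.Helper84 Pool.Agent.Helper84.GN Pool.Agent.Helper84.GN.S3 Pool.Agent.Helper84.GN.S3.X
open Pool.Agent.Helper84.NI Pool.Agent.Helper84.GVN Pool.Agent.Helper90.RK
open Pool.Agent.Helper96.RK hiding toReg
open Pool.Agent.Helper66.FR Pool.Agent.Helper84.FR Pool.Agent.Helper55.FR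
open Pool.Agent.Helper78.BM

section Entries

variable {X G : Type} [MeasurableSpace X] {μ : Measure X} [IsProbabilityMeasure μ] [Group G]

/-- `Z` commutes with the projections of the base. -/
def ComX (Z : XL μ (L2 G) →L[ℂ] XL μ (L2 G)) : Prop :=
  ∀ D : Set X, MeasurableSet D → ∀ φ, Z (xE μ (L2 G) D φ) = xE μ (L2 G) D (Z φ)

theorem ComX.adj {Z : XL μ (L2 G) →L[ℂ] XL μ (L2 G)} (h : ComX Z) : ComX (ContinuousLinearMap.adjoint Z) := by
  intro D hD φ
  refine ext_inner_left ℂ fun y => ?_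
  rw [ContinuousLinearMap.adjoint_inner_right, ← xE_symm hD, ← h D hD, ← ContinuousLinearMap.adjoint_inner_right, xE_symm hD]

theorem ComX.comp {Z Z' : XL μ (L2 G) →L[ℂ] XL μ (L2 G)} (h : ComX Z) (h' : ComX Z') : ComX (Z.comp Z') := by
  intro D hD φ
  rw [ContinuousLinearMap.comp_apply, h' D hD, h D hD, ContinuousLinearMap.comp_apply]

/-- The square of the norm of the entry `(k, l)`. -/
noncomputable def nn (Z : XL μ (L2 G) →L[ℂ] XL μ (L2 G)) (k l : G) : ℝ≥0∞ :=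
  ∫⁻ x, ENNReal.ofReal (‖(Z (cst μ (dl l)) x : L2 G) k‖ ^ 2) ∂μ

theorem coord_ae (φ : XL μ (L2 G)) (k : G) :
    (fun x => inner ℂ (cst μ (dl k) x : L2 G) (φ x)) =ᵐ[μ] fun x => (φ x : L2 G) k := by
  filter_upwards [cst_apply (μ := μ) (dl k : L2 G)] with x h
  rw [h, inner_dl_left]

theorem coord_int (φ : XL μ (L2 G)) (k : G) : Integrable (fun x => (φ x : L2 G) k) μ :=
  (xl_int_inner (cst μ (dl k)) φ).congr (coord_ae φ k)

theorem coord_meas (φ : XL μ (L2 G)) (k : G) : AEStronglyMeasurable (fun x => (φ x : L2 G) k) μ :=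
  (coord_int φ k).aestronglyMeasurable

/-- The integral of an entry over `D`. -/
theorem inner_xE_coord (φ : XL μ (L2 G)) (k : G) {D : Set X} (hD : MeasurableSet D) :
    inner ℂ (cst μ (dl k) : XL μ (L2 G)) (xE μ (L2 G) D φ) = ∫ x in D, (φ x : L2 G) k ∂μ := by
  rw [xl_inner, ← integral_indicator hD]
  refine integral_congr_ae ?_
  filter_upwards [cst_apply (μ := μ) (dl k : L2 G), xE_apply hD φ] with x h1 h2
  rw [h1, h2, inner_smul_right, inner_dl_left]
  by_cases h : x ∈ D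
  · rw [Set.indicator_of_mem h, Set.indicator_of_mem h, one_mul]
  · rw [Set.indicator_of_notMem h, Set.indicator_of_notMem h, zero_mul]

theorem coord_adj {Z : XL μ (L2 G) →L[ℂ] XL μ (L2 G)} (hZ : ComX Z) (k l : G) :
    (fun x => (Z (cst μ (dl l)) x : L2 G) k) =ᵐ[μ]
      fun x => conj ((ContinuousLinearMap.adjoint Z (cst μ (dl k)) x : L2 G) l) := by
  have hi1 := coord_int (Z (cst μ (dl l))) k
  have hi2 := coord_int (ContinuousLinearMap.adjoint Z (cst μ (dl k))) l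
  have hi3 : Integrable (fun x => conj ((ContinuousLinearMap.adjoint Z (cst μ (dl k)) x : L2 G) l)) μ :=
    (LinearIsometryEquiv.integrable_comp_iff (RCLike.conjLIE (K := ℂ))).2 hi2
  refine Integrable.ae_eq_of_forall_setIntegral_eq _ _ hi1 hi3 fun D hD _ => ?_
  rw [← inner_xE_coord _ _ hD, ← hZ D hD, ← ContinuousLinearMap.adjoint_inner_left, ← inner_conj_symm,
    xE_symm hD, inner_xE_coord _ _ hD]
  exact (integral_conj).symm

theorem nn_adj {Z : XL μ (L2 G) →L[ℂ] XL μ (L2 G)} (hZ : ComX Z) (k l : G) :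
    nn (ContinuousLinearMap.adjoint Z) l k = nn Z k l := by
  unfold nn
  refine lintegral_congr_ae ?_
  filter_upwards [coord_adj hZ k l] with x h
  rw [h, RCLike.norm_conj]

theorem lint_norm (φ : XL μ (L2 G)) : ∫⁻ x, ENNReal.ofReal (‖(φ x : L2 G)‖ ^ 2) ∂μ = ENNReal.ofReal (‖φ‖ ^ 2) := by
  rw [xl_norm_sq, ofReal_integral_eq_lintegral_ofReal (xl_int φ) (ae_of_all _ fun x => sq_nonneg _)]

theorem tsum_nn [Countable G] (Z : XL μ (L2 G) →L[ℂ] XL μ (L2 G)) (l : G) :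
    ∑' k, nn Z k l = ENNReal.ofReal (‖Z (cst μ (dl l))‖ ^ 2) := by
  rw [← lint_norm]
  unfold nn
  rw [← lintegral_tsum fun k => ((coord_meas _ k).norm.aemeasurable.pow_const 2).ennreal_ofReal]
  refine lintegral_congr fun x => ?_
  rw [norm_sq_eq, ENNReal.ofReal_tsum_of_nonneg (fun k => sq_nonneg _) (summable_sq _)]

theorem Wk_dl (k l : G) : Wk μ k (cst μ (dl l : L2 G)) = cst μ (dl (k * l)) := by
  rw [cl_cst]
  congr 1
  change lamU k (dl l) = dl (k * l)
  rw [lamU_dl]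

theorem nn_W {Z : XL μ (L2 G) →L[ℂ] XL μ (L2 G)} {m : G} (hZ : ∀ φ, Z (Wk μ m φ) = Wk μ m (Z φ)) (k l : G) :
    nn Z (m * k) (m * l) = nn Z k l := by
  unfold nn
  refine lintegral_congr_ae ?_
  rw [← Wk_dl, hZ]
  filter_upwards [cl_apply ((lamU m).toContinuousLinearEquiv : L2 G →L[ℂ] L2 G) (Z (cst μ (dl l)))] with x h
  change ENNReal.ofReal (‖(cl μ ((lamU m).toContinuousLinearEquiv : L2 G →L[ℂ] L2 G) (Z (cst μ (dl l))) x : L2 G) (m * k)‖ ^ 2) = _
  rw [h]
  change ENNReal.ofReal (‖(lamU m (Z (cst μ (dl l)) x) : L2 G) (m * k)‖ ^ 2) = _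
  rw [lamU_apply, inv_mul_cancel_left]

end Entries

section Trace

variable {G : Type} [Group G] (H : Subgroup G)

/-- Representatives of the classes `H \ G`, indexed by `G / H`. -/
noncomputable def rp (i : G ⧸ H) : G := (Quotient.out i)⁻¹

/-- Every element is `h * rp i` in exactly one way. -/
noncomputable def rpEquiv : (G ⧸ H) × H ≃ G where
  toFun p := (p.2 : G) * rp H p.1
  invFun g := (((g⁻¹ : G) : G ⧸ H), ⟨g * Quotient.out ((g⁻¹ : G) : G ⧸ H), by
    have h := QuotientGroup.mk_out_eq_mul H g⁻¹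
    obtain ⟨h', e⟩ := h
    have e2 : (Quotient.out ((g⁻¹ : G) : G ⧸ H) : G) = g⁻¹ * h' := e
    rw [e2, mul_inv_cancel_left]
    exact h'.2⟩)
  left_inv p := by
    obtain ⟨i, h⟩ := p
    have e1 : (((((h : G) * rp H i)⁻¹ : G)) : G ⧸ H) = i := by
      rw [mul_inv_rev]
      unfold rp
      rw [inv_inv]
      have e : (((Quotient.out i * (h : G)⁻¹ : G)) : G ⧸ H) = ((Quotient.out i : G) : G ⧸ H) := by
        rw [QuotientGroup.eq]
        rw [mul_inv_rev, inv_inv, mul_assoc, inv_mul_cancel, mul_one]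
        exact h.2
      rw [e]
      exact QuotientGroup.out_eq' i
    refine Prod.ext e1 (Subtype.ext ?_)
    change (h : G) * rp H i * Quotient.out ((((h : G) * rp H i)⁻¹ : G) : G ⧸ H) = (h : G)
    rw [e1]
    unfold rp
    rw [inv_mul_cancel_right]
  right_inv g := by
    change g * Quotient.out ((g⁻¹ : G) : G ⧸ H) * (Quotient.out ((g⁻¹ : G) : G ⧸ H))⁻¹ = g
    rw [mul_inv_cancel_right]

theorem rpEquiv_apply (i : G ⧸ H) (h : H) : rpEquiv H (i, h) = (h : G) * rp H i := rfl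

/-- Rearrangement of the double sum. -/
theorem tsum_swap {F : G → G → ℝ≥0∞} (hF : ∀ h ∈ H, ∀ k l, F (h * k) (h * l) = F k l) :
    ∑' i, ∑' k, F k (rp H i) = ∑' i, ∑' k, F (rp H i) k := by
  have h1 : ∀ f : G → ℝ≥0∞, ∑' k, f k = ∑' j : G ⧸ H, ∑' h : H, f ((h : G) * rp H j) := by
    intro f
    rw [← (rpEquiv H).tsum_eq f, ENNReal.tsum_prod']
    rfl
  have h2 : ∀ i j : G ⧸ H, ∑' h : H, F ((h : G) * rp H j) (rp H i) = ∑' h : H, F (rp H j) ((h : G) * rp H i) := by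
    intro i j
    rw [← (Equiv.inv H).tsum_eq fun h : H => F (rp H j) ((h : G) * rp H i)]
    refine tsum_congr fun h => ?_
    have e := hF (h : G) h.2 (rp H j) (((h⁻¹ : H) : G) * rp H i)
    rw [Subgroup.coe_inv, mul_inv_cancel_left] at e
    exact e
  calc ∑' i, ∑' k, F k (rp H i) = ∑' i, ∑' j, ∑' h : H, F ((h : G) * rp H j) (rp H i) := tsum_congr fun i => h1 _
    _ = ∑' i, ∑' j, ∑' h : H, F (rp H j) ((h : G) * rp H i) := tsum_congr fun i => tsum_congr fun j => h2 i j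
    _ = ∑' j, ∑' i, ∑' h : H, F (rp H j) ((h : G) * rp H i) := ENNReal.tsum_comm
    _ = ∑' j, ∑' k, F (rp H j) k := tsum_congr fun j => (h1 _).symm

variable {X : Type} [MeasurableSpace X] {μ : Measure X} [IsProbabilityMeasure μ] [Countable G]

/-- `Z` commutes with the base and with `W_k`, `k ∈ H`. -/
structure ComW (Z : XL μ (L2 G) →L[ℂ] XL μ (L2 G)) : Prop where
  x : ComX Z
  w : ∀ k ∈ H, ∀ φ, Z (Wk μ k φ) = Wk μ k (Z φ)

variable {H}

theorem ComW.adj {Z : XL μ (L2 G) →L[ℂ] XL μ (L2 G)} (h : ComW H Z) : ComW H (ContinuousLinearMap.adjoint Z) := by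
  refine ⟨h.x.adj, fun k hk φ => ?_⟩
  refine ext_inner_left ℂ fun y => ?_
  rw [ContinuousLinearMap.adjoint_inner_right]
  have e1 : y = Wk μ k (Wk μ k⁻¹ y) := (Wk_inv' k y).symm
  have e2 : Z (Wk μ k (Wk μ k⁻¹ y)) = Wk μ k (Z (Wk μ k⁻¹ y)) := h.w k hk _
  rw [e1, e2, inner_Wk, inner_Wk, ContinuousLinearMap.adjoint_inner_right]

theorem ComW.comp {Z Z' : XL μ (L2 G) →L[ℂ] XL μ (L2 G)} (h : ComW H Z) (h' : ComW H Z') : ComW H (Z.comp Z') :=
  ⟨h.x.comp h'.x, fun k hk φ => by rw [ContinuousLinearMap.comp_apply, h'.w k hk, h.w k hk, ContinuousLinearMap.comp_apply]⟩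

/-- The trace of `Z* Z`. -/
noncomputable def trN (H : Subgroup G) (Z : XL μ (L2 G) →L[ℂ] XL μ (L2 G)) : ℝ≥0∞ :=
  ∑' i : G ⧸ H, ENNReal.ofReal (‖Z (cst μ (dl (rp H i)))‖ ^ 2)

theorem tr_adj {Z : XL μ (L2 G) →L[ℂ] XL μ (L2 G)} (h : ComW H Z) : trN H (ContinuousLinearMap.adjoint Z) = trN H Z := by
  unfold trN
  have h1 : ∀ i : G ⧸ H, ENNReal.ofReal (‖ContinuousLinearMap.adjoint Z (cst μ (dl (rp H i)))‖ ^ 2) = ∑' k, nn Z (rp H i) k := by
    intro i
    rw [← tsum_nn]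
    exact tsum_congr fun k => nn_adj h.x _ _
  have h2 : ∀ i : G ⧸ H, ENNReal.ofReal (‖Z (cst μ (dl (rp H i)))‖ ^ 2) = ∑' k, nn Z k (rp H i) := fun i => (tsum_nn Z _).symm
  rw [tsum_congr h1, tsum_congr h2]
  exact (tsum_swap H fun m hm k l => nn_W (h.w m hm) k l).symm

/-- The trace property for unitaries: right multiplication. -/
theorem tr_unit {Z R : XL μ (L2 G) →L[ℂ] XL μ (L2 G)} (h : ComW H Z) (hR : ComW H R)
    (hi : ∀ φ, ‖ContinuousLinearMap.adjoint R φ‖ = ‖φ‖) : trN H (Z.comp R) = trN H Z := by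
  rw [← tr_adj (h.comp hR), ← tr_adj h, ContinuousLinearMap.adjoint_comp]
  unfold trN
  refine tsum_congr fun i => ?_
  rw [ContinuousLinearMap.comp_apply, hi]

end Trace

end Pool.Agent.Helper10.FQ
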