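import Pool.Agent.Helper10.FQ.Min

/-!
# Project FQ (MP_0f6f3f_an), layer LF: families of sets, abstract form

`Fam R I`: sets `Ab F δ ⊂ G` for `F : I`, `δ > 0`, increasing in `δ`, with an operation `op` (`Ab F δ' ∩ Ab F' δ' ⊂ Ab (op F F') δ`), covariant for the right translations (`shift`), a rank which decreases under `op`, such that every good `F` is
either null or of infinite orbit. `Fam.proj_zero`: `T φ` is orthogonal to the vectors carried by all the `Ab F δ`, `δ > 0`. `Fam.exists_delta`, `Fam.main`: the mass of `Ab F δ` tends to `0` with `δ`.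
-/

set_option autoImplicit false
set_option linter.unusedSectionVars false

open MeasureTheory Filter Topology
open scoped ENNReal ComplexConjugate

namespace Pool.Agent.Helper10.FQ

open Pool.Agent.Helper84 Pool.Agent.Helper84.GN Pool.Agent.Helper84.GN.S3 Pool.Agent.Helper84.GN.S3.X
open Pool.Agent.Helper84.NI Pool.Agent.Helper84.GVN Pool.Agent.Helper90.RK
open Pool.Agent.Helper96.RK hiding toReg
open Pool.Agent.Helper66.FR Pool.Agent.Helper84.FR Pool.Agent.Helper55.FR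
open Pool.Agent.Helper78.BM
open Pool.Agent.Helper43.LF (CocI)
open DV (iUX_comm iUX_mono iUX_inter iUX_symm norm_iUX_le)

/-- Families of sets. -/
structure Fam {G : Type} [Group G] (R : Reg G) (I : Type) where
  /-- the sets -/
  Ab : I → ℝ → Set G
  mono : ∀ (F : I) {δ δ' : ℝ}, δ ≤ δ' → Ab F δ ⊆ Ab F δ'
  /-- translates -/
  tr : G → I → I
  tr_mul : ∀ (k l : G) (F : I), tr (k * l) F = tr k (tr l F)
  tr_one : ∀ F : I, tr 1 F = F
  /-- the operation -/
  op : I → I → I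
  inter : ∀ (F F' : I) {δ : ℝ}, 0 < δ → ∃ δ' : ℝ, 0 < δ' ∧ Ab F δ' ∩ Ab F' δ' ⊆ Ab (op F F') δ
  shift : ∀ (k : G) (F : I) {δ : ℝ}, 0 < δ → ∃ δ' : ℝ, 0 < δ' ∧ ∀ n, ∀ᶠ γ in R.F n, γ * k ∈ Ab F δ' → γ ∈ Ab (tr k F) δ
  /-- the good elements -/
  good : I → Prop
  good_tr : ∀ (k : G) (F : I), good F → good (tr k F)
  good_op : ∀ F F' : I, good F → good F' → good (op F F')
  /-- the rank -/
  rk : I → ℕ
  rk_tr : ∀ (k : G) (F : I), rk (tr k F) = rk F
  rk_op : ∀ F F' : I, good F → good F' → F ≠ F' → rk F = rk F' → rk (op F F') < rk F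
  inf : ∀ F : I, good F → (∃ δ : ℝ, 0 < δ ∧ Ab F δ = ∅) ∨ (Set.range fun k => tr k F).Infinite

section Ab

variable {G : Type} [Group G] {R : Reg G} {I : Type} (D : Fam R I)

namespace Fam

theorem tr_inj (k : G) : Function.Injective (D.tr k) := by
  intro F F' h
  have h1 := congrArg (D.tr k⁻¹) h
  rwa [← D.tr_mul, ← D.tr_mul, inv_mul_cancel, D.tr_one, D.tr_one] at h1

variable {X : Type} [MeasurableSpace X] {μ : Measure X}

variable (μ) in
/-- The vectors carried by all the `Ab F δ`. -/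
noncomputable def NS (F : I) : Submodule ℂ (XUa μ R) where
  carrier := {x | ∀ δ : ℝ, 0 < δ → iUX R (D.Ab F δ) x = x}
  add_mem' := by
    intro x y hx hy δ hδ
    rw [map_add, hx δ hδ, hy δ hδ]
  zero_mem' := fun δ _ => map_zero _
  smul_mem' := by
    intro c x hx δ hδ
    rw [map_smul, hx δ hδ]

theorem isClosed_NS (F : I) : IsClosed (D.NS μ F : Set (XUa μ R)) := by
  have h : (D.NS μ F : Set (XUa μ R)) = ⋂ δ : {δ : ℝ // 0 < δ}, {x | iUX R (D.Ab F δ.1) x = x} := by
    ext x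
    simp only [Set.mem_iInter]
    exact ⟨fun h δ => h δ.1 δ.2, fun h δ hδ => h ⟨δ, hδ⟩⟩
  rw [h]
  exact isClosed_iInter fun δ => isClosed_eq (ContinuousLinearMap.continuous _) continuous_id

instance instComplNS (F : I) : CompleteSpace (D.NS μ F) := (D.isClosed_NS F).completeSpace_coe

variable (μ) in
/-- The projection on `NS F`. -/
noncomputable def Pn (F : I) : XUa μ R →L[ℂ] XUa μ R := (D.NS μ F).starProjection

theorem Pn_mem (F : I) (x : XUa μ R) : D.Pn μ F x ∈ D.NS μ F := Submodule.starProjection_apply_mem _ _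

theorem Pn_eq {F : I} {x : XUa μ R} (h : x ∈ D.NS μ F) : D.Pn μ F x = x := Submodule.starProjection_eq_self_iff.2 h

theorem Pn_symm (F : I) (x y : XUa μ R) : inner ℂ (D.Pn μ F x) y = inner ℂ x (D.Pn μ F y) :=
  Submodule.inner_starProjection_left_eq_right _ _ _

theorem norm_Pn_le (F : I) (x : XUa μ R) : ‖D.Pn μ F x‖ ≤ ‖x‖ := Submodule.norm_starProjection_apply_le _ _

theorem Pn_iUX (F : I) (A : Set G) (x : XUa μ R) : D.Pn μ F (iUX R A x) = iUX R A (D.Pn μ F x) :=
  proj_comm (V := D.NS μ F) (T := iUX R A) (T' := iUX R A) (iUX_symm A)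
    (fun y hy δ hδ => by rw [iUX_comm, hy δ hδ]) (fun y hy δ hδ => by rw [iUX_comm, hy δ hδ]) x

theorem Pn_comm (F F' : I) (x : XUa μ R) : D.Pn μ F (D.Pn μ F' x) = D.Pn μ F' (D.Pn μ F x) :=
  proj_comm (V := D.NS μ F) (T := D.Pn μ F') (T' := D.Pn μ F') (D.Pn_symm F')
    (fun y hy δ hδ => by rw [← Pn_iUX, hy δ hδ]) (fun y hy δ hδ => by rw [← Pn_iUX, hy δ hδ]) x

theorem NS_inter {F F' : I} {x : XUa μ R} (h : x ∈ D.NS μ F) (h' : x ∈ D.NS μ F') : x ∈ D.NS μ (D.op F F') := by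
  intro δ hδ
  obtain ⟨δ', hδ', h1⟩ := D.inter F F' hδ
  exact iUX_mono (B := D.Ab F δ' ∩ D.Ab F' δ') (fun n => Eventually.of_forall fun γ hγ => h1 hγ) (iUX_inter (h δ' hδ') (h' δ' hδ'))

/-- The product of two projections is orthogonal to a vector which does not charge the intersection. -/
theorem Pn_prod {F F' : I} {x : XUa μ R} (h : D.Pn μ (D.op F F') x = 0) : D.Pn μ F (D.Pn μ F' x) = 0 := by
  set y := D.Pn μ F (D.Pn μ F' x) with hy
  have h1 : y ∈ D.NS μ F := D.Pn_mem _ _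
  have h2 : y ∈ D.NS μ F' := by
    rw [hy, Pn_comm]
    exact D.Pn_mem _ _
  have h3 := D.NS_inter h1 h2
  have h4 : inner ℂ y y = (0 : ℂ) := by
    calc inner ℂ y y = inner ℂ y (D.Pn μ F (D.Pn μ F' x)) := by rw [← hy]
      _ = inner ℂ y x := by rw [← Pn_symm, D.Pn_eq h1, ← Pn_symm, D.Pn_eq h2]
      _ = inner ℂ (D.Pn μ (D.op F F') y) x := by rw [D.Pn_eq h3]
      _ = 0 := by rw [Pn_symm, h, inner_zero_right]
  exact inner_self_eq_zero.1 h4

/-- Translates. -/
theorem NS_XBU (k : G) {F : I} {x : XUa μ R} (h : x ∈ D.NS μ F) : XBU R k x ∈ D.NS μ (D.tr k F) := by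
  classical
  intro δ hδ
  obtain ⟨δ', hδ', h1⟩ := D.shift k F hδ
  have hb : ∀ A : Set G, ∀ γ, ‖(A.indicator fun _ => (1 : ℂ)) γ‖ ≤ 1 := by
    intro A γ
    unfold Set.indicator
    split_ifs <;> simp
  have h2 : iUX R {γ | γ * k ∈ D.Ab F δ'} (XBU R k x) = XBU R k x := by
    have h3 := h δ' hδ'
    rw [Mf_ind] at h3
    have h4 := Mf_XBU (μ := μ) (R := R) (hb (D.Ab F δ')) k x
    rw [h3] at h4
    rw [Mf_ind]
    exact h4.symm
  exact iUX_mono h1 h2

theorem Pn_XBU (k : G) (F : I) (x : XUa μ R) : D.Pn μ (D.tr k F) (XBU R k x) = XBU R k (D.Pn μ F x) := by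
  have hk : ∀ y : XUa μ R, XBU R k⁻¹ (XBU R k y) = y := by
    intro y
    have h := congrArg (fun A : XUa μ R ≃ₗᵢ[ℂ] XUa μ R => A y) ((XBU (μ := μ) R).map_mul k⁻¹ k)
    rw [inv_mul_cancel, map_one] at h
    exact h.symm
  have hk' : ∀ y : XUa μ R, XBU R k (XBU R k⁻¹ y) = y := by
    intro y
    have h := congrArg (fun A : XUa μ R ≃ₗᵢ[ℂ] XUa μ R => A y) ((XBU (μ := μ) R).map_mul k k⁻¹)
    rw [mul_inv_cancel, map_one] at h
    exact h.symm
  unfold Pn
  apply Submodule.eq_starProjection_of_mem_orthogonal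
  · exact D.NS_XBU k (D.Pn_mem F x)
  · rw [← map_sub, Submodule.mem_orthogonal]
    intro u hu
    have h1 : XBU R k⁻¹ u ∈ D.NS μ F := by
      have h2 := D.NS_XBU k⁻¹ hu
      rwa [← D.tr_mul, inv_mul_cancel, D.tr_one] at h2
    have h3 := (Submodule.mem_orthogonal _ _).1 (Submodule.sub_starProjection_mem_orthogonal (K := D.NS μ F) x) _ h1
    rw [← hk' u, LinearIsometryEquiv.inner_map_map]
    exact h3

end Fam

end Ab

section Main

namespace Fam

variable {G1 X G Λ : Type} [Group G1] [TopologicalSpace G1] [IsTopologicalGroup G1] [MeasurableSpace X] [MulAction G1 X]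
  [MeasurableConstSMul G1 X] [Group G] [Group Λ] [Countable Λ] {μ : Measure X} [SMulInvariantMeasure G1 X μ]
  [IsProbabilityMeasure μ] {a : Cocy G1 X Λ} {E : Emb Λ G} {R : Reg G} {b : ℕ → G1}
variable {I : Type} (D : Fam R I)

variable (μ a E b) in
/-- The operator `T* P T`. -/
noncomputable def YF (F : I) : XL μ (L2 G) →L[ℂ] XL μ (L2 G) :=
  (ContinuousLinearMap.adjoint (Tb μ a E R b)).comp ((D.Pn μ F).comp (Tb μ a E R b))

theorem YF_apply (F : I) (φ : XL μ (L2 G)) :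
    YF μ a E b D F φ = ContinuousLinearMap.adjoint (Tb μ a E R b) (D.Pn μ F (Tb μ a E R b φ)) := rfl

theorem Pn_pyU (F : I) {D' : Set X} (hD' : MeasurableSet D') (x : XUa μ R) :
    D.Pn μ F ((pyU μ b R).p D' x) = (pyU μ b R).p D' (D.Pn μ F x) := by
  have hc : ∀ (A : Set G) (y : XUa μ R), iUX R A ((pyU μ b R).p D' y) = (pyU μ b R).p D' (iUX R A y) := by
    intro A y
    rw [Mf_ind, Mf_ind]
    exact (hom_rst (xmU_hom b (mulop (A.indicator fun _ => (1 : ℂ)))) _ _ fun _ hx => mulop_memX R hx).y D' hD' y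
  exact proj_comm (V := D.NS μ F) (T := (pyU μ b R).p D') (T' := (pyU μ b R).p D') ((pyU μ b R).symm D' hD')
    (fun y hy δ hδ => by rw [hc, hy δ hδ]) (fun y hy δ hδ => by rw [hc, hy δ hδ]) x

theorem Pn_sSU (F : I) (c : ℕ → G1) (x : XUa μ R) : D.Pn μ F (sSU μ R c x) = sSU μ R c (D.Pn μ F x) := by
  have hc : ∀ (c : ℕ → G1) (A : Set G) (y : XUa μ R), iUX R A (sSU μ R c y) = sSU μ R c (iUX R A y) := by
    intro c A y
    rw [Mf_ind, Mf_ind, Mf_sSU]
  have hi : ∀ y : XUa μ R, sSU μ R c (sSU μ R (fun n => (c n)⁻¹) y) = y := fun y => Subtype.ext (sS_inv' c _)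
  exact proj_comm (V := D.NS μ F) (T := sSU μ R c) (T' := sSU μ R fun n => (c n)⁻¹)
    (fun x y => by
      rw [← inner_sSU c x, hi])
    (fun y hy δ hδ => by rw [hc, hy δ hδ]) (fun y hy δ hδ => by rw [hc, hy δ hδ]) x

theorem YF_xE (F : I) : ComX (YF μ a E b D F) := by
  intro D' hD' φ
  rw [YF_apply, YF_apply]
  exact adj_comm_sa (Tb μ a E R b) (M := D.Pn μ F) (u := xE μ (L2 G) D') (s := (pyU μ b R).p D')
    (xE_symm hD') ((pyU μ b R).symm D' hD') (Tb_xE hD') (fun x => Pn_pyU D F hD' x) φ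

theorem YF_V (h3 : Tendsto (fun g : G1 => μ {x | a.a g x ≠ 1}) (𝓝 1) (𝓝 0)) (F : I) {q : G1} (hq : q ∈ Ctr b)
    (φ : XL μ (L2 G)) : YF μ a E b D F (Vq μ a E q φ) = Vq μ a E q (YF μ a E b D F φ) := by
  rw [YF_apply, YF_apply]
  exact adj_comm (Tb μ a E R b) (M := D.Pn μ F) (M' := D.Pn μ F) (u := Vq μ a E q)
    (s := sSU μ R fun n => b n * q * (b n)⁻¹)
    (inner_Vq q) (fun y => ⟨Vq μ a E q⁻¹ y, Vq_inv' q y⟩) (inner_sSU _) (Tb_contr h3 hq)
    (fun x => Pn_sSU D F _ x) φ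

theorem YF_W (F : I) {k : G} (hk : D.tr k F = F) (φ : XL μ (L2 G)) :
    YF μ a E b D F (Wk μ k φ) = Wk μ k (YF μ a E b D F φ) := by
  rw [YF_apply, YF_apply]
  refine adj_comm (Tb μ a E R b) (M := D.Pn μ F) (M' := D.Pn μ F) (u := Wk μ k) (s := XBU R k)
    (inner_Wk k) (fun y => ⟨Wk μ k⁻¹ y, Wk_inv' k y⟩) (inner_XBU k) (Tb_W k) (fun x => ?_) φ
  have h := D.Pn_XBU k F x
  rwa [hk] at h

/-- The stabilizer of a subspace. -/
def stS (F : I) : Subgroup G where
  carrier := {k | D.tr k F = F}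
  mul_mem' := by
    intro k l hk hl
    change D.tr (k * l) F = F
    rw [D.tr_mul, show D.tr l F = F from hl, show D.tr k F = F from hk]
  one_mem' := D.tr_one F
  inv_mem' := by
    intro k hk
    refine D.tr_inj k ?_
    rw [← D.tr_mul, mul_inv_cancel, D.tr_one, show D.tr k F = F from hk]

variable [Countable G]

/-- The families do not charge the good elements. -/
theorem proj_zero (h3 : Tendsto (fun g : G1 => μ {x | a.a g x ≠ 1}) (𝓝 1) (𝓝 0)) (hK : Kcont G1 μ) (hU : MauU (Ctr b))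
    (hI : CocI μ a) (hF : FullE E) :
    ∀ (m : ℕ) (F : I), D.rk F < m → D.good F → ∀ φ : XL μ (L2 G), D.Pn μ F (Tb μ a E R b φ) = 0 := by
  intro m
  induction m with
  | zero => exact fun F hm => absurd hm (Nat.not_lt_zero _)
  | succ m ih =>
    intro F hm hg φ
    by_cases hm' : D.rk F < m
    · exact ih F hm' hg φ
    have hmF : D.rk F = m := by omega
    rcases D.inf F hg with ⟨δ, hδ, hnul⟩ | hinf
    · have h1 := D.Pn_mem (μ := μ) F (Tb μ a E R b φ) δ hδ
      rw [hnul] at h1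
      rw [← h1]
      rw [Mf_ind, Set.indicator_empty]
      have h2 := Mf_const (μ := μ) (R := R) 0 (D.Pn μ F (Tb μ a E R b φ))
      rw [zero_smul] at h2
      exact h2
    set H := stS D F with hH
    -- the classes
    have hcl : ∀ k l : G, D.tr k F = D.tr l F → (k : G ⧸ H) = (l : G ⧸ H) := by
      intro k l h
      rw [QuotientGroup.eq]
      change D.tr (k⁻¹ * l) F = F
      rw [D.tr_mul, ← h, ← D.tr_mul, inv_mul_cancel, D.tr_one]
    have hinfQ : Infinite (G ⧸ H) := by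
      by_contra hfin
      rw [not_infinite_iff_finite] at hfin
      refine hinf ?_
      have h4 : (Set.range fun k => D.tr k F) ⊆ Set.range fun i : G ⧸ H => D.tr (Quotient.out i) F := by
        rintro _ ⟨k, rfl⟩
        refine ⟨(k : G ⧸ H), ?_⟩
        obtain ⟨h, e⟩ := QuotientGroup.mk_out_eq_mul H k
        change D.tr (Quotient.out (k : G ⧸ H)) F = D.tr k F
        have e' : (Quotient.out (k : G ⧸ H) : G) = k * h := e
        rw [e', D.tr_mul, show D.tr (h : G) F = F from h.2]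
      exact (Set.finite_range _).subset h4
    have hne : ∀ i j : G ⧸ H, i ≠ j → D.tr (Quotient.out i) F ≠ D.tr (Quotient.out j) F := by
      intro i j hij h
      refine hij ?_
      have h4 := hcl _ _ h
      rw [QuotientGroup.out_eq', QuotientGroup.out_eq'] at h4
      exact h4
    have hlow : ∀ i j : G ⧸ H, i ≠ j → ∀ φ : XL μ (L2 G),
        D.Pn μ (D.op (D.tr (Quotient.out i) F) (D.tr (Quotient.out j) F)) (Tb μ a E R b φ) = 0 := by
      intro i j hij φ
      have h5 := D.rk_op _ _ (D.good_tr (Quotient.out i) F hg) (D.good_tr (Quotient.out j) F hg) (hne i j hij)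
        (by rw [D.rk_tr, D.rk_tr])
      rw [D.rk_tr] at h5
      exact ih _ (by omega) (D.good_op _ _ (D.good_tr _ F hg) (D.good_tr _ F hg)) φ
    have hY : ComW H (YF μ a E b D F) := ⟨YF_xE D F, fun k hk φ => YF_W D F hk φ⟩
    -- the columns
    have hcol : ∀ i : G ⧸ H, ‖YF μ a E b D F (cst μ (dl (rp H i)))‖ ≤
        ‖D.Pn μ (D.tr (Quotient.out i) F) (Tb μ a E R b (cst μ (dl 1)))‖ := by
      intro i
      have e1 : (cst μ (dl (rp H i) : L2 G) : XL μ (L2 G)) = Wk μ (Quotient.out i)⁻¹ (cst μ (dl 1)) := by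
        rw [Wk_dl, mul_one]
        rfl
      rw [YF_apply, e1, Tb_W]
      have h5 : ∀ y : XUa μ R, ‖ContinuousLinearMap.adjoint (Tb μ a E R b) y‖ ≤ ‖y‖ := by
        intro y
        have h6 : ‖ContinuousLinearMap.adjoint (Tb μ a E R b)‖ ≤ 1 := by
          rw [LinearIsometryEquiv.norm_map]
          exact ContinuousLinearMap.opNorm_le_bound _ zero_le_one fun φ => by
            rw [one_mul]
            exact norm_Tb_le φ
        exact (ContinuousLinearMap.le_of_opNorm_le _ h6 y).trans (by rw [one_mul])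
      refine (h5 _).trans (le_of_eq ?_)
      have h7 := D.Pn_XBU (μ := μ) (Quotient.out i) F (XBU R (Quotient.out i)⁻¹ (Tb μ a E R b (cst μ (dl 1))))
      have h8 : XBU R (Quotient.out i) (XBU R (Quotient.out i)⁻¹ (Tb μ a E R b (cst μ (dl 1)))) = Tb μ a E R b (cst μ (dl 1)) := by
        have h := congrArg (fun A : XUa μ R ≃ₗᵢ[ℂ] XUa μ R => A (Tb μ a E R b (cst μ (dl 1))))
          ((XBU (μ := μ) R).map_mul (Quotient.out i) (Quotient.out i)⁻¹)
        rw [mul_inv_cancel, map_one] at h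
        exact h.symm
      rw [h8] at h7
      rw [h7, LinearIsometryEquiv.norm_map]
    have htr : trN H (YF μ a E b D F) ≠ ∞ := by
      have h5 : trN H (YF μ a E b D F) ≤ ENNReal.ofReal (‖Tb μ a E R b (cst μ (dl 1) : XL μ (L2 G))‖ ^ 2) := by
        unfold trN
        rw [ENNReal.tsum_eq_iSup_sum]
        refine iSup_le fun s => ?_
        rw [← ENNReal.ofReal_sum_of_nonneg fun i _ => sq_nonneg _]
        refine ENNReal.ofReal_le_ofReal ?_
        refine (Finset.sum_le_sum fun i _ => pow_le_pow_left₀ (norm_nonneg _) (hcol i) 2).trans ?_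
        refine sum_proj s (fun i => D.Pn μ (D.tr (Quotient.out i) F) (Tb μ a E R b (cst μ (dl 1)))) _ (fun i _ => ?_) fun i _ j _ hij => ?_
        · rw [D.Pn_symm, D.Pn_eq (D.Pn_mem _ _)]
        · rw [D.Pn_symm, D.Pn_prod (hlow i j hij _), inner_zero_right]
      exact ne_top_of_le_ne_top ENNReal.ofReal_ne_top h5
    have hz := orbit_zero h3 hK hU hI hF hY htr fun u hu φ => YF_V D h3 F hu φ
    have h6 : inner ℂ (YF μ a E b D F φ) φ = (0 : ℂ) := by
      rw [hz]
      simp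
    rw [YF_apply, ContinuousLinearMap.adjoint_inner_left, ← D.Pn_eq (D.Pn_mem F (Tb μ a E R b φ)), D.Pn_symm] at h6
    exact inner_self_eq_zero.1 h6

/-- The projections on the `Ab F δ` decrease to the projection on `NS F`. -/
theorem exists_delta (F : I) {x : XUa μ R} (hx : D.Pn μ F x = 0) {ε : ℝ} (hε : 0 < ε) :
    ∃ δ : ℝ, 0 < δ ∧ ‖iUX R (D.Ab F δ) x‖ ≤ ε := by
  by_contra hcon
  push Not at hcon
  -- the decreasing sequence
  let u : ℕ → XUa μ R := fun m => iUX R (D.Ab F (1 / ((m : ℝ) + 1))) x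
  have hmono : ∀ m l : ℕ, m ≤ l → iUX R (D.Ab F (1 / ((m : ℝ) + 1))) (u l) = u l := by
    intro m l hml
    refine DV.iUX_mono (B := D.Ab F (1 / ((l : ℝ) + 1))) (fun n => Eventually.of_forall fun γ hγ => ?_) ?_
    · exact D.mono F (one_div_le_one_div_of_le (by positivity) (by exact_mod_cast Nat.add_le_add_right hml 1)) hγ
    · have h := DV.iUX_inter (μ := μ) (R := R) (A := D.Ab F (1 / ((l : ℝ) + 1))) (B := D.Ab F (1 / ((l : ℝ) + 1))) (x := u l)
      have hb : ∀ γ, ‖((D.Ab F (1 / ((l : ℝ) + 1))).indicator fun _ => (1 : ℂ)) γ‖ ≤ 1 := by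
        classical
        intro γ
        unfold Set.indicator
        split_ifs <;> simp
      change iUX R _ (iUX R _ x) = iUX R _ x
      rw [Mf_ind, Mf_ind, Mf_mul hb hb]
      congr 1
      congr 1
      funext γ
      by_cases h1 : γ ∈ D.Ab F (1 / ((l : ℝ) + 1))
      · rw [Set.indicator_of_mem h1, mul_one]
      · rw [Set.indicator_of_notMem h1, mul_zero]
  have hin : ∀ m l : ℕ, m ≤ l → inner ℂ (u m) (u l) = inner ℂ (u l) (u l) := by
    intro m l hml
    have h1 : inner ℂ (u m) (u l) = inner ℂ x (u l) := by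
      change inner ℂ (iUX R (D.Ab F (1 / ((m : ℝ) + 1))) x) (u l) = _
      rw [DV.iUX_symm, hmono m l hml]
    have h2 : inner ℂ (u l) (u l) = inner ℂ x (u l) := by
      change inner ℂ (iUX R (D.Ab F (1 / ((l : ℝ) + 1))) x) (u l) = _
      rw [DV.iUX_symm, hmono l l le_rfl]
    rw [h1, h2]
  have hdist : ∀ m l : ℕ, m ≤ l → ‖u m - u l‖ ^ 2 = ‖u m‖ ^ 2 - ‖u l‖ ^ 2 := by
    intro m l hml
    rw [@norm_sub_sq ℂ, hin m l hml, inner_self_eq_norm_sq]
    ring
  have hanti : Antitone fun m => ‖u m‖ ^ 2 := by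
    intro m l hml
    have h := hdist m l hml
    have h' := sq_nonneg ‖u m - u l‖
    change ‖u l‖ ^ 2 ≤ ‖u m‖ ^ 2
    linarith
  obtain ⟨c, hc⟩ : ∃ c, Tendsto (fun m => ‖u m‖ ^ 2) atTop (𝓝 c) :=
    ⟨_, tendsto_atTop_ciInf hanti ⟨0, by rintro _ ⟨m, rfl⟩; exact sq_nonneg _⟩⟩
  have hcau : CauchySeq u := by
    rw [Metric.cauchySeq_iff']
    intro η hη
    have h1 := (Metric.cauchySeq_iff'.1 hc.cauchySeq) (η ^ 2) (by positivity)
    obtain ⟨N, hN⟩ := h1
    refine ⟨N, fun l hl => ?_⟩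
    have h2 := hN l hl
    rw [Real.dist_eq, abs_sub_comm] at h2
    have h3 := (le_abs_self _).trans_lt h2
    rw [← hdist N l hl] at h3
    rw [dist_comm, dist_eq_norm]
    exact lt_of_pow_lt_pow_left₀ 2 hη.le h3
  obtain ⟨y, hy⟩ := cauchySeq_tendsto_of_complete hcau
  have hyN : y ∈ D.NS μ F := by
    intro δ hδ
    obtain ⟨m, hm⟩ := exists_nat_one_div_lt hδ
    have h1 : ∀ l ≥ m, iUX R (D.Ab F δ) (u l) = u l := by
      intro l hl
      refine DV.iUX_mono (B := D.Ab F (1 / ((m : ℝ) + 1))) (fun n => Eventually.of_forall fun γ hγ => D.mono F hm.le hγ) (hmono m l hl)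
    have h2 := ((iUX (μ := μ) R (D.Ab F δ)).continuous.tendsto y).comp hy
    refine tendsto_nhds_unique h2 (hy.congr' ?_)
    filter_upwards [eventually_ge_atTop m] with l hl
    exact (h1 l hl).symm
  have hxy : inner ℂ x y = (0 : ℂ) := by
    rw [← D.Pn_eq hyN, ← D.Pn_symm, hx, inner_zero_left]
  have h7 : Tendsto (fun m => inner ℂ x (u m)) atTop (𝓝 (inner ℂ x y)) := tendsto_const_nhds.inner hy
  have h8 : ∀ m, inner ℂ x (u m) = ((‖u m‖ ^ 2 : ℝ) : ℂ) := by
    intro m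
    have h9 : inner ℂ x (u m) = inner ℂ (u m) (u m) := by
      have h2 : inner ℂ (u m) (u m) = inner ℂ x (u m) := by
        change inner ℂ (iUX R (D.Ab F (1 / ((m : ℝ) + 1))) x) (u m) = _
        rw [DV.iUX_symm, hmono m m le_rfl]
      exact h2.symm
    rw [h9, inner_self_eq_norm_sq_to_K]
    norm_cast
  rw [hxy] at h7
  have h10 : Tendsto (fun m => ‖u m‖ ^ 2) atTop (𝓝 0) := by
    have h11 := (Complex.continuous_re.tendsto _).comp h7
    rw [Complex.zero_re] at h11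
    refine h11.congr fun m => ?_
    rw [Function.comp_apply, h8, Complex.ofReal_re]
  have h12 := (h10.eventually (gt_mem_nhds (show (0 : ℝ) < ε ^ 2 by positivity))).exists
  obtain ⟨m, hm⟩ := h12
  have h13 := hcon (1 / ((m : ℝ) + 1)) (by positivity)
  have h14 : ε ^ 2 < ‖u m‖ ^ 2 := pow_lt_pow_left₀ h13 hε.le two_ne_zero
  linarith

end Fam

end Main

end Pool.Agent.Helper10.FQ
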