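import Pool.Agent.Helper10.FQ.Glob
import Pool.Agent.Helper84.GD.Defs

/-!
# Project FQ (MP_0f6f3f_an), layer LF: group data

`rhC D l`: the representation `D.rho l` on the Euclidean space. `norm_rhC`: `‖rhC D l g‖ = exp (tw l g)`. `AbV_rhC`, `rhC_AbV`: comparison of `AbV` with the right datum `xv`; `AbL_rhC`, `rhC_AbL`: with the left datum `yv`.
`hirr_SI`: the subspaces have infinite orbits.
-/

set_option autoImplicit false
set_option linter.unusedSectionVars false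

open Filter Topology Matrix

namespace Pool.Agent.Helper10.FQ

open Pool.Agent.Helper84.GDL

section Lin

variable {n : ℕ}

theorem clm_norm_sq (A : Matrix (Fin n) (Fin n) ℝ) (v : EuclideanSpace ℝ (Fin n)) :
    ‖toEuclideanCLM (𝕜 := ℝ) A v‖ ^ 2 = ∑ i, ((A *ᵥ v.ofLp) i) ^ 2 := by
  rw [EuclideanSpace.norm_sq_eq]
  refine Finset.sum_congr rfl fun i _ => ?_
  rw [Real.norm_eq_abs, sq_abs]
  rfl

theorem clm_orth {A : Matrix (Fin n) (Fin n) ℝ} (hA : Aᵀ * A = 1) (v : EuclideanSpace ℝ (Fin n)) :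
    ‖toEuclideanCLM (𝕜 := ℝ) A v‖ = ‖v‖ := by
  have h1 : ‖toEuclideanCLM (𝕜 := ℝ) A v‖ ^ 2 = ‖v‖ ^ 2 := by
    rw [clm_norm_sq, EuclideanSpace.norm_sq_eq]
    have e : ∑ i, ((A *ᵥ v.ofLp) i) ^ 2 = (A *ᵥ v.ofLp) ⬝ᵥ (A *ᵥ v.ofLp) := by
      unfold dotProduct
      exact Finset.sum_congr rfl fun i _ => sq _
    rw [e, Matrix.dotProduct_mulVec, Matrix.vecMul_mulVec, hA, Matrix.vecMul_one]
    unfold dotProduct
    refine Finset.sum_congr rfl fun i _ => ?_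
    rw [Real.norm_eq_abs, sq_abs, sq]
  exact (sq_eq_sq₀ (norm_nonneg _) (norm_nonneg _)).1 h1

theorem clm_mul (A B : Matrix (Fin n) (Fin n) ℝ) (v : EuclideanSpace ℝ (Fin n)) :
    toEuclideanCLM (𝕜 := ℝ) (A * B) v = toEuclideanCLM (𝕜 := ℝ) A (toEuclideanCLM (𝕜 := ℝ) B v) := by
  rw [map_mul]
  rfl

theorem clm_adj (A : Matrix (Fin n) (Fin n) ℝ) :
    ContinuousLinearMap.adjoint (toEuclideanCLM (𝕜 := ℝ) A) = toEuclideanCLM (𝕜 := ℝ) Aᵀ := by
  have h := map_star (toEuclideanCLM (n := Fin n) (𝕜 := ℝ)) A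
  rw [Matrix.star_eq_conjTranspose, Matrix.conjTranspose_eq_transpose_of_trivial] at h
  exact h.symm

variable {w : Fin (n + 1) → ℝ}

theorem diag_low (u : EuclideanSpace ℝ (Fin (n + 1))) :
    Real.exp (w 0) * |u 0| ≤ ‖toEuclideanCLM (𝕜 := ℝ) (diagonal fun i => Real.exp (w i)) u‖ := by
  refine abs_le_of_sq_le_sq' ?_ (norm_nonneg _) |>.2
  rw [clm_norm_sq]
  have h := Finset.single_le_sum (f := fun i => (((diagonal fun i => Real.exp (w i)) *ᵥ u.ofLp) i) ^ 2) (fun i _ => sq_nonneg _) (Finset.mem_univ (0 : Fin (n + 1)))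
  refine le_trans (le_of_eq ?_) h
  rw [mulVec_diagonal, mul_pow, mul_pow, sq_abs]

theorem diag_up {m : ℝ} (hm : ∀ i, i ≠ 0 → w i ≤ w 0 - m) (u : EuclideanSpace ℝ (Fin (n + 1))) :
    ‖toEuclideanCLM (𝕜 := ℝ) (diagonal fun i => Real.exp (w i)) u‖ ≤ Real.exp (w 0) * (|u 0| + Real.exp (-m) * ‖u‖) := by
  refine abs_le_of_sq_le_sq' ?_ (by positivity) |>.2
  rw [clm_norm_sq, Fin.sum_univ_succ]
  have h1 : ∀ i : Fin n, (((diagonal fun i => Real.exp (w i)) *ᵥ u.ofLp) i.succ) ^ 2 ≤ Real.exp (w 0) ^ 2 * Real.exp (-m) ^ 2 * (u i.succ) ^ 2 := by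
    intro i
    rw [mulVec_diagonal, mul_pow, ← mul_pow (Real.exp (w 0)), ← Real.exp_add]
    refine mul_le_mul_of_nonneg_right ?_ (sq_nonneg _)
    exact pow_le_pow_left₀ (Real.exp_pos _).le (Real.exp_le_exp.2 (by linarith [hm i.succ (Fin.succ_ne_zero i)])) 2
  have h2 : ∑ i : Fin n, (((diagonal fun i => Real.exp (w i)) *ᵥ u.ofLp) i.succ) ^ 2 ≤ Real.exp (w 0) ^ 2 * Real.exp (-m) ^ 2 * ‖u‖ ^ 2 := by
    refine (Finset.sum_le_sum fun i _ => h1 i).trans ?_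
    rw [← Finset.mul_sum]
    refine mul_le_mul_of_nonneg_left ?_ (by positivity)
    rw [EuclideanSpace.norm_sq_eq, Fin.sum_univ_succ]
    have h3 : ∑ i : Fin n, (u i.succ) ^ 2 = ∑ i : Fin n, ‖u i.succ‖ ^ 2 := Finset.sum_congr rfl fun i _ => by
      rw [Real.norm_eq_abs, sq_abs]
    rw [h3]
    linarith [sq_nonneg ‖u 0‖]
  have h4 : (((diagonal fun i => Real.exp (w i)) *ᵥ u.ofLp) 0) ^ 2 = Real.exp (w 0) ^ 2 * |u 0| ^ 2 := by
    rw [mulVec_diagonal, mul_pow, sq_abs]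
  rw [h4]
  have h5 : (Real.exp (w 0) * (|u 0| + Real.exp (-m) * ‖u‖)) ^ 2 =
      Real.exp (w 0) ^ 2 * |u 0| ^ 2 + Real.exp (w 0) ^ 2 * Real.exp (-m) ^ 2 * ‖u‖ ^ 2 + 2 * (Real.exp (w 0) ^ 2 * |u 0| * Real.exp (-m) * ‖u‖) := by
    ring
  rw [h5]
  have h6 : 0 ≤ Real.exp (w 0) ^ 2 * |u 0| * Real.exp (-m) * ‖u‖ := by positivity
  linarith

theorem diag_up' (hm : ∀ i, w i ≤ w 0) (u : EuclideanSpace ℝ (Fin (n + 1))) :
    ‖toEuclideanCLM (𝕜 := ℝ) (diagonal fun i => Real.exp (w i)) u‖ ≤ Real.exp (w 0) * ‖u‖ := by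
  refine abs_le_of_sq_le_sq' ?_ (by positivity) |>.2
  rw [clm_norm_sq, mul_pow, EuclideanSpace.norm_sq_eq, Finset.mul_sum]
  refine Finset.sum_le_sum fun i _ => ?_
  rw [mulVec_diagonal, mul_pow, Real.norm_eq_abs, sq_abs]
  exact mul_le_mul_of_nonneg_right (pow_le_pow_left₀ (Real.exp_pos _).le (Real.exp_le_exp.2 (hm i)) 2) (sq_nonneg _)

end Lin

section Gd

variable {𝔾 : Type} [Group 𝔾] [TopologicalSpace 𝔾] {ι : Type} [Fintype ι] [DecidableEq ι] (D : GD 𝔾 ι)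

/-- The space of the representation. -/
abbrev VE (l : ι) : Type := EuclideanSpace ℝ (Fin (D.d l + 1))

/-- The representation on the Euclidean space. -/
noncomputable def rhC (l : ι) : 𝔾 →* (VE D l →L[ℝ] VE D l) where
  toFun g := toEuclideanCLM (𝕜 := ℝ) (D.rho l g)
  map_one' := by rw [map_one, map_one]
  map_mul' g h := by rw [map_mul, map_mul]

theorem rhC_apply (l : ι) (g : 𝔾) : rhC D l g = toEuclideanCLM (𝕜 := ℝ) (D.rho l g) := rfl

/-- The weights. -/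
noncomputable def wt (l : ι) (g : 𝔾) (i : Fin (D.d l + 1)) : ℝ := ∑ j, (D.top l j - D.n l i j) * D.mu g j

theorem wt_zero (l : ι) (g : 𝔾) : wt D l g 0 = D.tw l g := by
  unfold wt GD.tw
  refine Finset.sum_congr rfl fun j _ => ?_
  rw [D.n_zero, Nat.cast_zero, sub_zero]

theorem wt_le (l : ι) (g : 𝔾) (i : Fin (D.d l + 1)) : wt D l g i ≤ wt D l g 0 := by
  rw [wt_zero]
  unfold wt GD.tw
  refine Finset.sum_le_sum fun j _ => mul_le_mul_of_nonneg_right ?_ (D.mu_nonneg g j)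
  linarith [(Nat.cast_nonneg (D.n l i j) : (0 : ℝ) ≤ _)]

theorem wt_le' (l : ι) (g : 𝔾) (i : Fin (D.d l + 1)) (hi : i ≠ 0) : wt D l g i ≤ wt D l g 0 - D.mu g l := by
  rw [wt_zero]
  unfold wt GD.tw
  have h1 : ∑ j, (D.top l j - D.n l i j) * D.mu g j = ∑ j, D.top l j * D.mu g j - ∑ j, (D.n l i j : ℝ) * D.mu g j := by
    rw [← Finset.sum_sub_distrib]
    exact Finset.sum_congr rfl fun j _ => sub_mul _ _ _
  rw [h1]
  have h2 : (D.n l i l : ℝ) * D.mu g l ≤ ∑ j, (D.n l i j : ℝ) * D.mu g j :=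
    Finset.single_le_sum (f := fun j => (D.n l i j : ℝ) * D.mu g j) (fun j _ => mul_nonneg (Nat.cast_nonneg _) (D.mu_nonneg g j)) (Finset.mem_univ l)
  have h3 : (1 : ℝ) ≤ D.n l i l := by exact_mod_cast D.n_pos l i hi
  have h4 : 1 * D.mu g l ≤ (D.n l i l : ℝ) * D.mu g l := mul_le_mul_of_nonneg_right h3 (D.mu_nonneg g l)
  linarith

theorem orthT {l : ι} {k : 𝔾} (hk : k ∈ D.K) : (D.rho l k)ᵀᵀ * (D.rho l k)ᵀ = 1 := by
  rw [transpose_transpose]
  exact mul_eq_one_comm.1 (D.orth l k hk)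

theorem rho_kak (l : ι) (g : 𝔾) : D.rho l g = D.rho l (D.kL g) * (diagonal fun i => Real.exp (wt D l g i)) * D.rho l (D.kR g) := by
  conv_lhs => rw [D.kak g]
  rw [map_mul, map_mul, D.rho_ea]
  rfl

theorem rhC_norm_eq (l : ι) (g : 𝔾) (v : VE D l) :
    ‖rhC D l g v‖ = ‖toEuclideanCLM (𝕜 := ℝ) (diagonal fun i => Real.exp (wt D l g i)) (toEuclideanCLM (𝕜 := ℝ) (D.rho l (D.kR g)) v)‖ := by
  rw [rhC_apply, rho_kak, clm_mul, clm_mul, clm_orth (D.orth l _ (D.kL_mem g))]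

theorem rhC_adj_eq (l : ι) (g : 𝔾) (v : VE D l) :
    ‖ContinuousLinearMap.adjoint (rhC D l g) v‖ =
      ‖toEuclideanCLM (𝕜 := ℝ) (diagonal fun i => Real.exp (wt D l g i)) (toEuclideanCLM (𝕜 := ℝ) (D.rho l (D.kL g))ᵀ v)‖ := by
  rw [rhC_apply, clm_adj, rho_kak, transpose_mul, transpose_mul, diagonal_transpose, clm_mul, clm_mul, clm_orth (orthT D (D.kR_mem g))]

/-- The right datum. -/
noncomputable def xE' (l : ι) (g : 𝔾) : VE D l := WithLp.toLp 2 (D.xv l g)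

/-- The left datum. -/
noncomputable def yE' (l : ι) (g : 𝔾) : VE D l := WithLp.toLp 2 (D.yv l g)

theorem coord_x (l : ι) (g : 𝔾) (v : VE D l) : (toEuclideanCLM (𝕜 := ℝ) (D.rho l (D.kR g)) v) 0 = inner ℝ (xE' D l g) v := by
  change (D.rho l (D.kR g) *ᵥ v.ofLp) 0 = _
  rw [EuclideanSpace.inner_eq_star_dotProduct]
  unfold mulVec xE' GD.xv
  simp [dotProduct, mul_comm]

theorem coord_y (l : ι) (g : 𝔾) (v : VE D l) : (toEuclideanCLM (𝕜 := ℝ) (D.rho l (D.kL g))ᵀ v) 0 = inner ℝ (yE' D l g) v := by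
  change ((D.rho l (D.kL g))ᵀ *ᵥ v.ofLp) 0 = _
  rw [EuclideanSpace.inner_eq_star_dotProduct]
  unfold mulVec yE' GD.yv
  simp [dotProduct, mul_comm]

theorem rhC_low (l : ι) (g : 𝔾) (v : VE D l) : Real.exp (D.tw l g) * |inner ℝ (xE' D l g) v| ≤ ‖rhC D l g v‖ := by
  rw [rhC_norm_eq, ← coord_x, ← wt_zero]
  exact diag_low _

theorem rhC_up (l : ι) (g : 𝔾) (v : VE D l) :
    ‖rhC D l g v‖ ≤ Real.exp (D.tw l g) * (|inner ℝ (xE' D l g) v| + Real.exp (-D.mu g l) * ‖v‖) := by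
  rw [rhC_norm_eq, ← coord_x, ← wt_zero]
  have h := diag_up (w := wt D l g) (m := D.mu g l) (wt_le' D l g) (toEuclideanCLM (𝕜 := ℝ) (D.rho l (D.kR g)) v)
  rwa [clm_orth (D.orth l _ (D.kR_mem g))] at h

theorem rhCadj_low (l : ι) (g : 𝔾) (v : VE D l) : Real.exp (D.tw l g) * |inner ℝ (yE' D l g) v| ≤ ‖ContinuousLinearMap.adjoint (rhC D l g) v‖ := by
  rw [rhC_adj_eq, ← coord_y, ← wt_zero]
  exact diag_low _

theorem rhCadj_up (l : ι) (g : 𝔾) (v : VE D l) :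
    ‖ContinuousLinearMap.adjoint (rhC D l g) v‖ ≤ Real.exp (D.tw l g) * (|inner ℝ (yE' D l g) v| + Real.exp (-D.mu g l) * ‖v‖) := by
  rw [rhC_adj_eq, ← coord_y, ← wt_zero]
  have h := diag_up (w := wt D l g) (m := D.mu g l) (wt_le' D l g) (toEuclideanCLM (𝕜 := ℝ) (D.rho l (D.kL g))ᵀ v)
  rwa [clm_orth (orthT D (D.kL_mem g))] at h

theorem norm_xE' (l : ι) (g : 𝔾) : ‖xE' D l g‖ = 1 := by
  have h := orthT D (l := l) (D.kR_mem g)
  rw [transpose_transpose] at h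
  have h1 := congrFun (congrFun h 0) 0
  rw [mul_apply, one_apply_eq] at h1
  have h2 : ‖xE' D l g‖ ^ 2 = 1 := by
    rw [EuclideanSpace.norm_sq_eq, ← h1]
    refine Finset.sum_congr rfl fun i _ => ?_
    rw [Real.norm_eq_abs, sq_abs, transpose_apply, ← sq]
    rfl
  exact (sq_eq_sq₀ (norm_nonneg _) zero_le_one).1 (by rw [h2, one_pow])

/-- The norm. -/
theorem norm_rhC (l : ι) (g : 𝔾) : ‖rhC D l g‖ = Real.exp (D.tw l g) := by
  refine le_antisymm ?_ ?_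
  · refine ContinuousLinearMap.opNorm_le_bound _ (Real.exp_pos _).le fun v => ?_
    rw [rhC_norm_eq, ← wt_zero]
    have h := diag_up' (w := wt D l g) (wt_le D l g) (toEuclideanCLM (𝕜 := ℝ) (D.rho l (D.kR g)) v)
    rwa [clm_orth (D.orth l _ (D.kR_mem g))] at h
  · have h1 := rhC_low D l g (xE' D l g)
    rw [real_inner_self_eq_norm_sq, norm_xE', one_pow, abs_one, mul_one] at h1
    have h2 := (rhC D l g).le_opNorm (xE' D l g)
    rw [norm_xE', mul_one] at h2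
    exact h1.trans h2

/-- The right data close to a hyperplane. -/
def XS (l : ι) (e : VE D l) (δ L : ℝ) : Set 𝔾 := {γ | L ≤ D.mu γ l ∧ |inner ℝ (xE' D l γ) e| < δ}

/-- The left data close to a hyperplane. -/
def YS (l : ι) (e : VE D l) (δ L : ℝ) : Set 𝔾 := {γ | L ≤ D.mu γ l ∧ |inner ℝ (yE' D l γ) e| < δ}

theorem exp_small {δ : ℝ} (hδ : 0 < δ) : ∃ L : ℝ, ∀ m, L ≤ m → Real.exp (-m) ≤ δ := by
  refine ⟨-Real.log δ, fun m hm => ?_⟩
  rw [← Real.exp_log hδ]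
  exact Real.exp_le_exp.2 (by linarith)

theorem XS_sub (l : ι) {δ : ℝ} (hδ : 0 < δ) : ∃ L : ℝ, ∀ (g : 𝔾) (e : VE D l), ‖e‖ = 1 → L ≤ D.mu g l →
    |inner ℝ (xE' D l g) e| < δ / 2 → ‖rhC D l g e‖ ≤ δ * ‖rhC D l g‖ := by
  obtain ⟨L, hL⟩ := exp_small (half_pos hδ)
  refine ⟨L, fun g e he h1 h2 => ?_⟩
  rw [norm_rhC]
  refine (rhC_up D l g e).trans ?_
  rw [he, mul_one, mul_comm δ]
  exact mul_le_mul_of_nonneg_left (by linarith [hL _ h1]) (Real.exp_pos _).le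

theorem YS_sub (l : ι) {δ : ℝ} (hδ : 0 < δ) : ∃ L : ℝ, ∀ (g : 𝔾) (e : VE D l), ‖e‖ = 1 → L ≤ D.mu g l →
    |inner ℝ (yE' D l g) e| < δ / 2 → ‖ContinuousLinearMap.adjoint (rhC D l g) e‖ ≤ δ * ‖rhC D l g‖ := by
  obtain ⟨L, hL⟩ := exp_small (half_pos hδ)
  refine ⟨L, fun g e he h1 h2 => ?_⟩
  rw [norm_rhC]
  refine (rhCadj_up D l g e).trans ?_
  rw [he, mul_one, mul_comm δ]
  exact mul_le_mul_of_nonneg_left (by linarith [hL _ h1]) (Real.exp_pos _).le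

end Gd

section Irr

variable {𝔾 : Type} [Group 𝔾] [TopologicalSpace 𝔾] {ι : Type} [Fintype ι] [DecidableEq ι] {D : GD 𝔾 ι} {Γ : Subgroup 𝔾}

variable (D Γ) in
/-- The representation of the subgroup. -/
noncomputable def rhG (l : ι) : Γ →* (VE D l →L[ℝ] VE D l) := (rhC D l).comp Γ.subtype

theorem rhG_apply (l : ι) (γ : Γ) : rhG D Γ l γ = rhC D l (γ : 𝔾) := rfl

/-- Subspaces have infinite orbits. -/
theorem hirr_SI (hSI : SI D Γ) (l : ι) (F : Submodule ℝ (VE D l)) (h1 : F ≠ ⊥) (h2 : F ≠ ⊤) :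
    (Set.range fun k => trS (rhG D Γ l) k F).Infinite := by
  intro hfin
  -- the stabilizer
  let H : Subgroup Γ :=
    { carrier := {k | trS (rhG D Γ l) k F = F}
      mul_mem' := by
        intro k k' hk hk'
        change trS (rhG D Γ l) (k * k') F = F
        rw [trS_mul, show trS (rhG D Γ l) k' F = F from hk', show trS (rhG D Γ l) k F = F from hk]
      one_mem' := trS_one _ F
      inv_mem' := by
        intro k hk
        change trS (rhG D Γ l) k⁻¹ F = F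
        refine trS_inj (rhG D Γ l) k ?_
        rw [← trS_mul, mul_inv_cancel, trS_one, show trS (rhG D Γ l) k F = F from hk] }
  have hHf : Finite (Γ ⧸ H) := by
    have : Finite ↥(Set.range fun k => trS (rhG D Γ l) k F) := hfin
    let f : Γ ⧸ H → ↥(Set.range fun k => trS (rhG D Γ l) k F) := fun i => ⟨trS (rhG D Γ l) (Quotient.out i) F, ⟨_, rfl⟩⟩
    refine Finite.of_injective f fun i j hij => ?_
    have h3 : trS (rhG D Γ l) (Quotient.out i) F = trS (rhG D Γ l) (Quotient.out j) F := congrArg Subtype.val hij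
    have h4 : ((Quotient.out i : Γ) : Γ ⧸ H) = ((Quotient.out j : Γ) : Γ ⧸ H) := by
      rw [QuotientGroup.eq]
      change trS (rhG D Γ l) ((Quotient.out i)⁻¹ * Quotient.out j) F = F
      rw [trS_mul, ← h3, ← trS_mul, inv_mul_cancel, trS_one]
    rwa [QuotientGroup.out_eq', QuotientGroup.out_eq'] at h4
  have hHi : H.FiniteIndex := Subgroup.finiteIndex_of_finite_quotient
  -- the subspace of functions
  let W : Submodule ℝ (Fin (D.d l + 1) → ℝ) := F.map (WithLp.linearEquiv 2 ℝ (Fin (D.d l + 1) → ℝ)).toLinearMap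
  have hW := hSI l (H.map Γ.subtype) (Subgroup.map_subtype_le H) (by
    have e : (H.map Γ.subtype).subgroupOf Γ = H := by
      ext k
      rw [Subgroup.mem_subgroupOf, Subgroup.mem_map]
      constructor
      · rintro ⟨k', hk', e⟩
        rwa [← show k' = k from Subtype.ext e]
      · exact fun hk => ⟨k, hk, rfl⟩
    rw [e]
    exact hHi) W (by
    rintro _ ⟨k, hk, rfl⟩ _ ⟨v, hv, rfl⟩
    refine ⟨rhG D Γ l k v, ?_, rfl⟩
    have h3 : trS (rhG D Γ l) k F = F := hk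
    rw [← h3]
    exact ⟨v, hv, rfl⟩)
  rcases hW with h3 | h3
  · exact h1 ((Submodule.map_eq_bot_iff (e := WithLp.linearEquiv 2 ℝ (Fin (D.d l + 1) → ℝ))).1 h3)
  · refine h2 ?_
    rw [eq_top_iff]
    intro v _
    have h4 : (WithLp.linearEquiv 2 ℝ (Fin (D.d l + 1) → ℝ)) v ∈ W := by
      rw [h3]
      trivial
    obtain ⟨v', hv', e⟩ := h4
    rwa [← (WithLp.linearEquiv 2 ℝ (Fin (D.d l + 1) → ℝ)).injective e]

end Irr

end Pool.Agent.Helper10.FQ
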