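import Pool.Agent.Helper10.FQ.GdA
import Pool.Agent.Helper78.FQ.Shape
import Pool.Agent.Helper20.FQ.Lf

/-!
# Project FQ (MP_0f6f3f_an), layer LF: final forms for group data

`ChM D1`: the Mautner property for the sequences of the closed chamber of the source group. `lf_g`, `lf_gL`: for ALL `g ∈ G₁`, uniformly: the mass of `AbV (rhG D Γ l) v δ` (resp. `AbL`) for `V_g 1` is at most `ε`. `lf_x`, `lf_y`: the same
for the right data `xE'` and the left data `yE'` near a hyperplane, for large gap `l`. `LFR_g`, `LFL_g`: the form of `Helper20/FQ/Lf.lean`, any family and filter. `lf_reg`, `lf_regx`: form for the limit spaces over a region.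
-/

set_option autoImplicit false
set_option linter.unusedSectionVars false

open MeasureTheory Filter Topology Matrix

namespace Pool.Agent.Helper10.FQ

open Pool.Agent.Helper84 Pool.Agent.Helper84.GN Pool.Agent.Helper84.GN.S3 Pool.Agent.Helper84.GN.S3.X
open Pool.Agent.Helper84.NI Pool.Agent.Helper84.GVN Pool.Agent.Helper90.RK
open Pool.Agent.Helper96.RK hiding toReg
open Pool.Agent.Helper66.FR Pool.Agent.Helper84.FR Pool.Agent.Helper55.FR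
open Pool.Agent.Helper78.BM
open Pool.Agent.Helper43.LF (CocI)
open Pool.Agent.Helper9.FQ (mass mass_mono)
open Pool.Agent.Helper84.GDL (GD SI)

section Pow

variable {G1 : Type} [Group G1] [TopologicalSpace G1]

theorem MauU.mono {U U' : Set G1} (h : MauU U) (hs : U ⊆ U') : MauU U' := fun K _ _ σ ξ hξ hf => h K σ ξ hξ fun u hu => hf u (hs hu)

end Pow

section Reg

variable {G1 X G Λ : Type} [Group G1] [TopologicalSpace G1] [IsTopologicalGroup G1] [MeasurableSpace X] [MulAction G1 X]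
  [MeasurableConstSMul G1 X] [Group G] [Group Λ] [Countable Λ] {μ : Measure X} [SMulInvariantMeasure G1 X μ]
  [IsProbabilityMeasure μ] {a : Cocy G1 X Λ} {E : Emb Λ G} {b : ℕ → G1} {R : Reg G}

/-- The mass over a region. -/
theorem reg_le {A A' : Set G} (h : ∀ n, ∀ᶠ γ in R.F n, γ ∈ A → γ ∈ A') (φ : XL μ (L2 G)) :
    ‖iUX R A (Tb μ a E R b φ)‖ ≤ ‖iUX (RT G) A' (Tb μ a E (RT G) b φ)‖ := by
  classical
  have hb : ∀ A : Set G, ∀ γ, ‖(A.indicator fun _ => (1 : ℂ)) γ‖ ≤ 1 := by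
    intro A γ
    unfold Set.indicator
    split_ifs <;> simp
  have h1 : iUX R A (Tb μ a E R b φ) = iUX R A (iUX R A' (Tb μ a E R b φ)) := by
    rw [Mf_ind, Mf_ind, Mf_ind, Mf_mul (hb A) (hb A')]
    refine Mf_congr (C := 1) (D := 1) (hb A) (fun γ => ?_) (fun n => ?_) _
    · rw [norm_mul]
      exact mul_le_one₀ (hb A γ) (norm_nonneg _) (hb A' γ)
    · refine tendsto_const_nhds.congr' ?_
      filter_upwards [h n] with γ hγ
      by_cases hA : γ ∈ A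
      · rw [Set.indicator_of_mem hA, Set.indicator_of_mem (hγ hA), mul_one, sub_self]
      · rw [Set.indicator_of_notMem hA, zero_mul, sub_zero]
  rw [h1]
  refine (DV.norm_iUX_le _ _).trans ?_
  rw [Tb_eq, Pool.Agent.Helper78.FQ.XPpr_ind]
  refine (Pool.Agent.Helper78.FQ.norm_XPpr_le _).trans ?_
  have h2 := tendsto_nhds_unique (tendsto_mass (μ := μ) (a := a) (E := E) (b := b) A' φ)
    (show Tendsto (fun n => ‖cl μ (ind ℂ A') (WW μ a E (b n) φ)‖) (hyperfilter ℕ : Filter ℕ) (𝓝 ‖UE.map μ (ind ℂ A') (KK μ a E b φ)‖) by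
      rw [← UE.norm_val, UE.val_map, val_KK, uxm_mk]
      exact UP.tendsto_norm (BSeq.map (cl μ (ind ℂ A')) (KS μ a E b φ)))
  rw [h2]

/-- The mass over a region is small if the masses are small. -/
theorem reg_mass {A A' : Set G} (h : ∀ n, ∀ᶠ γ in R.F n, γ ∈ A → γ ∈ A') (φ : XL μ (L2 G)) {ε : ℝ}
    (hm : ∀ᶠ n in (hyperfilter ℕ : Filter ℕ), ‖cl μ (ind ℂ A') (WW μ a E (b n) φ)‖ ≤ ε) : ‖iUX R A (Tb μ a E R b φ)‖ ≤ ε :=
  (reg_le h φ).trans (le_of_tendsto (tendsto_mass (μ := μ) (a := a) (E := E) (b := b) A' φ) hm)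

end Reg

section Main

variable {G1 X Λ : Type} [Group G1] [TopologicalSpace G1] [IsTopologicalGroup G1] [MeasurableSpace X] [MulAction G1 X]
  [MeasurableConstSMul G1 X] [Group Λ] [Countable Λ] {μ : Measure X} [SMulInvariantMeasure G1 X μ]
  [IsProbabilityMeasure μ] {a : Cocy G1 X Λ}
variable {𝔾 : Type} [Group 𝔾] [TopologicalSpace 𝔾] {ι : Type} [Fintype ι] [DecidableEq ι] {D : GD 𝔾 ι} {Γ : Subgroup 𝔾} [Countable Γ]
  {E : Emb Λ Γ}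
variable {κ : Type} [Fintype κ] [DecidableEq κ] (D1 : GD G1 κ)

/-- The Mautner property for the sequences of the closed chamber. -/
def ChM : Prop := ∀ c : ℕ → κ → ℝ, (∀ n i, 0 ≤ c n i) → Tendsto (fun n => D1.ea (c n)) (hyperfilter ℕ : Filter ℕ) (cocompact G1) →
  MauU (Ctr fun n => D1.ea (c n))

/-- The chamber. -/
def ChS : Set G1 := {g | ∃ c : κ → ℝ, (∀ i, 0 ≤ c i) ∧ g = D1.ea c}

variable {D1}

theorem ChM.seq (h : ChM D1) (f : ℕ → G1) (hf : ∀ n, f n ∈ ChS D1) (ht : Tendsto f (hyperfilter ℕ : Filter ℕ) (cocompact G1)) : MauU (Ctr f) := by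
  choose c hc e using hf
  have e' : f = fun n => D1.ea (c n) := funext e
  rw [e'] at ht ⊢
  exact h c hc ht

theorem kak_mem (g : G1) : ∃ k ∈ (D1.K : Set G1), ∃ f ∈ ChS D1, ∃ k' ∈ (D1.K : Set G1), g = k * f * k' :=
  ⟨D1.kL g, D1.kL_mem g, D1.ea (D1.mu g), ⟨D1.mu g, D1.mu_nonneg g, rfl⟩, D1.kR g, D1.kR_mem g, D1.kak g⟩

/-- **LF for all elements**, right data. -/
theorem lf_g (h3 : Tendsto (fun g : G1 => μ {x | a.a g x ≠ 1}) (𝓝 1) (𝓝 0)) (hK : Kcont G1 μ)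
    (hI : CocI μ a) (hF : FullE E) (hSI : SI D Γ) (hM : ChM D1) (l : ι) {ε : ℝ} (hε : 0 < ε) :
    ∃ δ : ℝ, 0 < δ ∧ ∀ (g : G1) (v : VE D l), ‖v‖ = 1 → mass μ a E (AbV (rhG D Γ l) v δ) g ≤ ε := by
  obtain ⟨δ, hδ, h⟩ := lf_all (μ := μ) (a := a) (E := E) (rhG D Γ l) h3 hK hI hF (hirr_SI hSI l) hM.seq D1.cpt hε
  refine ⟨δ, hδ, fun g v hv => ?_⟩
  obtain ⟨k, hk, f, hf, k', hk', e⟩ := kak_mem (D1 := D1) g
  rw [e]
  exact h k hk f hf k' hk' v hv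

/-- **LF for all elements**, left data. -/
theorem lf_gL (h3 : Tendsto (fun g : G1 => μ {x | a.a g x ≠ 1}) (𝓝 1) (𝓝 0)) (hK : Kcont G1 μ)
    (hI : CocI μ a) (hF : FullE E) (hSI : SI D Γ) (hM : ChM D1) (l : ι) {ε : ℝ} (hε : 0 < ε) :
    ∃ δ : ℝ, 0 < δ ∧ ∀ (g : G1) (v : VE D l), ‖v‖ = 1 → mass μ a E (AbL (rhG D Γ l) v δ) g ≤ ε := by
  obtain ⟨δ, hδ, h⟩ := lf_allL (μ := μ) (a := a) (E := E) (rhG D Γ l) h3 hK hI hF (hirr_SI hSI l) hM.seq D1.cpt hε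
  refine ⟨δ, hδ, fun g v hv => ?_⟩
  obtain ⟨k, hk, f, hf, k', hk', e⟩ := kak_mem (D1 := D1) g⁻¹
  have e' : g = (k * f * k')⁻¹ := by rw [← e, inv_inv]
  rw [e']
  exact h k hk f hf k' hk' v hv

/-- **LF**: the right data near a hyperplane. -/
theorem lf_x (h3 : Tendsto (fun g : G1 => μ {x | a.a g x ≠ 1}) (𝓝 1) (𝓝 0)) (hK : Kcont G1 μ)
    (hI : CocI μ a) (hF : FullE E) (hSI : SI D Γ) (hM : ChM D1) (l : ι) {ε : ℝ} (hε : 0 < ε) :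
    ∃ δ : ℝ, 0 < δ ∧ ∃ L : ℝ, ∀ (g : G1) (e : VE D l), ‖e‖ = 1 →
      mass μ a E {γ : Γ | L ≤ D.mu (γ : 𝔾) l ∧ |inner ℝ (xE' D l (γ : 𝔾)) e| < δ} g ≤ ε := by
  obtain ⟨δ, hδ, h⟩ := lf_g h3 hK hI hF hSI hM l hε
  obtain ⟨L, hL⟩ := XS_sub D l hδ
  exact ⟨δ / 2, half_pos hδ, L, fun g e he => (mass_mono (fun γ hγ => hL _ e he hγ.1 hγ.2) g).trans (h g e he)⟩

/-- **LF**: the left data near a hyperplane. -/
theorem lf_y (h3 : Tendsto (fun g : G1 => μ {x | a.a g x ≠ 1}) (𝓝 1) (𝓝 0)) (hK : Kcont G1 μ)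
    (hI : CocI μ a) (hF : FullE E) (hSI : SI D Γ) (hM : ChM D1) (l : ι) {ε : ℝ} (hε : 0 < ε) :
    ∃ δ : ℝ, 0 < δ ∧ ∃ L : ℝ, ∀ (g : G1) (e : VE D l), ‖e‖ = 1 →
      mass μ a E {γ : Γ | L ≤ D.mu (γ : 𝔾) l ∧ |inner ℝ (yE' D l (γ : 𝔾)) e| < δ} g ≤ ε := by
  obtain ⟨δ, hδ, h⟩ := lf_gL h3 hK hI hF hSI hM l hε
  obtain ⟨L, hL⟩ := YS_sub D l hδ
  exact ⟨δ / 2, half_pos hδ, L, fun g e he => (mass_mono (fun γ hγ => hL _ e he hγ.1 hγ.2) g).trans (h g e he)⟩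

/-- The form of `Helper20/FQ/Lf.lean`. -/
theorem LFR_g (h3 : Tendsto (fun g : G1 => μ {x | a.a g x ≠ 1}) (𝓝 1) (𝓝 0)) (hK : Kcont G1 μ)
    (hI : CocI μ a) (hF : FullE E) (hSI : SI D Γ) (hM : ChM D1) (l : ι) {I : Type} (f : I → G1) (fl : Filter I) :
    Pool.Agent.Helper20.FQ.LFR μ a E (fun γ : Γ => D.rho l (γ : 𝔾)) f fl := by
  intro ε hε
  obtain ⟨δ, hδ, h⟩ := lf_g h3 hK hI hF hSI hM l hε
  exact ⟨δ, hδ, Eventually.of_forall fun i v hv => h (f i) v hv⟩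

theorem LFL_g (h3 : Tendsto (fun g : G1 => μ {x | a.a g x ≠ 1}) (𝓝 1) (𝓝 0)) (hK : Kcont G1 μ)
    (hI : CocI μ a) (hF : FullE E) (hSI : SI D Γ) (hM : ChM D1) (l : ι) {I : Type} (f : I → G1) (fl : Filter I) :
    Pool.Agent.Helper20.FQ.LFL μ a E (fun γ : Γ => D.rho l (γ : 𝔾)) f fl := by
  intro ε hε
  obtain ⟨δ, hδ, h⟩ := lf_gL h3 hK hI hF hSI hM l hε
  refine ⟨δ, hδ, Eventually.of_forall fun i v hv => (mass_mono (fun γ hγ => ?_) _).trans (h (f i) v hv)⟩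
  change ‖ContinuousLinearMap.adjoint (rhC D l (γ : 𝔾)) v‖ ≤ δ * ‖rhC D l (γ : 𝔾)‖
  rw [rhC_apply, clm_adj]
  exact hγ

/-- **LF over a region**, right data: any region on which the gap `l` tends to infinity. -/
theorem lf_regx (h3 : Tendsto (fun g : G1 => μ {x | a.a g x ≠ 1}) (𝓝 1) (𝓝 0)) (hK : Kcont G1 μ)
    (hI : CocI μ a) (hF : FullE E) (hSI : SI D Γ) {b : ℕ → G1} (hU : MauU (Ctr b)) {l : ι} {R : Reg Γ}
    (hR : ∀ n, Tendsto (fun γ : Γ => D.mu (γ : 𝔾) l) (R.F n) atTop) (φ : XL μ (L2 Γ)) {ε : ℝ} (hε : 0 < ε) :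
    ∃ δ : ℝ, 0 < δ ∧ ∀ e : VE D l, ‖e‖ = 1 → ‖iUX R {γ : Γ | |inner ℝ (xE' D l (γ : 𝔾)) e| < δ} (Tb μ a E R b φ)‖ ≤ ε := by
  obtain ⟨δ, hδ, h⟩ := lf_uni (rhG D Γ l) h3 hK hU hI hF (hirr_SI hSI l) (isCompact_singleton (x := φ)) hε
  obtain ⟨L, hL⟩ := XS_sub D l hδ
  refine ⟨δ / 2, half_pos hδ, fun e he => ?_⟩
  refine reg_mass (A' := {γ : Γ | ‖rhG D Γ l γ e‖ ≤ δ * ‖rhG D Γ l γ‖}) (fun n => ?_) φ (h.mono fun n hn => hn φ rfl e he)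
  filter_upwards [(hR n).eventually_ge_atTop L] with γ h1 h2
  exact hL _ e he h1 h2

/-- **LF over a region**, left data, for the constant function. -/
theorem lf_regy (h3 : Tendsto (fun g : G1 => μ {x | a.a g x ≠ 1}) (𝓝 1) (𝓝 0)) (hK : Kcont G1 μ)
    (hI : CocI μ a) (hF : FullE E) (hSI : SI D Γ) (hM : ChM D1) (b : ℕ → G1) {l : ι} {R : Reg Γ}
    (hR : ∀ n, Tendsto (fun γ : Γ => D.mu (γ : 𝔾) l) (R.F n) atTop) {ε : ℝ} (hε : 0 < ε) :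
    ∃ δ : ℝ, 0 < δ ∧ ∀ e : VE D l, ‖e‖ = 1 → ‖iUX R {γ : Γ | |inner ℝ (yE' D l (γ : 𝔾)) e| < δ} (Tb μ a E R b (cst μ (dl 1)))‖ ≤ ε := by
  obtain ⟨δ, hδ, h⟩ := lf_gL h3 hK hI hF hSI hM l (ε := ε ^ 2) (by positivity)
  obtain ⟨L, hL⟩ := YS_sub D l hδ
  refine ⟨δ / 2, half_pos hδ, fun e he => ?_⟩
  refine reg_mass (A' := AbL (rhG D Γ l) e δ) (fun n => ?_) _ (Eventually.of_forall fun n => ?_)
  · filter_upwards [(hR n).eventually_ge_atTop L] with γ h1 h2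
    exact hL _ e he h1 h2
  · have h1 := h (b n) e he
    rw [WW_one]
    unfold mass at h1
    exact (sq_le_sq₀ (norm_nonneg _) hε.le).1 h1

theorem opp_eq (l : ι) (g h : 𝔾) : D.opp l g h = inner ℝ (xE' D l g) (yE' D l h) := by
  unfold GD.opp
  rw [map_mul, mul_apply, EuclideanSpace.inner_eq_star_dotProduct]
  unfold xE' yE' GD.xv GD.yv
  simp [dotProduct, mul_comm]

theorem norm_yE' (l : ι) (g : 𝔾) : ‖yE' D l g‖ = 1 := by
  have h := D.orth l _ (D.kL_mem g)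
  have h1 := congrFun (congrFun h 0) 0
  rw [mul_apply, one_apply_eq] at h1
  have h2 : ‖yE' D l g‖ ^ 2 = 1 := by
    rw [EuclideanSpace.norm_sq_eq, ← h1]
    refine Finset.sum_congr rfl fun i _ => ?_
    rw [Real.norm_eq_abs, sq_abs, transpose_apply, ← sq]
    rfl
  exact (sq_eq_sq₀ (norm_nonneg _) zero_le_one).1 (by rw [h2, one_pow])

/-- The hypothesis `hLF` of `Helper45/FQ/PVM.lean`. -/
theorem lf_opp (h3 : Tendsto (fun g : G1 => μ {x | a.a g x ≠ 1}) (𝓝 1) (𝓝 0)) (hK : Kcont G1 μ)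
    (hI : CocI μ a) (hF : FullE E) (hSI : SI D Γ) {b : ℕ → G1} (hU : MauU (Ctr b)) {l : ι} {R : Reg Γ}
    (hR : ∀ n, Tendsto (fun γ : Γ => D.mu (γ : 𝔾) l) (R.F n) atTop) (φ : XL μ (L2 Γ)) {ε : ℝ} (hε : 0 < ε) :
    ∃ δ : ℝ, 0 < δ ∧ ∀ h : 𝔾, ‖Mf μ R ({γ : Γ | ¬ δ ≤ |D.opp l (γ : 𝔾) h|}.indicator fun _ => 1) (Tb μ a E R b φ)‖ ≤ ε := by
  obtain ⟨δ, hδ, h⟩ := lf_regx h3 hK hI hF hSI hU hR φ hε
  refine ⟨δ, hδ, fun g => ?_⟩
  have h1 := h (yE' D l g) (norm_yE' l g)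
  rw [Mf_ind] at h1
  have e : ({γ : Γ | ¬ δ ≤ |D.opp l (γ : 𝔾) g|} : Set Γ) = {γ : Γ | |inner ℝ (xE' D l (γ : 𝔾)) (yE' D l g)| < δ} := by
    ext γ
    rw [Set.mem_ofPred_eq, Set.mem_ofPred_eq, not_le, opp_eq]
  rw [e]
  exact h1

end Main

end Pool.Agent.Helper10.FQ
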