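import Pool.Agent.Helper10.FQ.Uni
import Pool.Agent.Helper9.FQ.U2

/-!
# Project FQ (MP_0f6f3f_an), layer LF: global form

`AbV ρ v δ = {γ | ‖ρ γ v‖ ≤ δ ‖ρ γ‖}`, `AbL ρ v δ = {γ | ‖(ρ γ)† v‖ ≤ δ ‖ρ γ‖}`. `lf_all`: if `MauU (Ctr f)` for all the sequences `f` of `F` which tend to infinity, then `mass (AbV ρ v δ) (k f k') ≤ ε`, uniformly in
`f ∈ F`, `k`, `k'` in a compact set, `v` of norm `1`. `mass_inv`: the law of `V_g⁻¹ 1`. `lf_allL`: the same for `AbL`.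
-/

set_option autoImplicit false
set_option linter.unusedSectionVars false

open MeasureTheory Filter Topology
open scoped ENNReal ComplexConjugate

namespace Pool.Agent.Helper10.FQ

open Pool.Agent.Helper84 Pool.Agent.Helper84.GN Pool.Agent.Helper84.GN.S3 Pool.Agent.Helper84.GN.S3.X
open Pool.Agent.Helper84.NI Pool.Agent.Helper84.GVN Pool.Agent.Helper90.RK
open Pool.Agent.Helper96.RK hiding toReg
open Pool.Agent.Helper66.FR Pool.Agent.Helper84.FR Pool.Agent.Helper55.FR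
open Pool.Agent.Helper78.BM
open Pool.Agent.Helper43.LF (CocI)
open Pool.Agent.Helper43.TA (shf)
open Pool.Agent.Helper9.FQ

section Sets

variable {G : Type} [Group G] {𝕜 V : Type} [RCLike 𝕜] [NormedAddCommGroup V] [NormedSpace 𝕜 V] [FiniteDimensional 𝕜 V]
  (ρ : G →* (V →L[𝕜] V))

/-- The positions contracting `v` relatively to the norm. -/
def AbV (v : V) (δ : ℝ) : Set G := {γ | ‖ρ γ v‖ ≤ δ * ‖ρ γ‖}

theorem AbV_mono (v : V) {δ δ' : ℝ} (h : δ ≤ δ') : AbV ρ v δ ⊆ AbV ρ v δ' := fun γ hγ =>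
  le_trans (show ‖ρ γ v‖ ≤ δ * ‖ρ γ‖ from hγ) (mul_le_mul_of_nonneg_right h (norm_nonneg _))

theorem rho_ne [Nontrivial V] (γ : G) : 0 < ‖ρ γ‖ := by
  rw [norm_pos_iff]
  intro h
  obtain ⟨v, hv⟩ := exists_ne (0 : V)
  refine hv ?_
  have h3 := rho_inv ρ γ v
  rw [h, zero_apply, map_zero] at h3
  exact h3.symm

theorem rho_low (γ : G) (v : V) : ‖v‖ ≤ ‖ρ γ⁻¹‖ * ‖ρ γ v‖ := by
  have h := (ρ γ⁻¹).le_opNorm (ρ γ v)
  rwa [rho_inv] at h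

/-- Finite sets do not meet the sets `AbV ρ v δ`. -/
theorem AbV_fin (S : Finset G) : ∃ δ : ℝ, 0 < δ ∧ ∀ v : V, ‖v‖ = 1 → AbV ρ v δ ⊆ (S : Set G)ᶜ := by
  obtain ⟨M, hM, hS⟩ : ∃ M : ℝ, 0 < M ∧ ∀ γ ∈ S, ‖ρ γ⁻¹‖ * ‖ρ γ‖ < M := by
    have hM0 : 0 ≤ ∑ γ ∈ S, ‖ρ γ⁻¹‖ * ‖ρ γ‖ := Finset.sum_nonneg fun q _ => mul_nonneg (norm_nonneg _) (norm_nonneg _)
    refine ⟨∑ γ ∈ S, ‖ρ γ⁻¹‖ * ‖ρ γ‖ + 1, by linarith, fun q hq => ?_⟩
    have h := Finset.single_le_sum (f := fun γ => ‖ρ γ⁻¹‖ * ‖ρ γ‖) (fun q _ => mul_nonneg (norm_nonneg _) (norm_nonneg _)) hq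
    exact lt_of_le_of_lt h (lt_add_one _)
  refine ⟨1 / M, one_div_pos.2 hM, fun v hv γ hγ hγS => ?_⟩
  have h1 := rho_low ρ γ v
  rw [hv] at h1
  have h3 : ‖ρ γ v‖ ≤ 1 / M * ‖ρ γ‖ := hγ
  have h4 : ‖ρ γ⁻¹‖ * ‖ρ γ v‖ ≤ ‖ρ γ⁻¹‖ * (1 / M * ‖ρ γ‖) := mul_le_mul_of_nonneg_left h3 (norm_nonneg _)
  have h5 : ‖ρ γ⁻¹‖ * (1 / M * ‖ρ γ‖) < 1 := by
    have e : ‖ρ γ⁻¹‖ * (1 / M * ‖ρ γ‖) = (‖ρ γ⁻¹‖ * ‖ρ γ‖) / M := by
      ring
    rw [e, div_lt_one hM]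
    exact hS γ hγS
  linarith

/-- Two sided translates. -/
theorem shf_AbV [Nontrivial V] (Q : Finset G) : ∃ C : ℝ, 0 < C ∧ ∀ δ : ℝ, 0 < δ → ∀ v : V, ‖v‖ = 1 → ∃ u : G → V,
    (∀ q, ‖u q‖ = 1) ∧ shf Q (AbV ρ v δ) ⊆ ⋃ q ∈ Q, AbV ρ (u q) (C * δ) := by
  obtain ⟨M, hMp, hM⟩ : ∃ M : ℝ, 0 < M ∧ ∀ q ∈ Q, ‖ρ q‖ ≤ M ∧ ‖ρ q⁻¹‖ ≤ M := by
    have hM0 : 0 ≤ ∑ q ∈ Q, (‖ρ q‖ + ‖ρ q⁻¹‖) := Finset.sum_nonneg fun q _ => add_nonneg (norm_nonneg _) (norm_nonneg _)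
    refine ⟨∑ q ∈ Q, (‖ρ q‖ + ‖ρ q⁻¹‖) + 1, by linarith, fun q hq => ?_⟩
    have h := Finset.single_le_sum (f := fun q => ‖ρ q‖ + ‖ρ q⁻¹‖) (fun q _ => add_nonneg (norm_nonneg _) (norm_nonneg _)) hq
    have h1 := norm_nonneg (ρ q)
    have h2 := norm_nonneg (ρ q⁻¹)
    have h' : ‖ρ q‖ + ‖ρ q⁻¹‖ ≤ ∑ q ∈ Q, (‖ρ q‖ + ‖ρ q⁻¹‖) := h
    constructor <;> linarith
  refine ⟨M ^ 4, by positivity, fun δ hδ v hv => ?_⟩
  have hne : ∀ q : G, 0 < ‖ρ q v‖ := by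
    intro q
    by_contra h
    have h0 : ‖ρ q v‖ = 0 := le_antisymm (not_lt.1 h) (norm_nonneg _)
    have h1 := rho_low ρ q v
    rw [h0, hv, mul_zero] at h1
    linarith
  refine ⟨fun q => ((‖ρ q v‖ : ℝ) : 𝕜)⁻¹ • ρ q v, fun q => ?_, ?_⟩
  · rw [norm_smul, norm_inv, RCLike.norm_ofReal, abs_of_pos (hne q), inv_mul_cancel₀ (hne q).ne']
  rintro γ ⟨q, hq, q', hq', h⟩
  rw [Set.mem_iUnion₂]
  refine ⟨q', hq', ?_⟩
  have h1 : ‖ρ (q * γ * q') v‖ ≤ δ * ‖ρ (q * γ * q')‖ := h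
  have e1 : ρ (q * γ * q') v = ρ q (ρ γ (ρ q' v)) := by
    rw [map_mul, map_mul]
    rfl
  have h2 : ‖ρ (q * γ * q')‖ ≤ M * ‖ρ γ‖ * M := by
    rw [map_mul, map_mul]
    refine (ContinuousLinearMap.opNorm_comp_le _ _).trans ?_
    refine mul_le_mul ?_ (hM q' hq').1 (norm_nonneg _) (by positivity)
    refine (ContinuousLinearMap.opNorm_comp_le _ _).trans ?_
    exact mul_le_mul_of_nonneg_right (hM q hq).1 (norm_nonneg _)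
  have h3 : ‖ρ γ (ρ q' v)‖ ≤ M * ‖ρ q (ρ γ (ρ q' v))‖ :=
    (rho_low ρ q _).trans (mul_le_mul_of_nonneg_right (hM q hq).2 (norm_nonneg _))
  have h4 : ‖ρ γ (ρ q' v)‖ ≤ M ^ 3 * δ * ‖ρ γ‖ := by
    rw [e1] at h1
    calc ‖ρ γ (ρ q' v)‖ ≤ M * ‖ρ q (ρ γ (ρ q' v))‖ := h3
      _ ≤ M * (δ * (M * ‖ρ γ‖ * M)) := by
          refine mul_le_mul_of_nonneg_left (h1.trans ?_) hMp.le
          exact mul_le_mul_of_nonneg_left h2 hδ.le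
      _ = M ^ 3 * δ * ‖ρ γ‖ := by ring
  have h5 : ‖ρ q' v‖⁻¹ ≤ M := by
    rw [inv_le_comm₀ (hne q') hMp, inv_le_iff_one_le_mul₀ hMp]
    have h6 := (rho_low ρ q' v).trans (mul_le_mul_of_nonneg_right (hM q' hq').2 (norm_nonneg _))
    rwa [hv, mul_comm] at h6
  change ‖ρ γ (((‖ρ q' v‖ : ℝ) : 𝕜)⁻¹ • ρ q' v)‖ ≤ M ^ 4 * δ * ‖ρ γ‖
  rw [map_smul, norm_smul, norm_inv, RCLike.norm_ofReal, abs_of_pos (hne q')]
  calc ‖ρ q' v‖⁻¹ * ‖ρ γ (ρ q' v)‖ ≤ M * (M ^ 3 * δ * ‖ρ γ‖) := mul_le_mul h5 h4 (norm_nonneg _) hMp.le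
    _ = M ^ 4 * δ * ‖ρ γ‖ := by ring

end Sets

section Inner

variable {G : Type} [Group G] {𝕜 V : Type} [RCLike 𝕜] [NormedAddCommGroup V] [InnerProductSpace 𝕜 V] [FiniteDimensional 𝕜 V]
  [CompleteSpace V] (ρ : G →* (V →L[𝕜] V))

/-- The contragredient representation. -/
noncomputable def ctg : G →* (V →L[𝕜] V) where
  toFun γ := ContinuousLinearMap.adjoint (ρ γ⁻¹)
  map_one' := by
    rw [inv_one, map_one]
    exact ContinuousLinearMap.adjoint_id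
  map_mul' γ γ' := by
    rw [mul_inv_rev, map_mul]
    exact ContinuousLinearMap.adjoint_comp _ _

theorem ctg_apply (γ : G) : ctg ρ γ = ContinuousLinearMap.adjoint (ρ γ⁻¹) := rfl

theorem norm_ctg (γ : G) : ‖ctg ρ γ‖ = ‖ρ γ⁻¹‖ := by
  rw [ctg_apply, LinearIsometryEquiv.norm_map]

theorem trS_ctg (k : G) (F : Submodule 𝕜 V) : (trS (ctg ρ) k F)ᗮ = trS ρ k Fᗮ := by
  ext v
  rw [Submodule.mem_orthogonal]
  constructor
  · intro h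
    refine ⟨ρ k⁻¹ v, ?_, rho_inv' ρ k v⟩
    rw [SetLike.mem_coe, Submodule.mem_orthogonal]
    intro u hu
    have h1 := h (ctg ρ k u) ⟨u, hu, rfl⟩
    rwa [ctg_apply, ContinuousLinearMap.adjoint_inner_left] at h1
  · rintro ⟨w, hw, rfl⟩ _ ⟨u, hu, rfl⟩
    change inner 𝕜 (ContinuousLinearMap.adjoint (ρ k⁻¹) u) (ρ k w) = 0
    rw [ContinuousLinearMap.adjoint_inner_left, rho_inv]
    exact (Submodule.mem_orthogonal _ _).1 hw u hu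

theorem hirr_ctg (hirr : ∀ F : Submodule 𝕜 V, F ≠ ⊥ → F ≠ ⊤ → (Set.range fun k => trS ρ k F).Infinite) :
    ∀ F : Submodule 𝕜 V, F ≠ ⊥ → F ≠ ⊤ → (Set.range fun k => trS (ctg ρ) k F).Infinite := by
  intro F h1 h2 hfin
  refine hirr Fᗮ (fun h => h2 ?_) (fun h => h1 ?_) ?_
  · exact Submodule.orthogonal_eq_bot_iff.1 h
  · exact (Submodule.orthogonal_eq_top_iff F).1 h
  · have h3 := hfin.image fun F : Submodule 𝕜 V => Fᗮ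
    rw [← Set.range_comp] at h3
    refine h3.subset ?_
    rintro _ ⟨k, rfl⟩
    exact ⟨k, trS_ctg ρ k F⟩

/-- The left data. -/
def AbL (v : V) (δ : ℝ) : Set G := {γ | ‖ContinuousLinearMap.adjoint (ρ γ) v‖ ≤ δ * ‖ρ γ‖}

theorem AbL_inv (v : V) (δ : ℝ) : (AbL ρ v δ)⁻¹ = AbV (ctg ρ) v δ := by
  ext γ
  rw [Set.mem_inv]
  unfold AbL AbV
  rw [Set.mem_ofPred_eq, Set.mem_ofPred_eq, norm_ctg]
  rfl

end Inner

section Inv

variable {G1 X G Λ : Type} [Group G1] [MeasurableSpace X] [MulAction G1 X]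
  [MeasurableConstSMul G1 X] [Group G] [Group Λ] [Countable Λ] {μ : Measure X} [SMulInvariantMeasure G1 X μ]
  [IsProbabilityMeasure μ] {a : Cocy G1 X Λ} {E : Emb Λ G}

theorem ind_cf_inv (A : Set G) (l : Λ) : ‖ind ℂ A⁻¹ (cf (E.U l⁻¹))‖ ^ 2 = ‖ind ℂ A (cf (E.U l))‖ ^ 2 := by
  classical
  rw [norm_sq_eq, norm_sq_eq, ← (Equiv.inv G).tsum_eq]
  refine tsum_congr fun γ => ?_
  rw [Equiv.inv_apply, ind_apply, ind_apply, map_inv, f2_cf_inv (E.comm l)]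
  by_cases h : γ ∈ A
  · rw [if_pos h, if_pos (by rwa [Set.mem_inv, inv_inv]), RCLike.norm_conj]
  · rw [if_neg h, if_neg (by rwa [Set.mem_inv, inv_inv])]

/-- The law of `V_g⁻¹ 1`. -/
theorem mass_inv (A : Set G) (g : G1) : mass μ a E A⁻¹ g⁻¹ = mass μ a E A g := by
  rw [mass_int', mass_int]
  refine integral_congr_ae (ae_of_all _ fun x => ?_)
  rw [inv_inv]
  have h1 : a.a g⁻¹ (g • x) = (a.a g x)⁻¹ := by
    have h2 := a.mul g⁻¹ g x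
    rw [inv_mul_cancel, a.one] at h2
    exact eq_inv_of_mul_eq_one_left h2.symm
  change ‖ind ℂ A⁻¹ (cf (E.U (a.a g⁻¹ (g • x))))‖ ^ 2 = _
  rw [h1, ind_cf_inv]

end Inv

section Main

variable {G1 X G Λ : Type} [Group G1] [TopologicalSpace G1] [IsTopologicalGroup G1] [MeasurableSpace X] [MulAction G1 X]
  [MeasurableConstSMul G1 X] [Group G] [Group Λ] [Countable Λ] {μ : Measure X} [SMulInvariantMeasure G1 X μ]
  [IsProbabilityMeasure μ] {a : Cocy G1 X Λ} {E : Emb Λ G} {b : ℕ → G1} [Countable G]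

theorem WW_one (g : G1) : WW μ a E g (cst μ (dl 1)) = zx μ a E g := by
  classical
  refine xl_ext ?_
  filter_upwards [WW_apply (μ := μ) a E g (cst μ (dl 1 : L2 G)),
    (measurePreserving_smul g⁻¹ μ).quasiMeasurePreserving.ae (cst_apply (μ := μ) (dl 1 : L2 G)),
    zv_apply (μ := μ) (E := E) (mea_a (a := a) g g⁻¹)] with x h1 h2 h3
  rw [h1, h2, zx_eq, h3]
  have h4 : ivU G (dl 1) = dl 1 := by
    refine l2_ext fun γ => ?_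
    rw [ivU_apply, dl_apply, dl_apply]
    by_cases h : γ = 1
    · subst h
      simp
    · rw [if_neg (fun h5 => h (inv_eq_one.1 h5)), if_neg h]
  rw [h4]
  rfl

variable {𝕜 V : Type} [RCLike 𝕜] [NormedAddCommGroup V] [NormedSpace 𝕜 V] [FiniteDimensional 𝕜 V] (ρ : G →* (V →L[𝕜] V))

/-- Along a sequence. -/
theorem lf_seq (h3 : Tendsto (fun g : G1 => μ {x | a.a g x ≠ 1}) (𝓝 1) (𝓝 0)) (hK : Kcont G1 μ)
    (hU : MauU (Ctr b)) (hI : CocI μ a) (hF : FullE E)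
    (hirr : ∀ F : Submodule 𝕜 V, F ≠ ⊥ → F ≠ ⊤ → (Set.range fun k => trS ρ k F).Infinite) {ε : ℝ} (hε : 0 < ε) :
    ∃ δ : ℝ, 0 < δ ∧ ∀ᶠ n in (hyperfilter ℕ : Filter ℕ), ∀ v : V, ‖v‖ = 1 → mass μ a E (AbV ρ v δ) (b n) ≤ ε := by
  obtain ⟨δ, hδ, h⟩ := lf_uni ρ h3 hK hU hI hF hirr (isCompact_singleton (x := (cst μ (dl 1) : XL μ (L2 G)))) (Real.sqrt_pos.2 hε)
  refine ⟨δ, hδ, h.mono fun n hn v hv => ?_⟩
  have h1 := hn _ rfl v hv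
  rw [WW_one] at h1
  have h2 := pow_le_pow_left₀ (norm_nonneg _) h1 2
  rwa [Real.sq_sqrt hε.le] at h2

/-- Uniform form for the elements of `F`. -/
theorem lf_F (h3 : Tendsto (fun g : G1 => μ {x | a.a g x ≠ 1}) (𝓝 1) (𝓝 0)) (hK : Kcont G1 μ)
    (hI : CocI μ a) (hF : FullE E)
    (hirr : ∀ F : Submodule 𝕜 V, F ≠ ⊥ → F ≠ ⊤ → (Set.range fun k => trS ρ k F).Infinite) {F : Set G1}
    (hM : ∀ f : ℕ → G1, (∀ n, f n ∈ F) → Tendsto f (hyperfilter ℕ : Filter ℕ) (cocompact G1) → MauU (Ctr f)) {ε : ℝ} (hε : 0 < ε) :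
    ∃ δ : ℝ, 0 < δ ∧ ∀ f ∈ F, ∀ v : V, ‖v‖ = 1 → mass μ a E (AbV ρ v δ) f ≤ ε := by
  by_contra hcon
  push Not at hcon
  choose f hf v hv hm using fun n : ℕ => hcon (1 / ((n : ℝ) + 1)) (by positivity)
  have hinf : ∀ δ : ℝ, 0 < δ → ∀ᶠ n : ℕ in (hyperfilter ℕ : Filter ℕ), 1 / ((n : ℝ) + 1) ≤ δ := by
    intro δ hδ
    have h1 : Tendsto (fun n : ℕ => 1 / ((n : ℝ) + 1)) (hyperfilter ℕ : Filter ℕ) (𝓝 0) :=
      tendsto_one_div_add_atTop_nhds_zero_nat.mono_left Nat.hyperfilter_le_atTop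
    exact (h1.eventually (gt_mem_nhds hδ)).mono fun n hn => hn.le
  by_cases ht : Tendsto f (hyperfilter ℕ : Filter ℕ) (cocompact G1)
  · obtain ⟨δ, hδ, h1⟩ := lf_seq (μ := μ) (a := a) (E := E) ρ h3 hK (hM f hf ht) hI hF hirr hε
    obtain ⟨n, hn1, hn2⟩ := (h1.and (hinf δ hδ)).exists
    have h2 := hn1 (v n) (hv n)
    have h4 := mass_mono (μ := μ) (a := a) (E := E) (AbV_mono ρ (v n) hn2) (f n)
    exact absurd (h4.trans h2) (not_le.2 (hm n))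
  · rw [tendsto_def] at ht
    push Not at ht
    obtain ⟨s, hs, hs2⟩ := ht
    obtain ⟨K, hK1, hK2⟩ := mem_cocompact.1 hs
    have h1 : ∀ᶠ n in (hyperfilter ℕ : Filter ℕ), f n ∈ K := by
      have h2 : (f ⁻¹' s)ᶜ ∈ (hyperfilter ℕ : Filter ℕ) := (Ultrafilter.compl_mem_iff_notMem).2 hs2
      filter_upwards [h2] with n hn
      by_contra hc
      exact hn (hK2 hc)
    obtain ⟨S, hS⟩ := mass_tight (μ := μ) (a := a) (E := E) h3 hK1 hε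
    obtain ⟨δ, hδ, h2⟩ := AbV_fin ρ S
    obtain ⟨n, hn1, hn2⟩ := (h1.and (hinf δ hδ)).exists
    have h4 := mass_mono (μ := μ) (a := a) (E := E) ((AbV_mono ρ (v n) hn2).trans (h2 (v n) (hv n))) (f n)
    exact absurd (h4.trans (hS _ hn1)) (not_le.2 (hm n))

/-- **LF, global form**: the right data. -/
theorem lf_all (h3 : Tendsto (fun g : G1 => μ {x | a.a g x ≠ 1}) (𝓝 1) (𝓝 0)) (hK : Kcont G1 μ)
    (hI : CocI μ a) (hF : FullE E)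
    (hirr : ∀ F : Submodule 𝕜 V, F ≠ ⊥ → F ≠ ⊤ → (Set.range fun k => trS ρ k F).Infinite) {F K : Set G1}
    (hM : ∀ f : ℕ → G1, (∀ n, f n ∈ F) → Tendsto f (hyperfilter ℕ : Filter ℕ) (cocompact G1) → MauU (Ctr f))
    (hK' : IsCompact K) {ε : ℝ} (hε : 0 < ε) :
    ∃ δ : ℝ, 0 < δ ∧ ∀ k ∈ K, ∀ f ∈ F, ∀ k' ∈ K, ∀ v : V, ‖v‖ = 1 → mass μ a E (AbV ρ v δ) (k * f * k') ≤ ε := by
  rcases subsingleton_or_nontrivial V with hV | hV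
  · refine ⟨1, one_pos, fun k _ f _ k' _ v hv => ?_⟩
    rw [Subsingleton.elim v 0, norm_zero] at hv
    exact absurd hv zero_ne_one
  obtain ⟨Q, C, hC, h1⟩ := mass_transfer (E := E) h3 hK' (half_pos hε)
  obtain ⟨C', hC', h2⟩ := shf_AbV ρ Q
  obtain ⟨δ, hδ, h4⟩ := lf_F (μ := μ) (a := a) (E := E) ρ h3 hK hI hF hirr hM (ε := ε / (2 * (C * (Q.card : ℝ) + 1))) (by positivity)
  refine ⟨δ / C', by positivity, fun k hk f hf k' hk' v hv => ?_⟩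
  obtain ⟨u, hu, h5⟩ := h2 (δ / C') (by positivity) v hv
  have e : C' * (δ / C') = δ := by
    field_simp
  rw [e] at h5
  have h6 : mass μ a E (shf Q (AbV ρ v (δ / C'))) f ≤ (Q.card : ℝ) * (ε / (2 * (C * (Q.card : ℝ) + 1))) := by
    refine (mass_mono h5 f).trans ((mass_biUnion_le Q (fun q => AbV ρ (u q) δ) f).trans ?_)
    refine (Finset.sum_le_card_nsmul Q _ _ fun q _ => h4 f hf (u q) (hu q)).trans ?_
    rw [nsmul_eq_mul]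
  refine (h1 k hk k' hk' f _).trans ?_
  have h7 : C * mass μ a E (shf Q (AbV ρ v (δ / C'))) f ≤ C * ((Q.card : ℝ) * (ε / (2 * (C * (Q.card : ℝ) + 1)))) :=
    mul_le_mul_of_nonneg_left h6 hC
  have h8 : C * ((Q.card : ℝ) * (ε / (2 * (C * (Q.card : ℝ) + 1)))) ≤ ε / 2 := by
    have hx : 0 ≤ C * (Q.card : ℝ) := by positivity
    have e2 : C * ((Q.card : ℝ) * (ε / (2 * (C * (Q.card : ℝ) + 1)))) = (C * (Q.card : ℝ)) / (C * (Q.card : ℝ) + 1) * (ε / 2) := by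
      field_simp
    rw [e2]
    refine mul_le_of_le_one_left (by positivity) ?_
    rw [div_le_one (by positivity)]
    linarith
  linarith

end Main

section MainL

variable {G1 X G Λ : Type} [Group G1] [TopologicalSpace G1] [IsTopologicalGroup G1] [MeasurableSpace X] [MulAction G1 X]
  [MeasurableConstSMul G1 X] [Group G] [Group Λ] [Countable Λ] {μ : Measure X} [SMulInvariantMeasure G1 X μ]
  [IsProbabilityMeasure μ] {a : Cocy G1 X Λ} {E : Emb Λ G} {b : ℕ → G1} [Countable G]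
variable {𝕜 V : Type} [RCLike 𝕜] [NormedAddCommGroup V] [InnerProductSpace 𝕜 V] [FiniteDimensional 𝕜 V] [CompleteSpace V]
  (ρ : G →* (V →L[𝕜] V))

/-- **LF, global form**: the left data. -/
theorem lf_allL (h3 : Tendsto (fun g : G1 => μ {x | a.a g x ≠ 1}) (𝓝 1) (𝓝 0)) (hK : Kcont G1 μ)
    (hI : CocI μ a) (hF : FullE E)
    (hirr : ∀ F : Submodule 𝕜 V, F ≠ ⊥ → F ≠ ⊤ → (Set.range fun k => trS ρ k F).Infinite) {F K : Set G1}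
    (hM : ∀ f : ℕ → G1, (∀ n, f n ∈ F) → Tendsto f (hyperfilter ℕ : Filter ℕ) (cocompact G1) → MauU (Ctr f))
    (hK' : IsCompact K) {ε : ℝ} (hε : 0 < ε) :
    ∃ δ : ℝ, 0 < δ ∧ ∀ k ∈ K, ∀ f ∈ F, ∀ k' ∈ K, ∀ v : V, ‖v‖ = 1 → mass μ a E (AbL ρ v δ) (k * f * k')⁻¹ ≤ ε := by
  obtain ⟨δ, hδ, h⟩ := lf_all (μ := μ) (a := a) (E := E) (ctg ρ) h3 hK hI hF (hirr_ctg ρ hirr) hM hK' hε
  refine ⟨δ, hδ, fun k hk f hf k' hk' v hv => ?_⟩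
  have h1 := h k hk f hf k' hk' v hv
  rwa [← AbL_inv, ← mass_inv, inv_inv] at h1

end MainL

end Pool.Agent.Helper10.FQ
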