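import Pool.Agent.Helper90.OB.G2Maut
import Pool.Agent.Helper77.FQ.Cow
import Pool.Agent.Helper10.FQ.GdB

/-!
# Project FQ (MP_0f6f3f_an), layer LF: the Mautner property for the sequences of the closed chamber

`seq_gap`: a sequence of the closed chamber which tends to infinity along the hyperfilter has a gap which tends to infinity. `chm_eaG`: then `Ctr` has the Mautner property (it contains the root group of `- al j`, `maut_root`).
-/

set_option autoImplicit false
set_option linter.unusedSectionVars false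

open MeasureTheory Filter Topology Matrix

namespace Pool.Agent.Helper10.FQ

open Pool.Agent.Helper96.SA Pool.Agent.Helper96.FR Pool.Agent.Helper43.TA Pool.Agent.Helper43.TZ Pool.Agent.Helper96.TO Pool.Agent.Helper77.FQ
open Pool.Agent.Helper78.BM (Ctr)
open Pool.Agent.Helper84.GDL (GD)

/-- Some gap tends to infinity. -/
theorem seq_gap {𝔾 κ : Type} [Fintype κ] [TopologicalSpace 𝔾] {ea : (κ → ℝ) → 𝔾} (hc : Continuous ea) {c : ℕ → κ → ℝ} (h0 : ∀ n i, 0 ≤ c n i)
    (ht : Tendsto (fun n => ea (c n)) (hyperfilter ℕ : Filter ℕ) (cocompact 𝔾)) :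
    ∃ j, Tendsto (fun n => c n j) (hyperfilter ℕ : Filter ℕ) atTop := by
  by_contra hcon
  push Not at hcon
  have h1 : ∀ j, ∃ M : ℝ, ∀ᶠ n in (hyperfilter ℕ : Filter ℕ), c n j ≤ M := by
    intro j
    have h2 := hcon j
    rw [tendsto_atTop] at h2
    push Not at h2
    obtain ⟨M, hM⟩ := h2
    refine ⟨M, ?_⟩
    filter_upwards [hM] with n hn
    exact hn.le
  choose M hM using h1
  have h2 : ∀ᶠ n in (hyperfilter ℕ : Filter ℕ), ea (c n) ∈ ea '' (Set.Icc 0 M) := by
    filter_upwards [eventually_all.2 hM] with n hn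
    exact ⟨c n, ⟨fun i => h0 n i, fun i => hn i⟩, rfl⟩
  have h3 : IsCompact (ea '' (Set.Icc (0 : κ → ℝ) M)) := isCompact_Icc.image hc
  have h4 := ht.eventually (h3.compl_mem_cocompact)
  obtain ⟨n, hn1, hn2⟩ := (h2.and h4).exists
  exact hn2 hn1

variable {L : Type} [LieRing L] [LieAlgebra ℝ L] {N : ℕ} {θ : L ≃ₗ⁅ℝ⁆ L} {b : Module.Basis (Fin N) ℝ L}
  {G : Subgroup (GL (Fin N) ℝ)} {A : Submodule ℝ L} {κ : Type} [Fintype κ] [DecidableEq κ] {al : κ → Module.Dual ℝ A} {W : κ → A}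

/-- The root group is contracted. -/
theorem root_ctr (hG : IsAdj b G) (hW : ∀ i j, al i (W j) = if i = j then 1 else 0) {c : ℕ → κ → ℝ} {j : κ}
    (hj : Tendsto (fun n => c n j) (hyperfilter ℕ : Filter ℕ) atTop) {x : L} (hx : ∀ a : A, ⁅(a : L), x⁆ = (-al j a) • x) (t : ℝ) :
    (⟨ex (TT_to b (t • x)), ex_mem hG _⟩ : G) ∈ Ctr fun n => eaG hG W (c n) := by
  have hX : TT_to b x ∈ lie G := mem_lie.2 fun s => by
    have := ex_mem hG (s • x)
    rwa [map_smul] at this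
  have h7 : ∀ n, eaG hG W (c n) * (⟨ex (TT_to b (t • x)), ex_mem hG _⟩ : G) * (eaG hG W (c n))⁻¹ =
      ⟨ex ((Real.exp (-c n j) * t) • TT_to b x), mem_lie.1 hX _⟩ := by
    intro n
    refine Subtype.ext ?_
    have h8 : TT_to b (eaA W (c n) : L) * (t • TT_to b x) - (t • TT_to b x) * TT_to b (eaA W (c n) : L) = (-c n j) • (t • TT_to b x) := by
      rw [Matrix.mul_smul, Matrix.smul_mul, ← smul_sub, ← TT_lie_to, hx, al_eaA hW, map_smul, smul_comm]
    have h9 := Pool.Agent.Helper90.OB.conj_root h8 1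
    rw [one_smul, mul_one, smul_smul] at h9
    change ex (TT_to b (eaA W (c n) : L)) * ex (TT_to b (t • x)) * (ex (TT_to b (eaA W (c n) : L)))⁻¹ = ex ((Real.exp (-c n j) * t) • TT_to b x)
    rw [map_smul, h9]
  have h8 : Tendsto (fun n => Real.exp (-c n j) * t) (hyperfilter ℕ : Filter ℕ) (𝓝 0) := by
    have h10 := (Real.tendsto_exp_atBot.comp (tendsto_neg_atTop_atBot.comp hj)).mul_const t
    rwa [zero_mul] at h10
  have h9 := ((continuous_exl hX).tendsto 0).comp h8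
  have h2 : (⟨ex ((0 : ℝ) • TT_to b x), mem_lie.1 hX 0⟩ : G) = 1 := by
    apply Subtype.ext
    change ex ((0 : ℝ) • TT_to b x) = 1
    rw [zero_smul, ex_zero]
  rw [h2] at h9
  exact h9.congr fun n => (h7 n).symm

/-- The negative of a simple root is a root. -/
theorem neg_rt (h : CartanBasis θ b) (hA : MaxFlat θ A) {φ : Module.Dual ℝ A} (hφ : φ ∈ rootsL A) :
    ∃ x : L, x ≠ 0 ∧ ∀ a : A, ⁅(a : L), x⁆ = (-φ a) • x := by
  obtain ⟨-, x, hx0, hx⟩ := hφ
  refine ⟨θ x, fun h1 => hx0 ?_, fun a => ?_⟩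
  · rw [← h.invol x, h1, map_zero]
  · have h1 : ⁅θ (a : L), θ x⁆ = φ a • θ x := by
      rw [← LieEquiv.map_lie, hx, map_smul]
    rw [hA.neg a a.2, neg_lie] at h1
    rw [← neg_neg ⁅(a : L), θ x⁆, h1, neg_smul]

/-- The Mautner property if one gap tends to infinity. -/
theorem mau_seq [LieAlgebra.IsSimple ℝ L] (h : CartanBasis θ b) (hG : IsAdj b G)
    (hc : (G : Set (GL (Fin N) ℝ)) ⊆ closure (Subgroup.closure (Set.range fun x : L => ex (LinearMap.toMatrix b b (LieAlgebra.ad ℝ L x))) : Set (GL (Fin N) ℝ)))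
    (hA : MaxFlat θ A) (hr : ∀ i, al i ∈ rootsL A) (hW : ∀ i j, al i (W j) = if i = j then 1 else 0) {c : ℕ → κ → ℝ} {j : κ}
    (hj : Tendsto (fun n => c n j) (hyperfilter ℕ : Filter ℕ) atTop) : MauU (Ctr fun n => eaG hG W (c n)) := by
  obtain ⟨x, hx0, hx⟩ := neg_rt h hA (hr j)
  intro K _ _ σ ξ hξ hf g
  refine Pool.Agent.Helper90.OB.maut_root h hG hc hA (φ := -al j) (neg_ne_zero.2 (hr j).1) hx0 (fun a => hx a) σ ξ hξ (fun τ g' hg' => ?_) g
  refine hf g' ?_
  have e : g' = (⟨ex (TT_to b (τ • x)), ex_mem hG _⟩ : G) := by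
    apply Subtype.ext
    rw [hg']
    change ex (τ • TT_to b x) = ex (TT_to b (τ • x))
    rw [map_smul]
  rw [e]
  exact root_ctr hG hW hj hx τ

/-- **The Mautner property for the sequences of the closed chamber.** -/
theorem chm_eaG [LieAlgebra.IsSimple ℝ L] (h : CartanBasis θ b) (hG : IsAdj b G)
    (hc : (G : Set (GL (Fin N) ℝ)) ⊆ closure (Subgroup.closure (Set.range fun x : L => ex (LinearMap.toMatrix b b (LieAlgebra.ad ℝ L x))) : Set (GL (Fin N) ℝ)))
    (hA : MaxFlat θ A) (hr : ∀ i, al i ∈ rootsL A) (hW : ∀ i j, al i (W j) = if i = j then 1 else 0) {c : ℕ → κ → ℝ} (h0 : ∀ n i, 0 ≤ c n i)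
    (ht : Tendsto (fun n => eaG hG W (c n)) (hyperfilter ℕ : Filter ℕ) (cocompact G)) : MauU (Ctr fun n => eaG hG W (c n)) := by
  obtain ⟨j, hj⟩ := seq_gap (eaG_cont hG W) h0 ht
  exact mau_seq h hG hc hA hr hW hj

/-- The Mautner property of the group data whose flat is `eaG`. -/
theorem ChM_of [LieAlgebra.IsSimple ℝ L] (h : CartanBasis θ b) (hG : IsAdj b G)
    (hc : (G : Set (GL (Fin N) ℝ)) ⊆ closure (Subgroup.closure (Set.range fun x : L => ex (LinearMap.toMatrix b b (LieAlgebra.ad ℝ L x))) : Set (GL (Fin N) ℝ)))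
    (hA : MaxFlat θ A) (hr : ∀ i, al i ∈ rootsL A) (hW : ∀ i j, al i (W j) = if i = j then 1 else 0) {D1 : GD G κ}
    (he : D1.ea = eaG hG W) : ChM D1 := by
  intro c h0 ht
  rw [he] at ht ⊢
  exact chm_eaG h hG hc hA hr hW h0 ht

end Pool.Agent.Helper10.FQ
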