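import Pool.Agent.Helper10.FQ.Orb
import Pool.Agent.Helper43.LF.NAp

/-!
# Project FQ (MP_0f6f3f_an), layer LF: the data do not charge subspaces

`DV R`: data vectors `w γ` (unit vectors of a finite dimensional space `V`), on which the right translations act asymptotically by `(ac k)⁻¹` up to scalars. `Ab F δ`: the positions whose data vector is at distance `< δ` from
the subspace `F`. `NS F`: the vectors of the limit space carried by all the `Ab F δ`. `proj_zero`: if the proper subspaces `F ≠ 0` have infinite orbits, then `T φ` is orthogonal to `NS F` for all `F ≠ ⊤` (the argument of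
Furstenberg with minimal subspaces; the orbit lemma replaces stationarity). `lf_hyp`: uniform form for the hyperplanes.
-/

set_option autoImplicit false
set_option linter.unusedSectionVars false

open MeasureTheory Filter Topology
open scoped ENNReal ComplexConjugate

namespace Pool.Agent.Helper10.FQ

open Pool.Agent.Helper84 Pool.Agent.Helper84.GN Pool.Agent.Helper84.GN.S3 Pool.Agent.Helper84.GN.S3.X
open Pool.Agent.Helper84.NI Pool.Agent.Helper84.GVN Pool.Agent.Helper90.RK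
open Pool.Agent.Helper96.RK hiding toReg
open Pool.Agent.Helper66.FR Pool.Agent.Helper84.FR Pool.Agent.Helper55.FR
open Pool.Agent.Helper78.BM
open Pool.Agent.Helper43.LF (CocI)

section Lin

variable {𝕜 V : Type} [RCLike 𝕜] [NormedAddCommGroup V] [InnerProductSpace 𝕜 V] [FiniteDimensional 𝕜 V]

/-- The distance to a subspace. -/
noncomputable def dd (F : Submodule 𝕜 V) (v : V) : ℝ := ‖v - F.starProjection v‖

theorem dd_nonneg (F : Submodule 𝕜 V) (v : V) : 0 ≤ dd F v := norm_nonneg _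

theorem dd_le {F : Submodule 𝕜 V} (v : V) {u : V} (hu : u ∈ F) : dd F v ≤ ‖v - u‖ := by
  unfold dd
  rw [Submodule.starProjection_minimal v]
  exact ciInf_le ⟨0, by rintro _ ⟨x, rfl⟩; exact norm_nonneg _⟩ (⟨u, hu⟩ : F)

theorem dd_sub_le (F : Submodule 𝕜 V) (v v' : V) : dd F v ≤ dd F v' + ‖v - v'‖ := by
  refine (dd_le v (Submodule.starProjection_apply_mem F v')).trans ?_
  have e : v - F.starProjection v' = (v' - F.starProjection v') + (v - v') := by abel
  rw [e]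
  exact norm_add_le _ _

theorem dd_smul (F : Submodule 𝕜 V) (c : 𝕜) (v : V) : dd F (c • v) = ‖c‖ * dd F v := by
  unfold dd
  rw [map_smul, ← smul_sub, norm_smul]

theorem dd_zero {F : Submodule 𝕜 V} {v : V} (h : dd F v = 0) : v ∈ F := by
  unfold dd at h
  rw [norm_eq_zero, sub_eq_zero] at h
  rw [h]
  exact Submodule.starProjection_apply_mem F v

theorem dd_cont (F : Submodule 𝕜 V) : Continuous (dd F) :=
  (continuous_id.sub F.starProjection.continuous).norm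

theorem dd_map {F : Submodule 𝕜 V} (T : V →ₗ[𝕜] V) {C : ℝ} (hC : ∀ v, ‖T v‖ ≤ C * ‖v‖) (v : V) :
    dd (F.map T) (T v) ≤ C * dd F v := by
  refine (dd_le (T v) (Submodule.mem_map_of_mem (Submodule.starProjection_apply_mem F v))).trans ?_
  rw [← map_sub]
  exact hC _

theorem dd_inter (F F' : Submodule 𝕜 V) {δ : ℝ} (hδ : 0 < δ) :
    ∃ δ' : ℝ, 0 < δ' ∧ ∀ v : V, ‖v‖ = 1 → dd F v < δ' → dd F' v < δ' → dd (F ⊓ F') v < δ := by
  have : ProperSpace V := FiniteDimensional.proper 𝕜 V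
  let K : Set V := {v | ‖v‖ = 1 ∧ δ ≤ dd (F ⊓ F') v}
  have hK : IsCompact K := by
    refine (isCompact_sphere (0 : V) 1).of_isClosed_subset ?_ fun v hv => by
      rw [mem_sphere_zero_iff_norm]
      exact hv.1
    exact (isClosed_eq continuous_norm continuous_const).inter (isClosed_le continuous_const (dd_cont _))
  rcases K.eq_empty_or_nonempty with h | h
  · refine ⟨1, one_pos, fun v hv _ _ => ?_⟩
    by_contra hc
    have : v ∈ K := ⟨hv, not_lt.1 hc⟩
    rw [h] at this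
    exact this
  · obtain ⟨v0, hv0, hmin⟩ := hK.exists_isMinOn h (f := fun v => max (dd F v) (dd F' v))
      (((dd_cont F).max (dd_cont F')).continuousOn)
    have hpos : 0 < max (dd F v0) (dd F' v0) := by
      rcases lt_or_eq_of_le (le_max_of_le_left (c := dd F' v0) (dd_nonneg F v0)) with h1 | h1
      · exact h1
      · exfalso
        have h2 : dd F v0 = 0 := le_antisymm ((le_max_left _ _).trans h1.symm.le) (dd_nonneg _ _)
        have h3 : dd F' v0 = 0 := le_antisymm ((le_max_right _ _).trans h1.symm.le) (dd_nonneg _ _)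
        have h4 : v0 ∈ F ⊓ F' := ⟨dd_zero h2, dd_zero h3⟩
        have h5 : dd (F ⊓ F') v0 ≤ 0 := by
          refine (dd_le v0 h4).trans ?_
          rw [sub_self, norm_zero]
        linarith [hv0.2]
    refine ⟨_, hpos, fun v hv h1 h2 => ?_⟩
    by_contra hc
    have h3 : max (dd F v0) (dd F' v0) ≤ max (dd F v) (dd F' v) := hmin (show v ∈ K from ⟨hv, not_lt.1 hc⟩)
    exact absurd (max_lt h1 h2) (not_lt.2 h3)

theorem exists_bound (T : V →ₗ[𝕜] V) : ∃ C : ℝ, 0 < C ∧ ∀ v, ‖T v‖ ≤ C * ‖v‖ := by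
  refine ⟨‖LinearMap.toContinuousLinearMap T‖ + 1, by positivity, fun v => ?_⟩
  refine ((LinearMap.toContinuousLinearMap T).le_opNorm v).trans ?_
  exact mul_le_mul_of_nonneg_right (by linarith) (norm_nonneg _)

end Lin

/-- Data vectors. -/
structure DV {G : Type} [Group G] (R : Reg G) (𝕜 V : Type) [RCLike 𝕜] [NormedAddCommGroup V] [InnerProductSpace 𝕜 V] where
  /-- the data vectors -/
  w : G → V
  nw : ∀ γ, ‖w γ‖ = 1
  /-- the action -/
  ac : G → (V ≃ₗ[𝕜] V)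
  mapm : ∀ (k l : G) (F : Submodule 𝕜 V), F.map (ac (k * l) : V →ₗ[𝕜] V) = (F.map (ac l : V →ₗ[𝕜] V)).map (ac k : V →ₗ[𝕜] V)
  right : ∀ (k : G) (n : ℕ), ∃ c : G → 𝕜, Tendsto (fun γ => w (γ * k) - c γ • (ac k).symm (w γ)) (R.F n) (𝓝 0)

section Ab

variable {G : Type} [Group G] {R : Reg G} {𝕜 V : Type} [RCLike 𝕜] [NormedAddCommGroup V] [InnerProductSpace 𝕜 V] [FiniteDimensional 𝕜 V]
  (D : DV R 𝕜 V)

namespace DV

/-- The translate of a subspace. -/
def tr (k : G) (F : Submodule 𝕜 V) : Submodule 𝕜 V := F.map (D.ac k : V →ₗ[𝕜] V)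

theorem tr_mul (k l : G) (F : Submodule 𝕜 V) : D.tr (k * l) F = D.tr k (D.tr l F) := D.mapm k l F

theorem tr_inj (k : G) : Function.Injective (D.tr k) := Submodule.map_injective_of_injective (D.ac k).injective

theorem tr_one (F : Submodule 𝕜 V) : D.tr 1 F = F := by
  refine D.tr_inj 1 ?_
  rw [← tr_mul, one_mul]

theorem finrank_tr (k : G) (F : Submodule 𝕜 V) : Module.finrank 𝕜 (D.tr k F) = Module.finrank 𝕜 F :=
  LinearEquiv.finrank_map_eq (D.ac k) F

/-- The positions whose data vector is close to `F`. -/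
def Ab (F : Submodule 𝕜 V) (δ : ℝ) : Set G := {γ | dd F (D.w γ) < δ}

theorem Ab_bot {δ : ℝ} (hδ : δ ≤ 1) : D.Ab (⊥ : Submodule 𝕜 V) δ = ∅ := by
  ext γ
  simp only [Ab, Set.mem_setOf_eq, Set.mem_empty_iff_false, iff_false, not_lt]
  have h : dd (⊥ : Submodule 𝕜 V) (D.w γ) = 1 := by
    unfold dd
    rw [Submodule.starProjection_bot, ContinuousLinearMap.zero_apply, sub_zero, D.nw]
  rw [h]
  exact hδ

theorem shift (k : G) (F : Submodule 𝕜 V) {δ : ℝ} (hδ : 0 < δ) :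
    ∃ δ' : ℝ, 0 < δ' ∧ ∀ n, ∀ᶠ γ in R.F n, γ * k ∈ D.Ab F δ' → γ ∈ D.Ab (D.tr k F) δ := by
  obtain ⟨C, hC0, hC⟩ := exists_bound (D.ac k : V →ₗ[𝕜] V)
  obtain ⟨C', hC'0, hC'⟩ := exists_bound ((D.ac k).symm : V →ₗ[𝕜] V)
  refine ⟨δ / (8 * (C * C')), by positivity, fun n => ?_⟩
  obtain ⟨c, hc⟩ := D.right k n
  have h1 := hc.norm
  rw [norm_zero] at h1
  filter_upwards [h1.eventually (gt_mem_nhds (show (0 : ℝ) < min (1 / 2) (δ / (8 * (C * C'))) by positivity))] with γ hγ hk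
  set u := D.w (γ * k) - c γ • (D.ac k).symm (D.w γ) with hu
  have hu1 : ‖u‖ < 1 / 2 := lt_of_lt_of_le hγ (min_le_left _ _)
  have hu2 : ‖u‖ < δ / (8 * (C * C')) := lt_of_lt_of_le hγ (min_le_right _ _)
  have e1 : c γ • (D.ac k).symm (D.w γ) = D.w (γ * k) - u := by
    rw [hu]
    abel
  have hc1 : 1 / 2 ≤ ‖c γ‖ * C' := by
    have h2 : ‖D.w (γ * k)‖ ≤ ‖c γ • (D.ac k).symm (D.w γ)‖ + ‖u‖ := by
      have e2 : D.w (γ * k) = c γ • (D.ac k).symm (D.w γ) + u := by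
        rw [e1]
        abel
      calc ‖D.w (γ * k)‖ = ‖c γ • (D.ac k).symm (D.w γ) + u‖ := by rw [← e2]
        _ ≤ _ := norm_add_le _ _
    rw [D.nw, norm_smul] at h2
    have h3 := hC' (D.w γ)
    rw [D.nw, mul_one] at h3
    have h4 : ‖c γ‖ * ‖(D.ac k).symm (D.w γ)‖ ≤ ‖c γ‖ * C' := mul_le_mul_of_nonneg_left h3 (norm_nonneg _)
    linarith
  have hcpos : 0 < ‖c γ‖ := by
    by_contra h
    have h0 : ‖c γ‖ = 0 := le_antisymm (not_lt.1 h) (norm_nonneg _)
    rw [h0, zero_mul] at hc1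
    norm_num at hc1
  -- `c • w γ = ac k (w (γ k) - u)`
  have e3 : c γ • D.w γ = D.ac k (D.w (γ * k) - u) := by
    rw [← e1, map_smul, LinearEquiv.apply_symm_apply]
  have h5 : ‖c γ‖ * dd (D.tr k F) (D.w γ) ≤ C * (δ / (8 * (C * C')) + δ / (8 * (C * C'))) := by
    rw [← dd_smul, e3]
    refine (dd_map (F := F) (D.ac k : V →ₗ[𝕜] V) hC _).trans (mul_le_mul_of_nonneg_left ?_ hC0.le)
    refine (dd_sub_le F _ (D.w (γ * k))).trans ?_
    have e4 : D.w (γ * k) - u - D.w (γ * k) = -u := by abel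
    rw [e4, norm_neg]
    have hk' : dd F (D.w (γ * k)) < δ / (8 * (C * C')) := hk
    linarith
  have h6 : C * (δ / (8 * (C * C')) + δ / (8 * (C * C'))) = δ / (4 * C') := by
    field_simp
    ring
  rw [h6] at h5
  change dd (D.tr k F) (D.w γ) < δ
  by_contra hcon
  have h7 := not_lt.1 hcon
  have h8 : ‖c γ‖ * δ ≤ δ / (4 * C') := (mul_le_mul_of_nonneg_left h7 hcpos.le).trans h5
  rw [le_div_iff₀ (by positivity)] at h8
  nlinarith

variable {X : Type} [MeasurableSpace X] {μ : Measure X}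

theorem iUX_comm (A B : Set G) (x : XUa μ R) : iUX R A (iUX R B x) = iUX R B (iUX R A x) := by
  have hb : ∀ A : Set G, ∀ γ, ‖(A.indicator fun _ => (1 : ℂ)) γ‖ ≤ 1 := by
    classical
    intro A γ
    unfold Set.indicator
    split_ifs <;> simp
  rw [Mf_ind, Mf_ind, Mf_ind, Mf_ind, Mf_mul (hb A) (hb B), Mf_mul (hb B) (hb A)]
  refine congrArg (fun f : G → ℂ => Mf μ R f x) ?_
  funext γ
  ring

/-- A vector carried by `B` is carried by the larger sets. -/
theorem iUX_mono {A B : Set G} (h : ∀ n, ∀ᶠ γ in R.F n, γ ∈ B → γ ∈ A) {x : XUa μ R} (hx : iUX R B x = x) : iUX R A x = x := by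
  classical
  have hb : ∀ A : Set G, ∀ γ, ‖(A.indicator fun _ => (1 : ℂ)) γ‖ ≤ 1 := by
    intro A γ
    unfold Set.indicator
    split_ifs <;> simp
  rw [← hx, Mf_ind, Mf_ind, Mf_mul (hb A) (hb B)]
  refine Mf_congr (C := 1) (D := 1) (fun γ => ?_) (hb B) (fun n => ?_) x
  · rw [norm_mul]
    exact mul_le_one₀ (hb A γ) (norm_nonneg _) (hb B γ)
  · refine tendsto_const_nhds.congr' ?_
    filter_upwards [h n] with γ hγ
    by_cases hB : γ ∈ B
    · rw [Set.indicator_of_mem hB, Set.indicator_of_mem (hγ hB), mul_one, sub_self]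
    · rw [Set.indicator_of_notMem hB, mul_zero, sub_zero]

theorem iUX_inter {A B : Set G} {x : XUa μ R} (hA : iUX R A x = x) (hB : iUX R B x = x) : iUX R (A ∩ B) x = x := by
  classical
  have hb : ∀ A : Set G, ∀ γ, ‖(A.indicator fun _ => (1 : ℂ)) γ‖ ≤ 1 := by
    intro A γ
    unfold Set.indicator
    split_ifs <;> simp
  have h : iUX R (A ∩ B) x = iUX R A (iUX R B x) := by
    rw [Mf_ind, Mf_ind, Mf_ind, Mf_mul (hb A) (hb B)]
    refine congrArg (fun f : G → ℂ => Mf μ R f x) ?_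
    funext γ
    by_cases h1 : γ ∈ A <;> by_cases h2 : γ ∈ B <;> simp [h1, h2]
  rw [h, hB, hA]

theorem iUX_symm (A : Set G) (x y : XUa μ R) : inner ℂ (iUX R A x) y = inner ℂ x (iUX R A y) := by
  classical
  have hb : ∀ γ, ‖(A.indicator fun _ => (1 : ℂ)) γ‖ ≤ 1 := by
    intro γ
    unfold Set.indicator
    split_ifs <;> simp
  rw [Mf_ind, Mf_ind, Mf_adj hb]
  refine congrArg (fun f : G → ℂ => inner ℂ x (Mf μ R f y)) ?_
  funext γ
  by_cases h : γ ∈ A
  · rw [Set.indicator_of_mem h, map_one]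
  · rw [Set.indicator_of_notMem h, map_zero]

theorem norm_iUX_le (A : Set G) (x : XUa μ R) : ‖iUX R A x‖ ≤ ‖x‖ := by
  classical
  have h := norm_Mf_le (μ := μ) (R := R) (f := A.indicator fun _ => (1 : ℂ)) (C := 1) (fun γ => by
    unfold Set.indicator
    split_ifs <;> simp) x
  rwa [← Mf_ind, one_mul] at h

variable (μ) in
/-- The vectors carried by all the `Ab F δ`. -/
noncomputable def NS (F : Submodule 𝕜 V) : Submodule ℂ (XUa μ R) where
  carrier := {x | ∀ δ : ℝ, 0 < δ → iUX R (D.Ab F δ) x = x}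
  add_mem' := by
    intro x y hx hy δ hδ
    rw [map_add, hx δ hδ, hy δ hδ]
  zero_mem' := fun δ _ => map_zero _
  smul_mem' := by
    intro c x hx δ hδ
    rw [map_smul, hx δ hδ]

theorem isClosed_NS (F : Submodule 𝕜 V) : IsClosed (D.NS μ F : Set (XUa μ R)) := by
  have h : (D.NS μ F : Set (XUa μ R)) = ⋂ δ : {δ : ℝ // 0 < δ}, {x | iUX R (D.Ab F δ.1) x = x} := by
    ext x
    simp only [Set.mem_iInter]
    exact ⟨fun h δ => h δ.1 δ.2, fun h δ hδ => h ⟨δ, hδ⟩⟩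
  rw [h]
  exact isClosed_iInter fun δ => isClosed_eq (ContinuousLinearMap.continuous _) continuous_id

instance instComplNS (F : Submodule 𝕜 V) : CompleteSpace (D.NS μ F) := (D.isClosed_NS F).completeSpace_coe

variable (μ) in
/-- The projection on `NS F`. -/
noncomputable def Pn (F : Submodule 𝕜 V) : XUa μ R →L[ℂ] XUa μ R := (D.NS μ F).starProjection

theorem Pn_mem (F : Submodule 𝕜 V) (x : XUa μ R) : D.Pn μ F x ∈ D.NS μ F := Submodule.starProjection_apply_mem _ _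

theorem Pn_eq {F : Submodule 𝕜 V} {x : XUa μ R} (h : x ∈ D.NS μ F) : D.Pn μ F x = x := Submodule.starProjection_eq_self_iff.2 h

theorem Pn_symm (F : Submodule 𝕜 V) (x y : XUa μ R) : inner ℂ (D.Pn μ F x) y = inner ℂ x (D.Pn μ F y) :=
  Submodule.inner_starProjection_left_eq_right _ _ _

theorem norm_Pn_le (F : Submodule 𝕜 V) (x : XUa μ R) : ‖D.Pn μ F x‖ ≤ ‖x‖ := Submodule.norm_starProjection_apply_le _ _

theorem Pn_iUX (F : Submodule 𝕜 V) (A : Set G) (x : XUa μ R) : D.Pn μ F (iUX R A x) = iUX R A (D.Pn μ F x) :=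
  proj_comm (V := D.NS μ F) (T := (iUX R A : XUa μ R →L[ℂ] XUa μ R)) (T' := (iUX R A : XUa μ R →L[ℂ] XUa μ R)) (iUX_symm A)
    (fun y hy δ hδ => by rw [iUX_comm, hy δ hδ]) (fun y hy δ hδ => by rw [iUX_comm, hy δ hδ]) x

theorem Pn_comm (F F' : Submodule 𝕜 V) (x : XUa μ R) : D.Pn μ F (D.Pn μ F' x) = D.Pn μ F' (D.Pn μ F x) :=
  proj_comm (V := D.NS μ F) (T := D.Pn μ F') (T' := D.Pn μ F') (D.Pn_symm F')
    (fun y hy δ hδ => by rw [← Pn_iUX, hy δ hδ]) (fun y hy δ hδ => by rw [← Pn_iUX, hy δ hδ]) x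

theorem NS_inter {F F' : Submodule 𝕜 V} {x : XUa μ R} (h : x ∈ D.NS μ F) (h' : x ∈ D.NS μ F') : x ∈ D.NS μ (F ⊓ F') := by
  intro δ hδ
  obtain ⟨δ', hδ', h1⟩ := dd_inter F F' hδ
  refine iUX_mono (B := D.Ab F δ' ∩ D.Ab F' δ') (fun n => Eventually.of_forall fun γ hγ => ?_) (iUX_inter (h δ' hδ') (h' δ' hδ'))
  exact h1 _ (D.nw γ) hγ.1 hγ.2

/-- The product of two projections is orthogonal to a vector which does not charge the intersection. -/
theorem Pn_prod {F F' : Submodule 𝕜 V} {x : XUa μ R} (h : D.Pn μ (F ⊓ F') x = 0) : D.Pn μ F (D.Pn μ F' x) = 0 := by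
  set y := D.Pn μ F (D.Pn μ F' x) with hy
  have h1 : y ∈ D.NS μ F := D.Pn_mem _ _
  have h2 : y ∈ D.NS μ F' := by
    rw [hy, Pn_comm]
    exact D.Pn_mem _ _
  have h3 := D.NS_inter h1 h2
  have h4 : inner ℂ y y = (0 : ℂ) := by
    calc inner ℂ y y = inner ℂ y (D.Pn μ F (D.Pn μ F' x)) := by rw [← hy]
      _ = inner ℂ y x := by rw [← Pn_symm, D.Pn_eq h1, ← Pn_symm, D.Pn_eq h2]
      _ = inner ℂ (D.Pn μ (F ⊓ F') y) x := by rw [D.Pn_eq h3]
      _ = 0 := by rw [Pn_symm, h, inner_zero_right]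
  exact inner_self_eq_zero.1 h4

/-- Translates. -/
theorem NS_XBU (k : G) {F : Submodule 𝕜 V} {x : XUa μ R} (h : x ∈ D.NS μ F) : XBU R k x ∈ D.NS μ (D.tr k F) := by
  classical
  intro δ hδ
  obtain ⟨δ', hδ', h1⟩ := D.shift k F hδ
  have hb : ∀ A : Set G, ∀ γ, ‖(A.indicator fun _ => (1 : ℂ)) γ‖ ≤ 1 := by
    intro A γ
    unfold Set.indicator
    split_ifs <;> simp
  have h2 : iUX R {γ | γ * k ∈ D.Ab F δ'} (XBU R k x) = XBU R k x := by
    have h3 := h δ' hδ'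
    rw [Mf_ind] at h3
    have h4 := Mf_XBU (μ := μ) (R := R) (hb (D.Ab F δ')) k x
    rw [h3] at h4
    rw [Mf_ind]
    exact h4.symm
  exact iUX_mono h1 h2

theorem Pn_XBU (k : G) (F : Submodule 𝕜 V) (x : XUa μ R) : D.Pn μ (D.tr k F) (XBU R k x) = XBU R k (D.Pn μ F x) := by
  have hk : ∀ y : XUa μ R, XBU R k⁻¹ (XBU R k y) = y := by
    intro y
    have h := congrArg (fun A : XUa μ R ≃ₗᵢ[ℂ] XUa μ R => A y) ((XBU (μ := μ) R).map_mul k⁻¹ k)
    rw [inv_mul_cancel, map_one] at h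
    exact h.symm
  have hk' : ∀ y : XUa μ R, XBU R k (XBU R k⁻¹ y) = y := by
    intro y
    have h := congrArg (fun A : XUa μ R ≃ₗᵢ[ℂ] XUa μ R => A y) ((XBU (μ := μ) R).map_mul k k⁻¹)
    rw [mul_inv_cancel, map_one] at h
    exact h.symm
  unfold Pn
  apply Submodule.eq_starProjection_of_mem_orthogonal
  · exact D.NS_XBU k (D.Pn_mem F x)
  · rw [← map_sub, Submodule.mem_orthogonal]
    intro u hu
    have h1 : XBU R k⁻¹ u ∈ D.NS μ F := by
      have h2 := D.NS_XBU k⁻¹ hu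
      rwa [← tr_mul, inv_mul_cancel, tr_one] at h2
    have h3 := (Submodule.mem_orthogonal _ _).1 (Submodule.sub_starProjection_mem_orthogonal (K := D.NS μ F) x) _ h1
    rw [← hk' u, LinearIsometryEquiv.inner_map_map]
    exact h3

end DV

end Ab

section Main

variable {G1 X G Λ : Type} [Group G1] [TopologicalSpace G1] [IsTopologicalGroup G1] [MeasurableSpace X] [MulAction G1 X]
  [MeasurableConstSMul G1 X] [Group G] [Group Λ] [Countable Λ] {μ : Measure X} [SMulInvariantMeasure G1 X μ]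
  [IsProbabilityMeasure μ] {a : Cocy G1 X Λ} {E : Emb Λ G} {R : Reg G} {b : ℕ → G1}
variable {𝕜 V : Type} [RCLike 𝕜] [NormedAddCommGroup V] [InnerProductSpace 𝕜 V] [FiniteDimensional 𝕜 V] (D : DV R 𝕜 V)

variable (μ a E b) in
/-- The operator `T* P T`. -/
noncomputable def YF (F : Submodule 𝕜 V) : XL μ (L2 G) →L[ℂ] XL μ (L2 G) :=
  (ContinuousLinearMap.adjoint (Tb μ a E R b)).comp ((D.Pn μ F).comp (Tb μ a E R b))

theorem YF_apply (F : Submodule 𝕜 V) (φ : XL μ (L2 G)) :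
    YF μ a E b D F φ = ContinuousLinearMap.adjoint (Tb μ a E R b) (D.Pn μ F (Tb μ a E R b φ)) := rfl

theorem Pn_pyU (F : Submodule 𝕜 V) {D' : Set X} (hD' : MeasurableSet D') (x : XUa μ R) :
    D.Pn μ F ((pyU μ b R).p D' x) = (pyU μ b R).p D' (D.Pn μ F x) := by
  have hc : ∀ (A : Set G) (y : XUa μ R), iUX R A ((pyU μ b R).p D' y) = (pyU μ b R).p D' (iUX R A y) := by
    intro A y
    rw [Mf_ind, Mf_ind]
    exact (hom_rst (xmU_hom b (mulop (A.indicator fun _ => (1 : ℂ)))) _ _ fun _ hx => mulop_memX R hx).y D' hD' y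
  exact proj_comm (V := D.NS μ F) (T := (pyU μ b R).p D') (T' := (pyU μ b R).p D') ((pyU μ b R).symm D' hD')
    (fun y hy δ hδ => by rw [hc, hy δ hδ]) (fun y hy δ hδ => by rw [hc, hy δ hδ]) x

theorem Pn_sSU (F : Submodule 𝕜 V) (c : ℕ → G1) (x : XUa μ R) : D.Pn μ F (sSU μ R c x) = sSU μ R c (D.Pn μ F x) := by
  have hc : ∀ (c : ℕ → G1) (A : Set G) (y : XUa μ R), iUX R A (sSU μ R c y) = sSU μ R c (iUX R A y) := by
    intro c A y
    rw [Mf_ind, Mf_ind, Mf_sSU]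
  have hi : ∀ y : XUa μ R, sSU μ R c (sSU μ R (fun n => (c n)⁻¹) y) = y := fun y => Subtype.ext (sS_inv' c _)
  exact proj_comm (V := D.NS μ F) (T := sSU μ R c) (T' := sSU μ R fun n => (c n)⁻¹)
    (fun x y => by
      rw [← inner_sSU c x, hi])
    (fun y hy δ hδ => by rw [hc, hy δ hδ]) (fun y hy δ hδ => by rw [hc, hy δ hδ]) x

theorem YF_xE (F : Submodule 𝕜 V) : ComX (YF μ a E b D F) := by
  intro D' hD' φ
  rw [YF_apply, YF_apply]
  exact adj_comm_sa (Tb μ a E R b) (M := D.Pn μ F) (u := xE μ (L2 G) D') (s := (pyU μ b R).p D')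
    (xE_symm hD') ((pyU μ b R).symm D' hD') (Tb_xE hD') (fun x => Pn_pyU D F hD' x) φ

theorem YF_V (h3 : Tendsto (fun g : G1 => μ {x | a.a g x ≠ 1}) (𝓝 1) (𝓝 0)) (F : Submodule 𝕜 V) {q : G1} (hq : q ∈ Ctr b)
    (φ : XL μ (L2 G)) : YF μ a E b D F (Vq μ a E q φ) = Vq μ a E q (YF μ a E b D F φ) := by
  rw [YF_apply, YF_apply]
  exact adj_comm (Tb μ a E R b) (M := D.Pn μ F) (M' := D.Pn μ F) (u := Vq μ a E q)
    (s := sSU μ R fun n => b n * q * (b n)⁻¹)
    (inner_Vq q) (fun y => ⟨Vq μ a E q⁻¹ y, Vq_inv' q y⟩) (inner_sSU _) (Tb_contr h3 hq)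
    (fun x => Pn_sSU D F _ x) φ

theorem YF_W (F : Submodule 𝕜 V) {k : G} (hk : D.tr k F = F) (φ : XL μ (L2 G)) :
    YF μ a E b D F (Wk μ k φ) = Wk μ k (YF μ a E b D F φ) := by
  rw [YF_apply, YF_apply]
  refine adj_comm (Tb μ a E R b) (M := D.Pn μ F) (M' := D.Pn μ F) (u := Wk μ k) (s := XBU R k)
    (inner_Wk k) (fun y => ⟨Wk μ k⁻¹ y, Wk_inv' k y⟩) (inner_XBU k) (Tb_W k) (fun x => ?_) φ
  have h := D.Pn_XBU k F x
  rwa [hk] at h

theorem norm_Tb_le (φ : XL μ (L2 G)) : ‖Tb μ a E R b φ‖ ≤ ‖φ‖ := by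
  rw [Tb_eq]
  have h1 : ‖XPpr R (KK μ a E b φ)‖ ≤ ‖KK μ a E b φ‖ := Submodule.norm_orthogonalProjectionOnto_apply_le _ _
  refine h1.trans ?_
  change ‖UE.val (KK μ a E b φ)‖ ≤ _
  rw [val_KK]
  refine UP.norm_mk_le _ fun n => ?_
  change ‖WW μ a E (b n) φ‖ ≤ _
  rw [norm_WW]

/-- The stabilizer of a subspace. -/
def stS (F : Submodule 𝕜 V) : Subgroup G where
  carrier := {k | D.tr k F = F}
  mul_mem' := by
    intro k l hk hl
    change D.tr (k * l) F = F
    rw [D.tr_mul, show D.tr l F = F from hl, show D.tr k F = F from hk]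
  one_mem' := D.tr_one F
  inv_mem' := by
    intro k hk
    refine D.tr_inj k ?_
    rw [← D.tr_mul, mul_inv_cancel, D.tr_one, show D.tr k F = F from hk]

theorem sum_proj {H ι : Type} [NormedAddCommGroup H] [InnerProductSpace ℂ H] (s : Finset ι) (y : ι → H) (x : H)
    (h1 : ∀ i ∈ s, inner ℂ x (y i) = inner ℂ (y i) (y i)) (h2 : ∀ i ∈ s, ∀ j ∈ s, i ≠ j → inner ℂ (y i) (y j) = (0 : ℂ)) :
    ∑ i ∈ s, ‖y i‖ ^ 2 ≤ ‖x‖ ^ 2 := by
  classical
  set z := ∑ i ∈ s, y i with hz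
  have e1 : inner ℂ x z = ((∑ i ∈ s, ‖y i‖ ^ 2 : ℝ) : ℂ) := by
    rw [hz, inner_sum, Complex.ofReal_sum]
    refine Finset.sum_congr rfl fun i hi => ?_
    rw [h1 i hi, inner_self_eq_norm_sq_to_K]
    norm_cast
  have e2 : inner ℂ z z = ((∑ i ∈ s, ‖y i‖ ^ 2 : ℝ) : ℂ) := by
    rw [hz, sum_inner, Complex.ofReal_sum]
    refine Finset.sum_congr rfl fun i hi => ?_
    rw [inner_sum, Finset.sum_eq_single i (fun j hj hji => h2 i hi j hj (Ne.symm hji)) (fun h => absurd hi h), inner_self_eq_norm_sq_to_K]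
    norm_cast
  have e3 : ‖z‖ ^ 2 = ∑ i ∈ s, ‖y i‖ ^ 2 := by
    have h : ((‖z‖ ^ 2 : ℝ) : ℂ) = ((∑ i ∈ s, ‖y i‖ ^ 2 : ℝ) : ℂ) := by
      rw [← e2, inner_self_eq_norm_sq_to_K]
      norm_cast
    exact Complex.ofReal_injective h
  have e4 : ∑ i ∈ s, ‖y i‖ ^ 2 ≤ ‖x‖ * ‖z‖ := by
    have h := norm_inner_le_norm (𝕜 := ℂ) x z
    rw [e1, Complex.norm_real, Real.norm_eq_abs] at h
    exact (le_abs_self _).trans h
  rw [← e3] at e4 ⊢
  have h0 : ‖z‖ ≤ ‖x‖ := by
    by_contra hc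
    have h5 := not_le.1 hc
    nlinarith [norm_nonneg z, norm_nonneg x]
  exact pow_le_pow_left₀ (norm_nonneg _) h0 2

variable [Countable G]

/-- **The data do not charge proper subspaces.** -/
theorem proj_zero (h3 : Tendsto (fun g : G1 => μ {x | a.a g x ≠ 1}) (𝓝 1) (𝓝 0)) (hK : Kcont G1 μ) (hU : MauU (Ctr b))
    (hI : CocI μ a) (hF : FullE E) (hirr : ∀ F : Submodule 𝕜 V, F ≠ ⊥ → F ≠ ⊤ → (Set.range fun k => D.tr k F).Infinite) :
    ∀ (m : ℕ) (F : Submodule 𝕜 V), Module.finrank 𝕜 F ≤ m → F ≠ ⊤ → ∀ φ : XL μ (L2 G), D.Pn μ F (Tb μ a E R b φ) = 0 := by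
  intro m
  induction m with
  | zero =>
    intro F hm hT φ
    have hb : F = ⊥ := Submodule.finrank_eq_zero.1 (Nat.le_zero.1 hm)
    subst hb
    have h1 := D.Pn_mem (μ := μ) ⊥ (Tb μ a E R b φ) 1 one_pos
    rw [D.Ab_bot le_rfl] at h1
    rw [← h1]
    rw [Mf_ind, Set.indicator_empty]
    have h2 := Mf_const (μ := μ) (R := R) 0 (D.Pn μ ⊥ (Tb μ a E R b φ))
    rw [zero_smul] at h2
    exact h2
  | succ m ih =>
    intro F hm hT φ
    by_cases hm' : Module.finrank 𝕜 F ≤ m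
    · exact ih F hm' hT φ
    have hmF : Module.finrank 𝕜 F = m + 1 := by omega
    have hb : F ≠ ⊥ := by
      rintro rfl
      rw [finrank_bot] at hmF
      omega
    set H := stS D F with hH
    have hinf := hirr F hb hT
    -- the classes
    have hcl : ∀ k l : G, D.tr k F = D.tr l F → (k : G ⧸ H) = (l : G ⧸ H) := by
      intro k l h
      rw [QuotientGroup.eq]
      change D.tr (k⁻¹ * l) F = F
      rw [D.tr_mul, ← h, ← D.tr_mul, inv_mul_cancel, D.tr_one]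
    have hinfQ : Infinite (G ⧸ H) := by
      by_contra hfin
      rw [not_infinite_iff_finite] at hfin
      refine hinf ?_
      have h4 : (Set.range fun k => D.tr k F) ⊆ Set.range fun i : G ⧸ H => D.tr (Quotient.out i) F := by
        rintro _ ⟨k, rfl⟩
        refine ⟨(k : G ⧸ H), ?_⟩
        obtain ⟨h, e⟩ := QuotientGroup.mk_out_eq_mul H k
        change D.tr (Quotient.out (k : G ⧸ H)) F = D.tr k F
        have e' : (Quotient.out (k : G ⧸ H) : G) = k * h := e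
        rw [e', D.tr_mul, show D.tr (h : G) F = F from h.2]
      exact (Set.finite_range _).subset h4
    have hne : ∀ i j : G ⧸ H, i ≠ j → D.tr (Quotient.out i) F ≠ D.tr (Quotient.out j) F := by
      intro i j hij h
      refine hij ?_
      have h4 := hcl _ _ h
      rw [QuotientGroup.out_eq', QuotientGroup.out_eq'] at h4
      exact h4
    have hlow : ∀ i j : G ⧸ H, i ≠ j → ∀ φ : XL μ (L2 G),
        D.Pn μ (D.tr (Quotient.out i) F ⊓ D.tr (Quotient.out j) F) (Tb μ a E R b φ) = 0 := by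
      intro i j hij φ
      have h5 : D.tr (Quotient.out i) F ⊓ D.tr (Quotient.out j) F < D.tr (Quotient.out i) F := by
        refine lt_of_le_of_ne inf_le_left fun h6 => hne i j hij ?_
        have h7 : D.tr (Quotient.out i) F ≤ D.tr (Quotient.out j) F := by
          rw [← h6]
          exact inf_le_right
        exact Submodule.eq_of_le_of_finrank_eq h7 (by rw [D.finrank_tr, D.finrank_tr])
      have h6 := Submodule.finrank_lt_finrank_of_lt h5
      rw [D.finrank_tr, hmF] at h6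
      refine ih _ (by omega) (fun h7 => ?_) φ
      rw [h7] at h5
      exact not_top_lt h5
    have hY : ComW H (YF μ a E b D F) := ⟨YF_xE D F, fun k hk φ => YF_W D F hk φ⟩
    -- the columns
    have hcol : ∀ i : G ⧸ H, ‖YF μ a E b D F (cst μ (dl (rp H i)))‖ ≤
        ‖D.Pn μ (D.tr (Quotient.out i) F) (Tb μ a E R b (cst μ (dl 1)))‖ := by
      intro i
      have e1 : (cst μ (dl (rp H i) : L2 G) : XL μ (L2 G)) = Wk μ (Quotient.out i)⁻¹ (cst μ (dl 1)) := by
        rw [Wk_dl, mul_one]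
        rfl
      rw [YF_apply, e1, Tb_W]
      have h5 : ∀ y : XUa μ R, ‖ContinuousLinearMap.adjoint (Tb μ a E R b) y‖ ≤ ‖y‖ := by
        intro y
        have h6 : ‖ContinuousLinearMap.adjoint (Tb μ a E R b)‖ ≤ 1 := by
          rw [LinearIsometryEquiv.norm_map]
          exact ContinuousLinearMap.opNorm_le_bound _ zero_le_one fun φ => by
            rw [one_mul]
            exact norm_Tb_le φ
        exact (ContinuousLinearMap.le_of_opNorm_le _ h6 y).trans (by rw [one_mul])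
      refine (h5 _).trans (le_of_eq ?_)
      have h7 := D.Pn_XBU (μ := μ) (Quotient.out i) F (XBU R (Quotient.out i)⁻¹ (Tb μ a E R b (cst μ (dl 1))))
      have h8 : XBU R (Quotient.out i) (XBU R (Quotient.out i)⁻¹ (Tb μ a E R b (cst μ (dl 1)))) = Tb μ a E R b (cst μ (dl 1)) := by
        have h := congrArg (fun A : XUa μ R ≃ₗᵢ[ℂ] XUa μ R => A (Tb μ a E R b (cst μ (dl 1))))
          ((XBU (μ := μ) R).map_mul (Quotient.out i) (Quotient.out i)⁻¹)
        rw [mul_inv_cancel, map_one] at h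
        exact h.symm
      rw [h8] at h7
      rw [h7, LinearIsometryEquiv.norm_map]
    have htr : trN H (YF μ a E b D F) ≠ ∞ := by
      have h5 : trN H (YF μ a E b D F) ≤ ENNReal.ofReal (‖Tb μ a E R b (cst μ (dl 1) : XL μ (L2 G))‖ ^ 2) := by
        unfold trN
        rw [ENNReal.tsum_eq_iSup_sum]
        refine iSup_le fun s => ?_
        rw [← ENNReal.ofReal_sum_of_nonneg fun i _ => sq_nonneg _]
        refine ENNReal.ofReal_le_ofReal ?_
        refine (Finset.sum_le_sum fun i _ => pow_le_pow_left₀ (norm_nonneg _) (hcol i) 2).trans ?_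
        refine sum_proj s (fun i => D.Pn μ (D.tr (Quotient.out i) F) (Tb μ a E R b (cst μ (dl 1)))) _ (fun i _ => ?_) fun i _ j _ hij => ?_
        · rw [D.Pn_symm, D.Pn_eq (D.Pn_mem _ _)]
        · rw [D.Pn_symm, D.Pn_prod (hlow i j hij _), inner_zero_right]
      exact ne_top_of_le_ne_top ENNReal.ofReal_ne_top h5
    have hz := orbit_zero h3 hK hU hI hF hY htr fun u hu φ => YF_V D h3 F hu φ
    have h6 : inner ℂ (YF μ a E b D F φ) φ = (0 : ℂ) := by
      rw [hz]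
      simp
    rw [YF_apply, ContinuousLinearMap.adjoint_inner_left, ← D.Pn_eq (D.Pn_mem F (Tb μ a E R b φ)), D.Pn_symm] at h6
    exact inner_self_eq_zero.1 h6

/-- The projections on the `Ab F δ` decrease to the projection on `NS F`. -/
theorem exists_delta (F : Submodule 𝕜 V) {x : XUa μ R} (hx : D.Pn μ F x = 0) {ε : ℝ} (hε : 0 < ε) :
    ∃ δ : ℝ, 0 < δ ∧ ‖iUX R (D.Ab F δ) x‖ ≤ ε := by
  by_contra hcon
  push Not at hcon
  -- the decreasing sequence
  let u : ℕ → XUa μ R := fun m => iUX R (D.Ab F (1 / ((m : ℝ) + 1))) x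
  have hmono : ∀ m l : ℕ, m ≤ l → iUX R (D.Ab F (1 / ((m : ℝ) + 1))) (u l) = u l := by
    intro m l hml
    refine DV.iUX_mono (B := D.Ab F (1 / ((l : ℝ) + 1))) (fun n => Eventually.of_forall fun γ hγ => ?_) ?_
    · have hγ' : dd F (D.w γ) < 1 / ((l : ℝ) + 1) := hγ
      change dd F (D.w γ) < 1 / ((m : ℝ) + 1)
      refine lt_of_lt_of_le hγ' ?_
      exact one_div_le_one_div_of_le (by positivity) (by exact_mod_cast Nat.add_le_add_right hml 1)
    · have h := DV.iUX_inter (μ := μ) (R := R) (A := D.Ab F (1 / ((l : ℝ) + 1))) (B := D.Ab F (1 / ((l : ℝ) + 1))) (x := u l)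
      have hb : ∀ γ, ‖((D.Ab F (1 / ((l : ℝ) + 1))).indicator fun _ => (1 : ℂ)) γ‖ ≤ 1 := by
        classical
        intro γ
        unfold Set.indicator
        split_ifs <;> simp
      change iUX R _ (iUX R _ x) = iUX R _ x
      rw [Mf_ind, Mf_ind, Mf_mul hb hb]
      refine congrArg (fun f : G → ℂ => Mf μ R f x) ?_
      funext γ
      by_cases h1 : γ ∈ D.Ab F (1 / ((l : ℝ) + 1))
      · rw [Set.indicator_of_mem h1, mul_one]
      · rw [Set.indicator_of_notMem h1, mul_zero]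
  have hin : ∀ m l : ℕ, m ≤ l → inner ℂ (u m) (u l) = inner ℂ (u l) (u l) := by
    intro m l hml
    have h1 : inner ℂ (u m) (u l) = inner ℂ x (u l) := by
      change inner ℂ (iUX R (D.Ab F (1 / ((m : ℝ) + 1))) x) (u l) = _
      rw [DV.iUX_symm, hmono m l hml]
    have h2 : inner ℂ (u l) (u l) = inner ℂ x (u l) := by
      change inner ℂ (iUX R (D.Ab F (1 / ((l : ℝ) + 1))) x) (u l) = _
      rw [DV.iUX_symm, hmono l l le_rfl]
    rw [h1, h2]
  have hdist : ∀ m l : ℕ, m ≤ l → ‖u m - u l‖ ^ 2 = ‖u m‖ ^ 2 - ‖u l‖ ^ 2 := by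
    intro m l hml
    rw [@norm_sub_sq ℂ, hin m l hml, inner_self_eq_norm_sq]
    ring
  have hanti : Antitone fun m => ‖u m‖ ^ 2 := by
    intro m l hml
    have h := hdist m l hml
    have h' := sq_nonneg ‖u m - u l‖
    change ‖u l‖ ^ 2 ≤ ‖u m‖ ^ 2
    linarith
  obtain ⟨c, hc⟩ : ∃ c, Tendsto (fun m => ‖u m‖ ^ 2) atTop (𝓝 c) :=
    ⟨_, tendsto_atTop_ciInf hanti ⟨0, by rintro _ ⟨m, rfl⟩; exact sq_nonneg _⟩⟩
  have hcau : CauchySeq u := by
    rw [Metric.cauchySeq_iff']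
    intro η hη
    have h1 := (Metric.cauchySeq_iff'.1 hc.cauchySeq) (η ^ 2) (by positivity)
    obtain ⟨N, hN⟩ := h1
    refine ⟨N, fun l hl => ?_⟩
    have h2 := hN l hl
    rw [Real.dist_eq, abs_sub_comm] at h2
    have h3 := (le_abs_self _).trans_lt h2
    rw [← hdist N l hl] at h3
    rw [dist_comm, dist_eq_norm]
    exact lt_of_pow_lt_pow_left₀ 2 hη.le h3
  obtain ⟨y, hy⟩ := cauchySeq_tendsto_of_complete hcau
  have hyN : y ∈ D.NS μ F := by
    intro δ hδ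
    obtain ⟨m, hm⟩ := exists_nat_one_div_lt hδ
    have h1 : ∀ l ≥ m, iUX R (D.Ab F δ) (u l) = u l := by
      intro l hl
      refine DV.iUX_mono (B := D.Ab F (1 / ((m : ℝ) + 1))) (fun n => Eventually.of_forall fun γ hγ => ?_) (hmono m l hl)
      have hγ' : dd F (D.w γ) < 1 / ((m : ℝ) + 1) := hγ
      exact lt_trans hγ' hm
    have h2 := ((iUX (μ := μ) R (D.Ab F δ)).continuous.tendsto y).comp hy
    refine tendsto_nhds_unique h2 (hy.congr' ?_)
    filter_upwards [eventually_ge_atTop m] with l hl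
    exact (h1 l hl).symm
  have hxy : inner ℂ x y = (0 : ℂ) := by
    rw [← D.Pn_eq hyN, ← D.Pn_symm, hx, inner_zero_left]
  have h7 : Tendsto (fun m => inner ℂ x (u m)) atTop (𝓝 (inner ℂ x y)) := tendsto_const_nhds.inner hy
  have h8 : ∀ m, inner ℂ x (u m) = ((‖u m‖ ^ 2 : ℝ) : ℂ) := by
    intro m
    have h9 : inner ℂ x (u m) = inner ℂ (u m) (u m) := by
      have h2 : inner ℂ (u m) (u m) = inner ℂ x (u m) := by
        change inner ℂ (iUX R (D.Ab F (1 / ((m : ℝ) + 1))) x) (u m) = _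
        rw [DV.iUX_symm, hmono m m le_rfl]
      exact h2.symm
    rw [h9, inner_self_eq_norm_sq_to_K]
    norm_cast
  rw [hxy] at h7
  have h10 : Tendsto (fun m => ‖u m‖ ^ 2) atTop (𝓝 0) := by
    have h11 := (Complex.continuous_re.tendsto _).comp h7
    rw [Complex.zero_re] at h11
    refine h11.congr fun m => ?_
    rw [Function.comp_apply, h8, Complex.ofReal_re]
  have h12 := (h10.eventually (gt_mem_nhds (show (0 : ℝ) < ε ^ 2 by positivity))).exists
  obtain ⟨m, hm⟩ := h12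
  have h13 := hcon (1 / ((m : ℝ) + 1)) (by positivity)
  have h14 : ε ^ 2 < ‖u m‖ ^ 2 := pow_lt_pow_left₀ h13 hε.le two_ne_zero
  linarith

/-- **LF, uniform form for hyperplanes.** -/
theorem lf_hyp (h3 : Tendsto (fun g : G1 => μ {x | a.a g x ≠ 1}) (𝓝 1) (𝓝 0)) (hK : Kcont G1 μ) (hU : MauU (Ctr b))
    (hI : CocI μ a) (hF : FullE E) (hirr : ∀ F : Submodule 𝕜 V, F ≠ ⊥ → F ≠ ⊤ → (Set.range fun k => D.tr k F).Infinite)
    (φ : XL μ (L2 G)) {ε : ℝ} (hε : 0 < ε) :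
    ∃ δ : ℝ, 0 < δ ∧ ∀ v : V, ‖v‖ = 1 → ‖iUX R {γ | ‖inner 𝕜 v (D.w γ)‖ < δ} (Tb μ a E R b φ)‖ ≤ ε := by
  have : ProperSpace V := FiniteDimensional.proper 𝕜 V
  -- one hyperplane
  have h1 : ∀ v : V, ‖v‖ = 1 → ∃ δ : ℝ, 0 < δ ∧ ‖iUX R {γ | ‖inner 𝕜 v (D.w γ)‖ < δ} (Tb μ a E R b φ)‖ ≤ ε := by
    intro v hv
    set F : Submodule 𝕜 V := (𝕜 ∙ v)ᗮ with hFd
    have hT : F ≠ ⊤ := by
      intro h
      have h2 : v ∈ F := by
        rw [h]
        trivial
      rw [hFd, Submodule.mem_orthogonal_singleton_iff_inner_right, inner_self_eq_norm_sq_to_K, hv] at h2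
      norm_num at h2
    obtain ⟨δ, hδ, h2⟩ := exists_delta D F (proj_zero D h3 hK hU hI hF hirr _ F le_rfl hT φ) hε
    refine ⟨δ, hδ, ?_⟩
    have e : {γ | ‖inner 𝕜 v (D.w γ)‖ < δ} = D.Ab F δ := by
      ext γ
      change ‖inner 𝕜 v (D.w γ)‖ < δ ↔ dd F (D.w γ) < δ
      have e1 : dd F (D.w γ) = ‖inner 𝕜 v (D.w γ)‖ := by
        unfold dd
        have e2 : D.w γ - F.starProjection (D.w γ) = (𝕜 ∙ v).starProjection (D.w γ) := by
          have e3 : ∀ (x : V), x - ((𝕜 ∙ v)ᗮ).starProjection x = (𝕜 ∙ v).starProjection x := by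
            intro x
            rw [Submodule.starProjection_orthogonal_val]
            abel
          exact e3 _
        rw [e2, Submodule.starProjection_unit_singleton 𝕜 hv, norm_smul, hv, mul_one]
      rw [e1]
    rw [e]
    exact h2
  choose! δ hδ h2 using h1
  have hcomp : IsCompact (Metric.sphere (0 : V) 1) := isCompact_sphere 0 1
  obtain ⟨t, ht1, ht2⟩ := hcomp.elim_finite_subcover_image (b := Metric.sphere (0 : V) 1) (c := fun v => Metric.ball v (δ v / 2))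
    (fun v _ => Metric.isOpen_ball) (fun v hv => by
      rw [Set.mem_iUnion₂]
      refine ⟨v, hv, Metric.mem_ball_self ?_⟩
      have := hδ v (mem_sphere_zero_iff_norm.1 hv)
      linarith)
  obtain ⟨htf, hcov⟩ := ht2
  -- the minimum
  obtain ⟨δ0, hδ0, hmin⟩ : ∃ δ0 : ℝ, 0 < δ0 ∧ ∀ v ∈ t, δ0 ≤ δ v / 2 := by
    rcases t.eq_empty_or_nonempty with h | h
    · exact ⟨1, one_pos, fun v hv => by rw [h] at hv; exact absurd hv (Set.notMem_empty v)⟩
    · obtain ⟨v0, hv0, hm⟩ := Set.exists_min_image t (fun v => δ v / 2) htf h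
      exact ⟨δ v0 / 2, by have := hδ v0 (mem_sphere_zero_iff_norm.1 (ht1 hv0)); linarith, hm⟩
  refine ⟨δ0, hδ0, fun v hv => ?_⟩
  have h4 := hcov (mem_sphere_zero_iff_norm.2 hv)
  rw [Set.mem_iUnion₂] at h4
  obtain ⟨v0, hv0, hvv⟩ := h4
  have h5 := h2 v0 (mem_sphere_zero_iff_norm.1 (ht1 hv0))
  refine le_trans ?_ h5
  have hsub : ({γ | ‖inner 𝕜 v (D.w γ)‖ < δ0} : Set G) ⊆ {γ | ‖inner 𝕜 v0 (D.w γ)‖ < δ v0} := by
    intro γ hγ
    have hγ' : ‖inner 𝕜 v (D.w γ)‖ < δ0 := hγ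
    change ‖inner 𝕜 v0 (D.w γ)‖ < δ v0
    have e : inner 𝕜 v0 (D.w γ) = inner 𝕜 v (D.w γ) - inner 𝕜 (v - v0) (D.w γ) := by
      rw [inner_sub_left]
      ring
    rw [e]
    refine (norm_sub_le _ _).trans_lt ?_
    have h6 : ‖inner 𝕜 (v - v0) (D.w γ)‖ ≤ ‖v - v0‖ := by
      refine (norm_inner_le_norm _ _).trans ?_
      rw [D.nw, mul_one]
    rw [Metric.mem_ball, dist_eq_norm] at hvv
    have h7 := hmin v0 hv0
    linarith
  have h8 : iUX R {γ | ‖inner 𝕜 v (D.w γ)‖ < δ0} (Tb μ a E R b φ) =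
      iUX R {γ | ‖inner 𝕜 v (D.w γ)‖ < δ0} (iUX R {γ | ‖inner 𝕜 v0 (D.w γ)‖ < δ v0} (Tb μ a E R b φ)) := by
    have hb : ∀ A : Set G, ∀ γ, ‖(A.indicator fun _ => (1 : ℂ)) γ‖ ≤ 1 := by
      classical
      intro A γ
      unfold Set.indicator
      split_ifs <;> simp
    rw [Mf_ind, Mf_ind, Mf_ind, Mf_mul (hb _) (hb _)]
    refine congrArg (fun f : G → ℂ => Mf μ R f (Tb μ a E R b φ)) ?_
    funext γ
    by_cases h9 : γ ∈ ({γ | ‖inner 𝕜 v (D.w γ)‖ < δ0} : Set G)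
    · rw [Set.indicator_of_mem h9, Set.indicator_of_mem (hsub h9), mul_one]
    · rw [Set.indicator_of_notMem h9, zero_mul]
  rw [h8]
  exact DV.norm_iUX_le _ _

end Main

end Pool.Agent.Helper10.FQ
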