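import Pool.Agent.Helper10.FQ.Ent

/-!
# Project FQ (MP_0f6f3f_an), layer LF: the orbit lemma

`fr g`: the field part of `V_(g⁻¹)`, a unitary operator commuting with the base and with all the `W_k`. `tr_cj`: the conjugation by `V_g` preserves the trace of the commutant of `W(H)`. `sig g`: the unitary representation of
`G1` on the operators of finite trace. `fix_all`: an operator of finite trace which commutes with `V_u`, `u ∈ U`, commutes with all `V_g`, if `U` has the Mautner property. `orbit_zero`: if the orbit `W_k Y W_k⁻¹` is infinite and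
the trace is finite, then `Y = 0`.
-/

set_option autoImplicit false
set_option linter.unusedSectionVars false

open MeasureTheory Filter Topology
open scoped ENNReal ComplexConjugate

namespace Pool.Agent.Helper10.FQ

open Pool.Agent.Helper84 Pool.Agent.Helper84.GN Pool.Agent.Helper84.GN.S3 Pool.Agent.Helper84.GN.S3.X
open Pool.Agent.Helper84.NI Pool.Agent.Helper84.GVN Pool.Agent.Helper90.RK
open Pool.Agent.Helper96.RK hiding toReg
open Pool.Agent.Helper66.FR Pool.Agent.Helper84.FR Pool.Agent.Helper55.FR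
open Pool.Agent.Helper78.BM
open Pool.Agent.Helper96.FR (contVec mem_contVec)
open Pool.Agent.Helper43.LF (CocI lm lm_zero)

section L

theorem lp_hasSum {I K : Type} [NormedAddCommGroup K] (f : lp (fun _ : I => K) 2) :
    HasSum (fun i => ‖f i‖ ^ 2) (‖f‖ ^ 2) := by
  have h := lp.hasSum_norm (p := 2) (by norm_num) f
  simpa using h

theorem memlp {I K : Type} [NormedAddCommGroup K] {f : I → K} (h : Summable fun i => ‖f i‖ ^ 2) : Memℓp f 2 := by
  apply memℓp_gen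
  simpa using h

theorem summable_of_ne_top {I : Type} {f : I → ℝ} (h0 : ∀ i, 0 ≤ f i) (h : ∑' i, ENNReal.ofReal (f i) ≠ ∞) : Summable f := by
  have h1 := ENNReal.summable_toReal h
  refine h1.congr fun i => ?_
  rw [ENNReal.toReal_ofReal (h0 i)]

end L

variable {G1 X G Λ : Type} [Group G1] [MeasurableSpace X] [MulAction G1 X]
  [MeasurableConstSMul G1 X] [Group G] [Group Λ] [Countable Λ] {μ : Measure X} [SMulInvariantMeasure G1 X μ]
  [IsProbabilityMeasure μ] {a : Cocy G1 X Λ} {E : Emb Λ G}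

section Fr

theorem Vq_Wk (q : G1) (k : G) (φ : XL μ (L2 G)) : Vq μ a E q (Wk μ k φ) = Wk μ k (Vq μ a E q φ) :=
  (cl_vg a (A0 := jjR E) (A1 := jjR E) (T := ((lamU k).toContinuousLinearEquiv : L2 G →L[ℂ] L2 G))
    (fun l v => ((E.conj.comm l).jjU_lam k v).symm) q φ).symm

variable (μ a E) in
/-- The field part of `V_(g⁻¹)`. -/
noncomputable def fr (g : G1) : XL μ (L2 G) ≃ₗᵢ[ℂ] XL μ (L2 G) := (kp μ (L2 G) g).trans (vgR μ a (jjR E) g⁻¹)

theorem fr_apply (g : G1) (φ : XL μ (L2 G)) : fr μ a E g φ = Vq μ a E g⁻¹ (kp μ (L2 G) g φ) := rfl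

theorem kp_cst (g : G1) (v : L2 G) : kp μ (L2 G) g (cst μ v) = cst μ v := sh_cst (measurePreserving_smul g⁻¹ μ) v

theorem fr_cst (g : G1) (v : L2 G) : fr μ a E g (cst μ v) = Vq μ a E g⁻¹ (cst μ v) := by
  rw [fr_apply, kp_cst]

theorem kp_xE (g : G1) {D : Set X} (hD : MeasurableSet D) (φ : XL μ (L2 G)) :
    kp μ (L2 G) g (xE μ (L2 G) D φ) = xE μ (L2 G) ((fun x => g⁻¹ • x) ⁻¹' D) (kp μ (L2 G) g φ) :=
  kp_mx g (BM.ind hD) φ

theorem fr_com (H : Subgroup G) (g : G1) : ComW H ((fr μ a E g).toContinuousLinearEquiv : XL μ (L2 G) →L[ℂ] XL μ (L2 G)) := by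
  refine ⟨fun D hD φ => ?_, fun k _ φ => ?_⟩
  · change fr μ a E g (xE μ (L2 G) D φ) = xE μ (L2 G) D (fr μ a E g φ)
    rw [fr_apply, kp_xE g hD]
    have hD' : MeasurableSet ((fun x => g⁻¹ • x) ⁻¹' D) := (measurable_const_smul g⁻¹) hD
    have h := vg_xE a (jjR E) g⁻¹ hD' (kp μ (L2 G) g φ)
    rw [← Set.preimage_comp] at h
    have e : ((fun x : X => g⁻¹ • x) ∘ fun x : X => g⁻¹⁻¹ • x) = id := by
      funext x
      simp
    rw [e, Set.preimage_id] at h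
    exact h
  · change fr μ a E g (Wk μ k φ) = Wk μ k (fr μ a E g φ)
    rw [fr_apply, fr_apply, ← Vq_Wk]
    congr 1
    exact (cl_kp ((lamU k).toContinuousLinearEquiv : L2 G →L[ℂ] L2 G) g φ).symm

end Fr

section Cj

variable (μ a E) in
/-- The conjugation by `V_g`. -/
noncomputable def cj (g : G1) (Z : XL μ (L2 G) →L[ℂ] XL μ (L2 G)) : XL μ (L2 G) →L[ℂ] XL μ (L2 G) :=
  (Vq μ a E g).comp (Z.comp (Vq μ a E g⁻¹))

theorem cj_apply (g : G1) (Z : XL μ (L2 G) →L[ℂ] XL μ (L2 G)) (φ : XL μ (L2 G)) :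
    cj μ a E g Z φ = Vq μ a E g (Z (Vq μ a E g⁻¹ φ)) := rfl

theorem cj_mul (g h : G1) (Z : XL μ (L2 G) →L[ℂ] XL μ (L2 G)) : cj μ a E (g * h) Z = cj μ a E g (cj μ a E h Z) := by
  ext1 φ
  rw [cj_apply, cj_apply, cj_apply, mul_inv_rev, vg_mul, vg_mul]

theorem cj_one (Z : XL μ (L2 G) →L[ℂ] XL μ (L2 G)) : cj μ a E 1 Z = Z := by
  ext1 φ
  rw [cj_apply, inv_one, vg_one, vg_one]

theorem cj_com {H : Subgroup G} (g : G1) {Z : XL μ (L2 G) →L[ℂ] XL μ (L2 G)} (h : ComW H Z) : ComW H (cj μ a E g Z) := by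
  refine ⟨fun D hD φ => ?_, fun k hk φ => ?_⟩
  · rw [cj_apply, cj_apply]
    have hD' : MeasurableSet ((fun x => g⁻¹⁻¹ • x) ⁻¹' D) := (measurable_const_smul g⁻¹⁻¹) hD
    rw [vg_xE a (jjR E) g⁻¹ hD, h.x _ hD', vg_xE a (jjR E) g hD', ← Set.preimage_comp]
    have e : ((fun x : X => g⁻¹⁻¹ • x) ∘ fun x : X => g⁻¹ • x) = id := by
      funext x
      simp
    rw [e, Set.preimage_id]
  · rw [cj_apply, cj_apply, Vq_Wk, h.w k hk, Vq_Wk]

variable [Countable G]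

theorem tr_cj {H : Subgroup G} (g : G1) {Z : XL μ (L2 G) →L[ℂ] XL μ (L2 G)} (h : ComW H Z) :
    trN H (cj μ a E g Z) = trN H Z := by
  rw [← tr_unit h (fr_com (μ := μ) (a := a) (E := E) H g) fun φ => by
    rw [LinearIsometryEquiv.adjoint_eq_symm]
    exact LinearIsometryEquiv.norm_map (fr μ a E g).symm φ]
  unfold trN
  refine tsum_congr fun i => ?_
  rw [cj_apply, norm_vg]
  change _ = ENNReal.ofReal (‖Z (fr μ a E g (cst μ (dl (rp H i))))‖ ^ 2)
  rw [fr_cst]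

end Cj

section Rep

variable [Countable G] (H : Subgroup G)

variable (μ) in
/-- The operators of finite trace. -/
def FT : Submodule ℂ (XL μ (L2 G) →L[ℂ] XL μ (L2 G)) where
  carrier := {Z | ComW H Z ∧ Memℓp (fun i : G ⧸ H => Z (cst μ (dl (rp H i)))) 2}
  add_mem' := by
    rintro Z Z' ⟨h1, h2⟩ ⟨h3, h4⟩
    refine ⟨⟨fun D hD φ => ?_, fun k hk φ => ?_⟩, h2.add h4⟩
    · rw [ContinuousLinearMap.add_apply, ContinuousLinearMap.add_apply, h1.x D hD, h3.x D hD, map_add]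
    · rw [ContinuousLinearMap.add_apply, ContinuousLinearMap.add_apply, h1.w k hk, h3.w k hk, map_add]
  zero_mem' := ⟨⟨fun D _ φ => by simp, fun k _ φ => by simp⟩, by
    have h : (fun i : G ⧸ H => (0 : XL μ (L2 G) →L[ℂ] XL μ (L2 G)) (cst μ (dl (rp H i)))) = 0 := by
      funext i
      rfl
    rw [h]
    exact zero_memℓp⟩
  smul_mem' := by
    rintro c Z ⟨h1, h2⟩
    refine ⟨⟨fun D hD φ => ?_, fun k hk φ => ?_⟩, h2.const_smul c⟩
    · rw [ContinuousLinearMap.smul_apply, ContinuousLinearMap.smul_apply, h1.x D hD, map_smul]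
    · rw [ContinuousLinearMap.smul_apply, ContinuousLinearMap.smul_apply, h1.w k hk, map_smul]

variable (μ) in
/-- The columns. -/
noncomputable def JJ : FT μ H →ₗ[ℂ] lp (fun _ : G ⧸ H => XL μ (L2 G)) 2 where
  toFun Z := ⟨fun i => (Z : XL μ (L2 G) →L[ℂ] XL μ (L2 G)) (cst μ (dl (rp H i))), Z.2.2⟩
  map_add' Z Z' := by
    apply lp.ext
    funext i
    rfl
  map_smul' c Z := by
    apply lp.ext
    funext i
    rfl

theorem JJ_apply (Z : FT μ H) (i : G ⧸ H) :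
    (JJ μ H Z : lp (fun _ : G ⧸ H => XL μ (L2 G)) 2) i = (Z : XL μ (L2 G) →L[ℂ] XL μ (L2 G)) (cst μ (dl (rp H i))) := rfl

variable {H}

theorem JJ_norm (Z : FT μ H) : ENNReal.ofReal (‖JJ μ H Z‖ ^ 2) = trN H (Z : XL μ (L2 G) →L[ℂ] XL μ (L2 G)) := by
  rw [← (lp_hasSum (JJ μ H Z)).tsum_eq, ENNReal.ofReal_tsum_of_nonneg (fun i => sq_nonneg _) (lp_hasSum (JJ μ H Z)).summable]
  rfl

theorem trN_ne_top (Z : FT μ H) : trN H (Z : XL μ (L2 G) →L[ℂ] XL μ (L2 G)) ≠ ∞ := by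
  rw [← JJ_norm]
  exact ENNReal.ofReal_ne_top

theorem mem_FT {Z : XL μ (L2 G) →L[ℂ] XL μ (L2 G)} (h : ComW H Z) (ht : trN H Z ≠ ∞) : Z ∈ FT μ H :=
  ⟨h, memlp (summable_of_ne_top (fun i => sq_nonneg _) ht)⟩

/-- An operator of the commutant of `W(H)` is determined by its columns. -/
theorem col_zero {Z : XL μ (L2 G) →L[ℂ] XL μ (L2 G)} (h : ComW H Z) (h0 : ∀ i : G ⧸ H, Z (cst μ (dl (rp H i))) = 0) : Z = 0 := by
  refine xl_clm_ext fun s hs k => ?_
  rw [h.x s hs]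
  have h1 : Z (cst μ (dl k)) = 0 := by
    obtain ⟨⟨i, m⟩, rfl⟩ := (rpEquiv H).surjective k
    rw [rpEquiv_apply, ← Wk_dl, h.w _ m.2, h0, map_zero]
  rw [h1, map_zero]
  rfl

theorem JJ_inj : Function.Injective (JJ μ H) := by
  rw [← LinearMap.ker_eq_bot, LinearMap.ker_eq_bot']
  intro Z hZ
  apply Subtype.ext
  refine col_zero Z.2.1 fun i => ?_
  rw [← JJ_apply, hZ]
  rfl

variable (μ a E H) in
/-- The conjugation by `V_g` on the operators of finite trace. -/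
noncomputable def cjF (g : G1) : FT μ H →ₗ[ℂ] FT μ H where
  toFun Z := ⟨cj μ a E g Z, mem_FT (cj_com g Z.2.1) (by
    rw [tr_cj g Z.2.1]
    exact trN_ne_top Z)⟩
  map_add' Z Z' := by
    apply Subtype.ext
    ext1 φ
    change Vq μ a E g ((Z : XL μ (L2 G) →L[ℂ] XL μ (L2 G)) (Vq μ a E g⁻¹ φ) + (Z' : XL μ (L2 G) →L[ℂ] XL μ (L2 G)) (Vq μ a E g⁻¹ φ)) = _
    rw [map_add]
    rfl
  map_smul' c Z := by
    apply Subtype.ext
    ext1 φ
    change Vq μ a E g (c • (Z : XL μ (L2 G) →L[ℂ] XL μ (L2 G)) (Vq μ a E g⁻¹ φ)) = _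
    rw [map_smul]
    rfl

theorem coe_cjF (g : G1) (Z : FT μ H) : ((cjF μ a E H g Z : FT μ H) : XL μ (L2 G) →L[ℂ] XL μ (L2 G)) = cj μ a E g Z := rfl

theorem norm_cjF (g : G1) (Z : FT μ H) : ‖JJ μ H (cjF μ a E H g Z)‖ = ‖JJ μ H Z‖ := by
  have h : ENNReal.ofReal (‖JJ μ H (cjF μ a E H g Z)‖ ^ 2) = ENNReal.ofReal (‖JJ μ H Z‖ ^ 2) := by
    rw [JJ_norm, JJ_norm, coe_cjF, tr_cj g Z.2.1]
  rw [ENNReal.ofReal_eq_ofReal_iff (sq_nonneg _) (sq_nonneg _)] at h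
  exact (sq_eq_sq₀ (norm_nonneg _) (norm_nonneg _)).1 h

variable (μ H) in
/-- The columns, as an equivalence. -/
noncomputable def JE : FT μ H ≃ₗ[ℂ] LinearMap.range (JJ μ H) := LinearEquiv.ofInjective (JJ μ H) JJ_inj

theorem coe_JE (Z : FT μ H) : ((JE μ H Z : LinearMap.range (JJ μ H)) : lp (fun _ : G ⧸ H => XL μ (L2 G)) 2) = JJ μ H Z := rfl

private theorem conj_li {M N : Type*} [AddCommGroup M] [Module ℂ M] [AddCommGroup N] [Module ℂ N] (J : M ≃ₗ[ℂ] N) (f g : M →ₗ[ℂ] M)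
    (h : ∀ Z, g (f Z) = Z) (ξ : N) : J (g (J.symm (J (f (J.symm ξ))))) = ξ := by
  rw [J.symm_apply_apply, h, J.apply_symm_apply]

private theorem conj_mul {M N : Type*} [AddCommGroup M] [Module ℂ M] [AddCommGroup N] [Module ℂ N] (J : M ≃ₗ[ℂ] N) (f g k : M →ₗ[ℂ] M)
    (h : ∀ Z, k Z = f (g Z)) (ξ : N) : J (k (J.symm ξ)) = J (f (J.symm (J (g (J.symm ξ))))) := by
  rw [J.symm_apply_apply, h]

private theorem cjF_mul (g h : G1) (Z : FT μ H) : cjF μ a E H (g * h) Z = cjF μ a E H g (cjF μ a E H h Z) :=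
  Subtype.ext (cj_mul g h (Z : XL μ (L2 G) →L[ℂ] XL μ (L2 G)))

private theorem cjF_one (Z : FT μ H) : cjF μ a E H 1 Z = Z := Subtype.ext (cj_one (Z : XL μ (L2 G) →L[ℂ] XL μ (L2 G)))

private theorem cjF_inv (g : G1) (Z : FT μ H) : cjF μ a E H g⁻¹ (cjF μ a E H g Z) = Z := by
  rw [← cjF_mul, inv_mul_cancel, cjF_one]

private theorem cjF_inv' (g : G1) (Z : FT μ H) : cjF μ a E H g (cjF μ a E H g⁻¹ Z) = Z := by
  rw [← cjF_mul, mul_inv_cancel, cjF_one]

variable (μ a E H) in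
/-- The unitary operator `Z ↦ V_g Z V_g⁻¹`. -/
noncomputable def sgU (g : G1) : LinearMap.range (JJ μ H) ≃ₗᵢ[ℂ] LinearMap.range (JJ μ H) where
  toFun ξ := JE μ H (cjF μ a E H g ((JE μ H).symm ξ))
  invFun ξ := JE μ H (cjF μ a E H g⁻¹ ((JE μ H).symm ξ))
  map_add' ξ η := ((JE μ H).toLinearMap.comp ((cjF μ a E H g).comp (JE μ H).symm.toLinearMap)).map_add ξ η
  map_smul' c ξ := ((JE μ H).toLinearMap.comp ((cjF μ a E H g).comp (JE μ H).symm.toLinearMap)).map_smul c ξ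
  left_inv ξ := conj_li (JE μ H) (cjF μ a E H g) (cjF μ a E H g⁻¹) (cjF_inv g) ξ
  right_inv ξ := conj_li (JE μ H) (cjF μ a E H g⁻¹) (cjF μ a E H g) (cjF_inv' g) ξ
  norm_map' ξ := by
    have h := norm_cjF (a := a) (E := E) g ((JE μ H).symm ξ)
    rw [← coe_JE ((JE μ H).symm ξ), (JE μ H).apply_symm_apply ξ] at h
    exact h

theorem sgU_apply (g : G1) (ξ : LinearMap.range (JJ μ H)) : sgU μ a E H g ξ = JE μ H (cjF μ a E H g ((JE μ H).symm ξ)) := rfl

variable (μ a E H) in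
/-- The unitary representation by conjugation. -/
noncomputable def sgR : G1 →* (LinearMap.range (JJ μ H) ≃ₗᵢ[ℂ] LinearMap.range (JJ μ H)) where
  toFun := sgU μ a E H
  map_one' := by
    ext1 ξ
    change JE μ H (cjF μ a E H 1 ((JE μ H).symm ξ)) = ξ
    rw [cjF_one]
    exact (JE μ H).apply_symm_apply ξ
  map_mul' g h := by
    ext1 ξ
    exact conj_mul (JE μ H) (cjF μ a E H g) (cjF μ a E H h) (cjF μ a E H (g * h)) (cjF_mul g h) ξ

theorem sgR_JE (g : G1) (Z : FT μ H) : sgR μ a E H g (JE μ H Z) = JE μ H (cjF μ a E H g Z) := by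
  change JE μ H (cjF μ a E H g ((JE μ H).symm (JE μ H Z))) = _
  rw [(JE μ H).symm_apply_apply Z]

end Rep

section Main

variable [Countable G] [TopologicalSpace G1] [IsTopologicalGroup G1] {H : Subgroup G}

/-- Strong convergence of the columns. -/
theorem col_cont (h3 : Tendsto (fun g : G1 => μ {x | a.a g x ≠ 1}) (𝓝 1) (𝓝 0)) (hK : Kcont G1 μ)
    (Z : XL μ (L2 G) →L[ℂ] XL μ (L2 G)) (φ : XL μ (L2 G)) : Tendsto (fun g : G1 => cj μ a E g Z φ) (𝓝 1) (𝓝 (Z φ)) := by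
  have h1 : ∀ ψ : XL μ (L2 G), Tendsto (fun g : G1 => Vq μ a E g ψ) (𝓝 1) (𝓝 ψ) := by
    intro ψ
    have h := contVec_vg h3 hK (jjR E) ψ
    rw [mem_contVec] at h
    exact h
  have h2 : Tendsto (fun g : G1 => Vq μ a E g⁻¹ φ) (𝓝 1) (𝓝 φ) := by
    have h4 : Tendsto (fun g : G1 => g⁻¹) (𝓝 1) (𝓝 1) := by
      have h := (continuous_inv (G := G1)).tendsto 1
      rwa [inv_one] at h
    exact (h1 φ).comp h4
  rw [tendsto_iff_norm_sub_tendsto_zero]
  have h5 : ∀ g : G1, ‖cj μ a E g Z φ - Z φ‖ ≤ ‖Z‖ * ‖Vq μ a E g⁻¹ φ - φ‖ + ‖Vq μ a E g (Z φ) - Z φ‖ := by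
    intro g
    have e : cj μ a E g Z φ - Z φ = Vq μ a E g (Z (Vq μ a E g⁻¹ φ - φ)) + (Vq μ a E g (Z φ) - Z φ) := by
      rw [cj_apply, map_sub, map_sub]
      abel
    rw [e]
    refine (norm_add_le _ _).trans (add_le_add ?_ le_rfl)
    rw [norm_vg]
    exact Z.le_opNorm _
  refine squeeze_zero (fun g => norm_nonneg _) h5 ?_
  have h6 := (((h2.sub_const φ).norm).const_mul ‖Z‖).add (((h1 (Z φ)).sub_const (Z φ)).norm)
  simpa using h6

/-- Convergence of the columns and equality of the norms give convergence. -/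
theorem lp_conv {I K T : Type} [NormedAddCommGroup K] [InnerProductSpace ℂ K] {l : Filter T} {f : T → lp (fun _ : I => K) 2}
    {g : lp (fun _ : I => K) 2} (h1 : ∀ i, Tendsto (fun t => f t i) l (𝓝 (g i))) (h2 : ∀ t, ‖f t‖ = ‖g‖) :
    Tendsto f l (𝓝 g) := by
  classical
  have key : Tendsto (fun t => inner ℂ (f t) g) l (𝓝 (inner ℂ g g)) := by
    rw [Metric.tendsto_nhds]
    intro ε hε
    -- approximate `g` by a finite sum
    have hs := lp.hasSum_single (E := fun _ : I => K) (p := 2) (by norm_num) g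
    obtain ⟨s, hs1⟩ := ((Metric.tendsto_nhds.1 hs) (ε / (3 * (‖g‖ + 1))) (by positivity)).exists
    set g' : lp (fun _ : I => K) 2 := ∑ i ∈ s, lp.single 2 i (g i) with hg'
    have h3 : Tendsto (fun t => inner ℂ (f t) g') l (𝓝 (inner ℂ g g')) := by
      have e : ∀ u : lp (fun _ : I => K) 2, inner ℂ u g' = ∑ i ∈ s, inner ℂ (u i) (g i) := by
        intro u
        rw [hg', inner_sum]
        refine Finset.sum_congr rfl fun i _ => ?_
        rw [lp.inner_single_right]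
      simp only [e]
      exact tendsto_finsetSum _ fun i _ => (h1 i).inner tendsto_const_nhds
    filter_upwards [(Metric.tendsto_nhds.1 h3) (ε / 3) (by positivity)] with t ht
    have h4 : ∀ u : lp (fun _ : I => K) 2, ‖u‖ = ‖g‖ → ‖inner ℂ u g - inner ℂ u g'‖ < ε / 3 := by
      intro u hu
      rw [← inner_sub_right]
      refine (norm_inner_le_norm _ _).trans_lt ?_
      rw [hu]
      have h5 : ‖g - g'‖ < ε / (3 * (‖g‖ + 1)) := by
        rw [← dist_eq_norm, dist_comm]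
        exact hs1
      calc ‖g‖ * ‖g - g'‖ ≤ (‖g‖ + 1) * ‖g - g'‖ := mul_le_mul_of_nonneg_right (by linarith) (norm_nonneg _)
        _ < (‖g‖ + 1) * (ε / (3 * (‖g‖ + 1))) := mul_lt_mul_of_pos_left h5 (by positivity)
        _ = ε / 3 := by
          field_simp
    have h6 := h4 (f t) (h2 t)
    have h7 := h4 g rfl
    rw [dist_eq_norm] at ht ⊢
    calc ‖inner ℂ (f t) g - inner ℂ g g‖ = ‖(inner ℂ (f t) g - inner ℂ (f t) g') + (inner ℂ (f t) g' - inner ℂ g g') - (inner ℂ g g - inner ℂ g g')‖ := by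
          congr 1
          ring
      _ ≤ ‖inner ℂ (f t) g - inner ℂ (f t) g'‖ + ‖inner ℂ (f t) g' - inner ℂ g g'‖ + ‖inner ℂ g g - inner ℂ g g'‖ :=
          (norm_sub_le _ _).trans (add_le_add (norm_add_le _ _) le_rfl)
      _ < ε / 3 + ε / 3 + ε / 3 := by linarith
      _ = ε := by ring
  rw [tendsto_iff_norm_sub_tendsto_zero]
  have h8 : ∀ t, ‖f t - g‖ ^ 2 = 2 * (‖g‖ ^ 2 - RCLike.re (inner ℂ (f t) g)) := by
    intro t
    rw [@norm_sub_sq ℂ, h2 t]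
    ring
  have h9 : Tendsto (fun t => ‖f t - g‖ ^ 2) l (𝓝 0) := by
    simp only [h8]
    have h10 : Tendsto (fun t => RCLike.re (inner ℂ (f t) g)) l (𝓝 (RCLike.re (inner ℂ g g))) :=
      (RCLike.continuous_re.tendsto _).comp key
    rw [inner_self_eq_norm_sq (𝕜 := ℂ)] at h10
    have h11 := (h10.const_sub (‖g‖ ^ 2)).const_mul 2
    rwa [sub_self, mul_zero] at h11
  have h12 := h9.sqrt
  rw [Real.sqrt_zero] at h12
  refine h12.congr fun t => ?_
  exact Real.sqrt_sq (norm_nonneg _)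

theorem contVec_JE (h3 : Tendsto (fun g : G1 => μ {x | a.a g x ≠ 1}) (𝓝 1) (𝓝 0)) (hK : Kcont G1 μ) (Z : FT μ H) :
    JE μ H Z ∈ contVec (sgR μ a E H) := by
  rw [mem_contVec]
  simp only [sgR_JE]
  rw [tendsto_subtype_rng]
  refine lp_conv (fun i => ?_) fun g => norm_cjF g Z
  exact col_cont h3 hK _ _

/-- `U` has the Mautner property. -/
def MauU (U : Set G1) : Prop :=
  ∀ (K : Type) [NormedAddCommGroup K] [InnerProductSpace ℂ K] (σ : G1 →* (K ≃ₗᵢ[ℂ] K)) (ξ : K), ξ ∈ contVec σ →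
    (∀ u ∈ U, σ u ξ = ξ) → ∀ g, σ g ξ = ξ

/-- **Operators of finite trace.** -/
theorem fix_all (h3 : Tendsto (fun g : G1 => μ {x | a.a g x ≠ 1}) (𝓝 1) (𝓝 0)) (hK : Kcont G1 μ) {U : Set G1} (hU : MauU U)
    {Z : XL μ (L2 G) →L[ℂ] XL μ (L2 G)} (hZ : ComW H Z) (ht : trN H Z ≠ ∞) (hV : ∀ u ∈ U, ∀ φ, Z (Vq μ a E u φ) = Vq μ a E u (Z φ))
    (g : G1) (φ : XL μ (L2 G)) : Z (Vq μ a E g φ) = Vq μ a E g (Z φ) := by
  have e : ∀ g : G1, cj μ a E g Z = Z ↔ ∀ φ, Z (Vq μ a E g φ) = Vq μ a E g (Z φ) := by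
    intro g
    constructor
    · intro h φ
      have h4 := DFunLike.congr_fun h (Vq μ a E g φ)
      rw [cj_apply, Vq_inv] at h4
      exact h4.symm
    · intro h
      ext1 φ
      rw [cj_apply, ← h, Vq_inv']
  set Z' : FT μ H := ⟨Z, mem_FT hZ ht⟩ with hZ'
  have h4 := hU _ (sgR μ a E H) (JE μ H Z') (contVec_JE h3 hK Z') (fun u hu => by
    rw [sgR_JE]
    congr 1
    apply Subtype.ext
    rw [coe_cjF]
    exact (e u).2 (hV u hu)) g
  rw [sgR_JE] at h4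
  have h5 := (JE μ H).injective h4
  have h6 := congrArg (fun W : FT μ H => (W : XL μ (L2 G) →L[ℂ] XL μ (L2 G))) h5
  exact (e g).1 h6 φ

/-- **Orbit lemma**: `Y` commutes with the base, with `W_k`, `k ∈ H`, and with `V_u`, `u ∈ U`, `H` is of infinite index and the trace is finite. -/
theorem orbit_zero (h3 : Tendsto (fun g : G1 => μ {x | a.a g x ≠ 1}) (𝓝 1) (𝓝 0)) (hK : Kcont G1 μ) {U : Set G1} (hU : MauU U)
    (hI : CocI μ a) (hF : FullE E) [Infinite (G ⧸ H)]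
    {Y : XL μ (L2 G) →L[ℂ] XL μ (L2 G)} (hY : ComW H Y) (ht : trN H Y ≠ ∞)
    (hV : ∀ u ∈ U, ∀ φ, Y (Vq μ a E u φ) = Vq μ a E u (Y φ)) : Y = 0 := by
  have h1 := fix_all h3 hK hU hY ht hV
  have h2 : ∀ k : G, ‖Y (cst μ (dl k))‖ = ‖Y (cst μ (dl 1))‖ := lm hI hF hY.x h1
  have h4 : Y (cst μ (dl 1)) = 0 := by
    by_contra hne
    refine ht ?_
    unfold trN
    have h5 : ∀ i : G ⧸ H, ENNReal.ofReal (‖Y (cst μ (dl (rp H i)))‖ ^ 2) = ENNReal.ofReal (‖Y (cst μ (dl 1))‖ ^ 2) := fun i => by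
      rw [h2]
    rw [tsum_congr h5]
    refine ENNReal.tsum_const_eq_top_of_ne_zero ?_
    rw [Ne, ENNReal.ofReal_eq_zero, not_le]
    exact pow_pos (norm_pos_iff.2 hne) 2
  ext1 φ
  exact lm_zero hI hF hY.x h1 h4 φ

end Main

end Pool.Agent.Helper10.FQ
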