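import Pool.Agent.Helper10.FQ.Fam
import Pool.Agent.Helper84.NI.F2

/-!
# Project FQ (MP_0f6f3f_an), layer LF: universal form

`RT`: the trivial `Reg` (all positions). `UFam ρ`: for a representation `ρ` of `G` on a finite dimensional space `V`, the sets `{γ | ∀ v ∈ F, ‖ρ γ v‖ ≤ δ ‖ρ γ‖ ‖v‖}`. `lf_uni`: if the proper subspaces of `V` have infinite orbits,
then `WW (b n) φ` has small mass on `{γ | ‖ρ γ v‖ ≤ δ ‖ρ γ‖}`, uniformly in the unit vector `v` and in `φ` in a compact set. `lf_left`: the same for the left data.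
-/

set_option autoImplicit false
set_option linter.unusedSectionVars false

open MeasureTheory Filter Topology
open scoped ENNReal ComplexConjugate

namespace Pool.Agent.Helper10.FQ

open Pool.Agent.Helper84 Pool.Agent.Helper84.GN Pool.Agent.Helper84.GN.S3 Pool.Agent.Helper84.GN.S3.X
open Pool.Agent.Helper84.NI Pool.Agent.Helper84.GVN Pool.Agent.Helper90.RK
open Pool.Agent.Helper96.RK hiding toReg
open Pool.Agent.Helper66.FR Pool.Agent.Helper84.FR Pool.Agent.Helper55.FR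
open Pool.Agent.Helper78.BM
open Pool.Agent.Helper43.LF (CocI)

section RT

/-- The whole group, without neighbourhoods of infinity. -/
def RT (G : Type) [Group G] : Reg G where
  W := fun _ => Set.univ
  F := fun _ => ⊤
  monoF := fun _ => le_rfl
  le := fun _ => by simp
  shift := fun _ _ _ => ⟨0, tendsto_top⟩

variable {G X : Type} [Group G] [MeasurableSpace X] {μ : Measure X}

theorem ind_univ : ind ℂ (Set.univ : Set G) = ContinuousLinearMap.id ℂ (L2 G) := by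
  classical
  ext y : 1
  refine l2_ext fun γ => ?_
  rw [ind_apply, if_pos (Set.mem_univ γ)]
  rfl

theorem mem_RT (ξ : UE μ (L2 G)) : ξ ∈ XUa μ (RT G) := by
  refine Submodule.le_topologicalClosure _ (Submodule.subset_span ⟨0, fun s hs => ?_⟩)
  have h : s = Set.univ := Filter.mem_top.1 hs
  rw [h, ind_univ, UE.map_id]

end RT

section Mass

variable {G1 X G Λ : Type} [Group G1] [MeasurableSpace X] [MulAction G1 X]
  [MeasurableConstSMul G1 X] [Group G] [Group Λ] [Countable Λ] {μ : Measure X} [SMulInvariantMeasure G1 X μ]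
  [IsProbabilityMeasure μ] {a : Cocy G1 X Λ} {E : Emb Λ G} {b : ℕ → G1}

/-- The mass of a set is the limit of the masses. -/
theorem tendsto_mass (A : Set G) (φ : XL μ (L2 G)) :
    Tendsto (fun n => ‖cl μ (ind ℂ A) (WW μ a E (b n) φ)‖) (hyperfilter ℕ : Filter ℕ) (𝓝 ‖iUX (RT G) A (Tb μ a E (RT G) b φ)‖) := by
  have h1 : ‖iUX (RT G) A (Tb μ a E (RT G) b φ)‖ = ‖UE.map μ (ind ℂ A) (KK μ a E b φ)‖ := by
    rw [Tb_eq]
    change ‖UE.map μ (ind ℂ A) ((XPpr (RT G) (KK μ a E b φ) : XUa μ (RT G)) : UE μ (L2 G))‖ = _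
    have h2 : ((XPpr (RT G) (KK μ a E b φ) : XUa μ (RT G)) : UE μ (L2 G)) = KK μ a E b φ := by
      change ((XUa μ (RT G)).orthogonalProjectionOnto (KK μ a E b φ) : UE μ (L2 G)) = _
      exact Submodule.starProjection_eq_self_iff.2 (mem_RT _)
    rw [h2]
  rw [h1, ← UE.norm_val, UE.val_map, val_KK, uxm_mk]
  exact UP.tendsto_norm (BSeq.map (cl μ (ind ℂ A)) (KS μ a E b φ))

theorem norm_ind1 (A : Set G) (x : L2 G) : ‖ind ℂ A x‖ ≤ ‖x‖ := by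
  classical
  have h : ind ℂ A x = mulop (A.indicator fun _ => (1 : ℂ)) x := by
    refine l2_ext fun γ => ?_
    rw [ind_apply, mulop_app (C := 1) fun γ => by
      unfold Set.indicator
      split_ifs <;> simp]
    unfold Set.indicator
    split_ifs <;> simp
  rw [h]
  have h2 := norm_mulop_app (f := A.indicator fun _ => (1 : ℂ)) (C := 1) zero_le_one (fun γ => by
    unfold Set.indicator
    split_ifs <;> simp) x
  rwa [one_mul] at h2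

theorem ind_le (A : Set G) (φ : XL μ (L2 G)) : ‖cl μ (ind ℂ A) φ‖ ≤ ‖φ‖ := by
  have h := norm_cl_le_of (μ := μ) (T := ind ℂ A) (C := 1) zero_le_one (fun x => by
    rw [one_mul]
    exact norm_ind1 A x) φ
  rwa [one_mul] at h

theorem ind_mono {A B : Set G} (h : A ⊆ B) (φ : XL μ (L2 G)) : ‖cl μ (ind ℂ A) φ‖ ≤ ‖cl μ (ind ℂ B) φ‖ := by
  have e : ind ℂ A = (ind ℂ A).comp (ind ℂ B) := by
    classical
    ext y : 1
    refine l2_ext fun γ => ?_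
    rw [ContinuousLinearMap.comp_apply, ind_apply, ind_apply, ind_apply]
    by_cases h1 : γ ∈ A
    · rw [if_pos h1, if_pos h1, if_pos (h h1)]
    · rw [if_neg h1, if_neg h1]
  rw [e, cl_comp]
  exact ind_le A _

end Mass

section Rep

variable {G : Type} [Group G] {𝕜 V : Type} [RCLike 𝕜] [NormedAddCommGroup V] [NormedSpace 𝕜 V] [FiniteDimensional 𝕜 V]

/-- The translate of a subspace. -/
def trS (ρ : G →* (V →L[𝕜] V)) (k : G) (F : Submodule 𝕜 V) : Submodule 𝕜 V := F.map (ρ k : V →ₗ[𝕜] V)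

variable (ρ : G →* (V →L[𝕜] V))

theorem rho_inv (k : G) (v : V) : ρ k⁻¹ (ρ k v) = v := by
  have h : ρ (k⁻¹ * k) v = v := by
    rw [inv_mul_cancel, map_one]
    rfl
  rwa [map_mul] at h

theorem rho_inv' (k : G) (v : V) : ρ k (ρ k⁻¹ v) = v := by
  have h := rho_inv ρ k⁻¹ v
  rwa [inv_inv] at h

theorem trS_mul (k l : G) (F : Submodule 𝕜 V) : trS ρ (k * l) F = trS ρ k (trS ρ l F) := by
  unfold trS
  rw [← Submodule.map_comp, map_mul]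
  rfl

theorem trS_one (F : Submodule 𝕜 V) : trS ρ 1 F = F := by
  unfold trS
  rw [map_one]
  exact Submodule.map_id F

theorem trS_inj (k : G) : Function.Injective (trS ρ k) := by
  intro F F' h
  have h1 := congrArg (trS ρ k⁻¹) h
  rwa [← trS_mul, ← trS_mul, inv_mul_cancel, trS_one, trS_one] at h1

theorem rho_inj (k : G) : Function.Injective (ρ k : V →ₗ[𝕜] V) := by
  intro v w h
  have h1 := congrArg (ρ k⁻¹) h
  change ρ k⁻¹ (ρ k v) = ρ k⁻¹ (ρ k w) at h1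
  rwa [rho_inv, rho_inv] at h1

theorem finrank_trS (k : G) (F : Submodule 𝕜 V) : Module.finrank 𝕜 (trS ρ k F) = Module.finrank 𝕜 F :=
  (Submodule.equivMapOfInjective (ρ k : V →ₗ[𝕜] V) (rho_inj ρ k) F).symm.finrank_eq

/-- The positions contracting `F`. -/
def AbS (F : Submodule 𝕜 V) (δ : ℝ) : Set G := {γ | ∀ v ∈ F, ‖ρ γ v‖ ≤ δ * ‖ρ γ‖ * ‖v‖}

theorem AbS_sup (F F' : Submodule 𝕜 V) {δ : ℝ} (hδ : 0 < δ) :
    ∃ δ' : ℝ, 0 < δ' ∧ AbS ρ F δ' ∩ AbS ρ F' δ' ⊆ AbS ρ (F ⊔ F') δ := by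
  -- the decomposition
  let T : (F × F') →ₗ[𝕜] ↥(F ⊔ F') := LinearMap.coprod (Submodule.inclusion le_sup_left) (Submodule.inclusion le_sup_right)
  have hT : LinearMap.range T = ⊤ := by
    rw [LinearMap.range_eq_top]
    rintro ⟨v, hv⟩
    obtain ⟨u, hu, u', hu', rfl⟩ := Submodule.mem_sup.1 hv
    exact ⟨(⟨u, hu⟩, ⟨u', hu'⟩), rfl⟩
  obtain ⟨S, hS⟩ := T.exists_rightInverse_of_surjective hT
  let S1 : ↥(F ⊔ F') →L[𝕜] F := LinearMap.toContinuousLinearMap ((LinearMap.fst 𝕜 F F').comp S)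
  let S2 : ↥(F ⊔ F') →L[𝕜] F' := LinearMap.toContinuousLinearMap ((LinearMap.snd 𝕜 F F').comp S)
  refine ⟨δ / (‖S1‖ + ‖S2‖ + 1), by positivity, ?_⟩
  rintro γ ⟨h1, h2⟩ v hv
  have e : v = (S1 ⟨v, hv⟩ : V) + (S2 ⟨v, hv⟩ : V) := by
    have h3 := LinearMap.congr_fun hS ⟨v, hv⟩
    have h4 := congrArg (fun w : ↥(F ⊔ F') => (w : V)) h3
    exact h4.symm
  have h3 : ‖(S1 ⟨v, hv⟩ : V)‖ ≤ ‖S1‖ * ‖v‖ := S1.le_opNorm ⟨v, hv⟩
  have h4 : ‖(S2 ⟨v, hv⟩ : V)‖ ≤ ‖S2‖ * ‖v‖ := S2.le_opNorm ⟨v, hv⟩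
  have h5 := h1 _ (S1 ⟨v, hv⟩).2
  have h6 := h2 _ (S2 ⟨v, hv⟩).2
  have hc : 0 ≤ δ / (‖S1‖ + ‖S2‖ + 1) * ‖ρ γ‖ := by positivity
  calc ‖ρ γ v‖ = ‖ρ γ (S1 ⟨v, hv⟩ : V) + ρ γ (S2 ⟨v, hv⟩ : V)‖ := by
        rw [← map_add, ← e]
    _ ≤ ‖ρ γ (S1 ⟨v, hv⟩ : V)‖ + ‖ρ γ (S2 ⟨v, hv⟩ : V)‖ := norm_add_le _ _
    _ ≤ δ / (‖S1‖ + ‖S2‖ + 1) * ‖ρ γ‖ * ‖(S1 ⟨v, hv⟩ : V)‖ + δ / (‖S1‖ + ‖S2‖ + 1) * ‖ρ γ‖ * ‖(S2 ⟨v, hv⟩ : V)‖ := add_le_add h5 h6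
    _ ≤ δ / (‖S1‖ + ‖S2‖ + 1) * ‖ρ γ‖ * (‖S1‖ * ‖v‖) + δ / (‖S1‖ + ‖S2‖ + 1) * ‖ρ γ‖ * (‖S2‖ * ‖v‖) :=
        add_le_add (mul_le_mul_of_nonneg_left h3 hc) (mul_le_mul_of_nonneg_left h4 hc)
    _ ≤ δ / (‖S1‖ + ‖S2‖ + 1) * ‖ρ γ‖ * ((‖S1‖ + ‖S2‖ + 1) * ‖v‖) := by
        rw [← mul_add]
        refine mul_le_mul_of_nonneg_left ?_ hc
        nlinarith [norm_nonneg v]
    _ = δ * ‖ρ γ‖ * ‖v‖ := by
        field_simp

theorem AbS_shift (k : G) (F : Submodule 𝕜 V) {δ : ℝ} (hδ : 0 < δ) :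
    ∃ δ' : ℝ, 0 < δ' ∧ ∀ γ, γ * k ∈ AbS ρ F δ' → γ ∈ AbS ρ (trS ρ k F) δ := by
  refine ⟨δ / (‖ρ k‖ * ‖ρ k⁻¹‖ + 1), by positivity, fun γ h => ?_⟩
  rintro _ ⟨v, hv, rfl⟩
  have h1 := h v hv
  have e : ρ (γ * k) v = ρ γ (ρ k v) := by
    rw [map_mul]
    rfl
  rw [e] at h1
  have h2 : ‖ρ (γ * k)‖ ≤ ‖ρ γ‖ * ‖ρ k‖ := by
    rw [map_mul]
    exact ContinuousLinearMap.opNorm_comp_le _ _
  have h3 : ‖v‖ ≤ ‖ρ k⁻¹‖ * ‖ρ k v‖ := by
    have h4 := (ρ k⁻¹).le_opNorm (ρ k v)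
    rwa [rho_inv] at h4
  refine h1.trans ?_
  have hc : 0 ≤ δ / (‖ρ k‖ * ‖ρ k⁻¹‖ + 1) := by positivity
  calc δ / (‖ρ k‖ * ‖ρ k⁻¹‖ + 1) * ‖ρ (γ * k)‖ * ‖v‖ ≤ δ / (‖ρ k‖ * ‖ρ k⁻¹‖ + 1) * (‖ρ γ‖ * ‖ρ k‖) * (‖ρ k⁻¹‖ * ‖ρ k v‖) :=
        mul_le_mul (mul_le_mul_of_nonneg_left h2 hc) h3 (norm_nonneg _) (by positivity)
    _ = δ / (‖ρ k‖ * ‖ρ k⁻¹‖ + 1) * (‖ρ k‖ * ‖ρ k⁻¹‖) * (‖ρ γ‖ * ‖ρ k v‖) := by ring
    _ ≤ δ * (‖ρ γ‖ * ‖ρ k v‖) := by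
        refine mul_le_mul_of_nonneg_right ?_ (by positivity)
        rw [div_mul_eq_mul_div, div_le_iff₀ (by positivity)]
        nlinarith [norm_nonneg (ρ k), norm_nonneg (ρ k⁻¹)]
    _ = δ * ‖ρ γ‖ * ‖ρ k v‖ := by ring

theorem AbS_top {F : Submodule 𝕜 V} (hF : F ≠ ⊥) (h : F = ⊤) : AbS ρ F (1 / 2) = ∅ := by
  subst h
  rw [Set.eq_empty_iff_forall_notMem]
  intro γ hγ
  have h1 : ‖ρ γ‖ ≤ 1 / 2 * ‖ρ γ‖ := ContinuousLinearMap.opNorm_le_bound _ (by positivity) fun v => hγ v trivial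
  have h2 : ‖ρ γ‖ = 0 := by linarith [norm_nonneg (ρ γ)]
  rw [norm_eq_zero] at h2
  refine hF ?_
  rw [Submodule.eq_bot_iff]
  intro v _
  have h3 := rho_inv ρ γ v
  rw [h2, zero_apply, map_zero] at h3
  exact h3.symm

/-- The family of sets of a representation. -/
noncomputable def UFam (hirr : ∀ F : Submodule 𝕜 V, F ≠ ⊥ → F ≠ ⊤ → (Set.range fun k => trS ρ k F).Infinite) : Fam (RT G) (Submodule 𝕜 V) where
  Ab := AbS ρ
  mono := by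
    intro F δ δ' h γ hγ v hv
    refine (hγ v hv).trans ?_
    exact mul_le_mul_of_nonneg_right (mul_le_mul_of_nonneg_right h (norm_nonneg _)) (norm_nonneg _)
  tr := trS ρ
  tr_mul := trS_mul ρ
  tr_one := trS_one ρ
  op := (· ⊔ ·)
  inter F F' δ hδ := AbS_sup ρ F F' hδ
  shift k F δ hδ := by
    obtain ⟨δ', h1, h2⟩ := AbS_shift ρ k F hδ
    exact ⟨δ', h1, fun n => Eventually.of_forall h2⟩
  good F := F ≠ ⊥
  good_tr k F h := by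
    intro h1
    refine h (trS_inj ρ k ?_)
    rw [h1]
    exact (Submodule.map_bot _).symm
  good_op F F' h _ := by
    intro h1
    refine h (eq_bot_iff.2 ?_)
    rw [← h1]
    exact le_sup_left
  rk F := Module.finrank 𝕜 V - Module.finrank 𝕜 F
  rk_tr k F := by rw [finrank_trS]
  rk_op F F' _ _ hne h := by
    have h1 : Module.finrank 𝕜 F ≤ Module.finrank 𝕜 V := Submodule.finrank_le F
    have h2 : Module.finrank 𝕜 F' ≤ Module.finrank 𝕜 V := Submodule.finrank_le F'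
    have h3 : Module.finrank 𝕜 F = Module.finrank 𝕜 F' := by omega
    have h4 : F < F ⊔ F' := by
      refine lt_of_le_of_ne le_sup_left fun h5 => hne ?_
      have h6 : F' ≤ F := by
        rw [h5]
        exact le_sup_right
      exact (Submodule.eq_of_le_of_finrank_eq h6 h3.symm).symm
    have h5 := Submodule.finrank_lt_finrank_of_lt h4
    have h6 : Module.finrank 𝕜 ↥(F ⊔ F') ≤ Module.finrank 𝕜 V := Submodule.finrank_le _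
    omega
  inf F h := by
    by_cases hT : F = ⊤
    · exact Or.inl ⟨1 / 2, by norm_num, AbS_top ρ h hT⟩
    · exact Or.inr (hirr F h hT)

end Rep

section Main

variable {G1 X G Λ : Type} [Group G1] [TopologicalSpace G1] [IsTopologicalGroup G1] [MeasurableSpace X] [MulAction G1 X]
  [MeasurableConstSMul G1 X] [Group G] [Group Λ] [Countable Λ] {μ : Measure X} [SMulInvariantMeasure G1 X μ]
  [IsProbabilityMeasure μ] {a : Cocy G1 X Λ} {E : Emb Λ G} {b : ℕ → G1} [Countable G]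

/-- The masses of the sets of a family. -/
theorem Fam.mass {I : Type} (D : Fam (RT G) I) (h3 : Tendsto (fun g : G1 => μ {x | a.a g x ≠ 1}) (𝓝 1) (𝓝 0)) (hK : Kcont G1 μ)
    (hU : MauU (Ctr b)) (hI : CocI μ a) (hF : FullE E) {F : I} (hg : D.good F) (φ : XL μ (L2 G)) {ε : ℝ} (hε : 0 < ε) :
    ∃ δ : ℝ, 0 < δ ∧ ∀ᶠ n in (hyperfilter ℕ : Filter ℕ), ‖cl μ (ind ℂ (D.Ab F δ)) (WW μ a E (b n) φ)‖ < ε := by
  obtain ⟨δ, hδ, h1⟩ := D.exists_delta F (D.proj_zero h3 hK hU hI hF _ F (Nat.lt_succ_self _) hg φ) (half_pos hε)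
  refine ⟨δ, hδ, ?_⟩
  have h2 := tendsto_mass (μ := μ) (a := a) (E := E) (b := b) (D.Ab F δ) φ
  exact h2.eventually (gt_mem_nhds (lt_of_le_of_lt h1 (half_lt_self hε)))

variable {𝕜 V : Type} [RCLike 𝕜] [NormedAddCommGroup V] [NormedSpace 𝕜 V] [FiniteDimensional 𝕜 V] (ρ : G →* (V →L[𝕜] V))

/-- **LF, universal form**: the right data. -/
theorem lf_uni (h3 : Tendsto (fun g : G1 => μ {x | a.a g x ≠ 1}) (𝓝 1) (𝓝 0)) (hK : Kcont G1 μ)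
    (hU : MauU (Ctr b)) (hI : CocI μ a) (hF : FullE E)
    (hirr : ∀ F : Submodule 𝕜 V, F ≠ ⊥ → F ≠ ⊤ → (Set.range fun k => trS ρ k F).Infinite)
    {C : Set (XL μ (L2 G))} (hC : IsCompact C) {ε : ℝ} (hε : 0 < ε) :
    ∃ δ : ℝ, 0 < δ ∧ ∀ᶠ n in (hyperfilter ℕ : Filter ℕ), ∀ φ ∈ C, ∀ v : V, ‖v‖ = 1 →
      ‖cl μ (ind ℂ {γ | ‖ρ γ v‖ ≤ δ * ‖ρ γ‖}) (WW μ a E (b n) φ)‖ ≤ ε := by
  have : ProperSpace V := FiniteDimensional.proper 𝕜 V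
  -- one vector
  have h1 : ∀ (φ : XL μ (L2 G)) (v : V), ‖v‖ = 1 → ∃ δ : ℝ, 0 < δ ∧ ∀ᶠ n in (hyperfilter ℕ : Filter ℕ),
      ‖cl μ (ind ℂ {γ | ‖ρ γ v‖ ≤ δ * ‖ρ γ‖}) (WW μ a E (b n) φ)‖ < ε / 2 := by
    intro φ v hv
    have hb : (𝕜 ∙ v) ≠ ⊥ := by
      rw [Ne, Submodule.span_singleton_eq_bot]
      rintro rfl
      rw [norm_zero] at hv
      exact zero_ne_one hv
    obtain ⟨δ, hδ, h2⟩ := (UFam ρ hirr).mass h3 hK hU hI hF (F := 𝕜 ∙ v) hb φ (half_pos hε)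
    refine ⟨δ, hδ, h2.mono fun n hn => lt_of_le_of_lt (ind_mono (fun γ hγ => ?_) _) hn⟩
    intro w hw
    obtain ⟨c, rfl⟩ := Submodule.mem_span_singleton.1 hw
    have hγ' : ‖ρ γ v‖ ≤ δ * ‖ρ γ‖ := hγ
    rw [map_smul, norm_smul, norm_smul, hv, mul_one, mul_comm (δ * ‖ρ γ‖)]
    exact mul_le_mul_of_nonneg_left hγ' (norm_nonneg _)
  -- all vectors
  have h2 : ∀ φ : XL μ (L2 G), ∃ δ : ℝ, 0 < δ ∧ ∀ᶠ n in (hyperfilter ℕ : Filter ℕ), ∀ v : V, ‖v‖ = 1 →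
      ‖cl μ (ind ℂ {γ | ‖ρ γ v‖ ≤ δ * ‖ρ γ‖}) (WW μ a E (b n) φ)‖ < ε / 2 := by
    intro φ
    have h4 : ∀ v : V, ∃ δ : ℝ, 0 < δ ∧ (‖v‖ = 1 → ∀ᶠ n in (hyperfilter ℕ : Filter ℕ),
        ‖cl μ (ind ℂ {γ | ‖ρ γ v‖ ≤ δ * ‖ρ γ‖}) (WW μ a E (b n) φ)‖ < ε / 2) := by
      intro v
      by_cases hv : ‖v‖ = 1
      · obtain ⟨δ, hδ, h5⟩ := h1 φ v hv
        exact ⟨δ, hδ, fun _ => h5⟩
      · exact ⟨1, one_pos, fun h => absurd h hv⟩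
    choose δ hδ h5 using h4
    obtain ⟨t, ht⟩ := (isCompact_sphere (0 : V) 1).elim_finite_subcover_image (b := Metric.sphere (0 : V) 1)
      (c := fun v => Metric.ball v (δ v / 2)) (fun v _ => Metric.isOpen_ball) (fun v hv => by
        rw [Set.mem_iUnion₂]
        exact ⟨v, hv, Metric.mem_ball_self (half_pos (hδ v))⟩)
    obtain ⟨ht1, htf, hcov⟩ := ht
    obtain ⟨δ0, hδ0, hmin⟩ : ∃ δ0 : ℝ, 0 < δ0 ∧ ∀ v ∈ t, δ0 ≤ δ v / 2 := by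
      rcases t.eq_empty_or_nonempty with h | h
      · exact ⟨1, one_pos, fun v hv => by rw [h] at hv; exact absurd hv (Set.notMem_empty v)⟩
      · obtain ⟨v0, hv0, hm⟩ := Set.exists_min_image t (fun v => δ v / 2) htf h
        exact ⟨δ v0 / 2, half_pos (hδ v0), hm⟩
    refine ⟨δ0, hδ0, ?_⟩
    have h6 : ∀ᶠ n in (hyperfilter ℕ : Filter ℕ), ∀ v ∈ t, ‖cl μ (ind ℂ {γ | ‖ρ γ v‖ ≤ δ v * ‖ρ γ‖}) (WW μ a E (b n) φ)‖ < ε / 2 :=
      (Filter.eventually_all_finite htf).2 fun v hv => h5 v (mem_sphere_zero_iff_norm.1 (ht1 hv))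
    filter_upwards [h6] with n hn v hv
    have h7 := hcov (mem_sphere_zero_iff_norm.2 hv)
    rw [Set.mem_iUnion₂] at h7
    obtain ⟨v0, hv0, hvv⟩ := h7
    refine lt_of_le_of_lt (ind_mono (fun γ hγ => ?_) _) (hn v0 hv0)
    have hγ' : ‖ρ γ v‖ ≤ δ0 * ‖ρ γ‖ := hγ
    change ‖ρ γ v0‖ ≤ δ v0 * ‖ρ γ‖
    have e : ρ γ v0 = ρ γ v - ρ γ (v - v0) := by
      rw [map_sub]
      abel
    rw [Metric.mem_ball, dist_eq_norm] at hvv
    have h8 : ‖ρ γ (v - v0)‖ ≤ δ v0 / 2 * ‖ρ γ‖ := by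
      refine ((ρ γ).le_opNorm _).trans ?_
      rw [mul_comm]
      exact mul_le_mul_of_nonneg_right hvv.le (norm_nonneg _)
    have h9 : δ0 * ‖ρ γ‖ ≤ δ v0 / 2 * ‖ρ γ‖ := mul_le_mul_of_nonneg_right (hmin v0 hv0) (norm_nonneg _)
    rw [e]
    refine (norm_sub_le _ _).trans ?_
    linarith
  -- all functions
  choose δ hδ h5 using h2
  obtain ⟨t, ht⟩ := hC.elim_finite_subcover_image (b := C) (c := fun φ => Metric.ball φ (ε / 2)) (fun v _ => Metric.isOpen_ball)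
    (fun v hv => by
      rw [Set.mem_iUnion₂]
      exact ⟨v, hv, Metric.mem_ball_self (half_pos hε)⟩)
  obtain ⟨ht1, htf, hcov⟩ := ht
  obtain ⟨δ0, hδ0, hmin⟩ : ∃ δ0 : ℝ, 0 < δ0 ∧ ∀ φ ∈ t, δ0 ≤ δ φ := by
    rcases t.eq_empty_or_nonempty with h | h
    · exact ⟨1, one_pos, fun v hv => by rw [h] at hv; exact absurd hv (Set.notMem_empty v)⟩
    · obtain ⟨v0, hv0, hm⟩ := Set.exists_min_image t δ htf h
      exact ⟨δ v0, hδ v0, hm⟩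
  refine ⟨δ0, hδ0, ?_⟩
  have h6 : ∀ᶠ n in (hyperfilter ℕ : Filter ℕ), ∀ φ ∈ t, ∀ v : V, ‖v‖ = 1 →
      ‖cl μ (ind ℂ {γ | ‖ρ γ v‖ ≤ δ φ * ‖ρ γ‖}) (WW μ a E (b n) φ)‖ < ε / 2 :=
    (Filter.eventually_all_finite htf).2 fun φ _ => h5 φ
  filter_upwards [h6] with n hn φ hφ v hv
  have h7 := hcov hφ
  rw [Set.mem_iUnion₂] at h7
  obtain ⟨φ0, hφ0, hφφ⟩ := h7
  rw [Metric.mem_ball, dist_eq_norm] at hφφ
  have e : WW μ a E (b n) φ = WW μ a E (b n) φ0 + WW μ a E (b n) (φ - φ0) := by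
    rw [← map_add]
    congr 1
    abel
  rw [e, map_add]
  refine (norm_add_le _ _).trans ?_
  have h8 : ‖cl μ (ind ℂ {γ | ‖ρ γ v‖ ≤ δ0 * ‖ρ γ‖}) (WW μ a E (b n) (φ - φ0))‖ ≤ ε / 2 := by
    refine (ind_le _ _).trans ?_
    rw [norm_WW]
    exact hφφ.le
  have h9 : ‖cl μ (ind ℂ {γ | ‖ρ γ v‖ ≤ δ0 * ‖ρ γ‖}) (WW μ a E (b n) φ0)‖ ≤ ε / 2 := by
    refine (ind_mono (fun γ hγ => ?_) _).trans (hn φ0 hφ0 v hv).le
    have hγ' : ‖ρ γ v‖ ≤ δ0 * ‖ρ γ‖ := hγ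
    exact hγ'.trans (mul_le_mul_of_nonneg_right (hmin φ0 hφ0) (norm_nonneg _))
  linarith

end Main

end Pool.Agent.Helper10.FQ
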